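import Pool.Agent.Y738.PE.Glob3

/-! # From an arbitrary PEPS at one size to a translation invariant PEPS at all sizes: the reduced
states are the averages over all positions -/

open scoped BigOperators ComplexConjugate Classical

noncomputable section

namespace Pool.Agent.K3h59.PE

open Pool.Agent.Y738.PE

/-- expectations in the superposition of all tilings -/
theorem main_avg (hO : StmOrth) (hF : StmFactor) (hW : StmWeights) (hS : StmShift)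
    (hE : StmExist) (hN : StmNonzero) (hB : StmBound)
    {d m M L r : ℕ} [NeZero L] (hd : 2 ≤ d) (hm : 0 < m) (hM : 0 < M) (hr : 0 < r)
    (hL1 : r + 2 * (m * M + 1) + 3 ≤ L) (hL2 : (m * M + 1) ^ 2 ≤ L)
    (Φ : BConf d m → ℂ) (hΦ : nrm Φ = 1) (Pos : Finset (ℕ × ℕ))
    (hPos : ∀ p ∈ Pos, p.1 + r ≤ m ∧ p.2 + r ≤ m) (B : BConf d r → BConf d r → ℂ)
    (hBc : Contr B) (e : ℕ × ℕ → ℂ)
    (he : ∀ p (hp : p ∈ Pos), expecBlock Φ p (hPos p hp) B = e p)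
    (he1 : ∀ p ∈ Pos, ‖e p‖ ≤ 1) :
    0 < nrm (tot m M Φ L) ∧
    ‖expec (tot m M Φ L) 0 B / (nrm (tot m M Φ L) : ℂ) -
      ((((M * (M - 1) : ℕ) : ℝ) / (((m * M + 2) ^ 2 : ℕ) : ℝ) : ℝ) : ℂ) * ∑ p ∈ Pos, e p‖ ≤
      1 - ((M * (M - 1) : ℕ) : ℝ) / (((m * M + 2) ^ 2 : ℕ) : ℝ) * Pos.card := by
  have hmL : m ≤ L := by
    have : m * 1 ≤ m * M := Nat.mul_le_mul_left m hM
    nlinarith
  have hrL : r ≤ L := by omega
  set V : Finset (Til (m * M + 1) L) := (Finset.univ : Finset (Til (m * M + 1) L)).filter Valid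
    with hV
  set W : Til (m * M + 1) L → ℝ := fun θ => nrm (glob m M Φ θ) with hWdef
  have hW0 : ∀ θ, 0 ≤ W θ := fun θ => nrm_nonneg _
  have hmemV : ∀ θ, θ ∈ V ↔ Valid θ := by
    intro θ; rw [hV, Finset.mem_filter]; simp
  obtain ⟨α, hα⟩ := hE (m * M + 1) L (by omega) hL2
  have hWpos : ∀ θ ∈ V, 0 < W θ := fun θ hθ =>
    hN d m M L hd hm hmL Φ hΦ θ ((hmemV θ).1 hθ)
  have hSpos : 0 < ∑ θ ∈ V, W θ := by
    refine Finset.sum_pos hWpos ⟨(α, α), (hmemV _).2 ⟨hα, hα⟩⟩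
  have hnrm : nrm (tot m M Φ L) = ∑ θ ∈ V, W θ := nrm_tot hO hm hM (by omega) Φ
  have hexp : expec (tot m M Φ L) 0 B = ∑ θ ∈ V, expec (glob m M Φ θ) 0 B :=
    expec_tot hO hm hM hL1 Φ B
  refine ⟨by rw [hnrm]; exact hSpos, ?_⟩
  set g : Til (m * M + 1) L → ℕ × ℕ := fun θ =>
    ((((θ.1 0).2 : ℕ) - 1) % m, (((θ.2 0).2 : ℕ) - 1) % m) with hg
  set G : Til (m * M + 1) L → Prop := fun θ => Blk m M (θ.1 0).2 (θ.2 0).2 ∧ g θ ∈ Pos with hG
  set S := ∑ θ ∈ V, W θ with hSdef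
  have hK : (0 : ℝ) < (((m * M + 2) ^ 2 : ℕ) : ℝ) := by positivity
  set w : ℝ := ((M * (M - 1) : ℕ) : ℝ) / (((m * M + 2) ^ 2 : ℕ) : ℝ) with hw
  -- the weight of one position
  set Wp : ℕ × ℕ → ℝ := fun p => ∑ θ ∈ (V.filter G).filter (fun θ => g θ = p), W θ with hWp
  have hweights : ∀ p ∈ Pos, w * S ≤ Wp p := by
    intro p hp
    have h1 := hW m M L hm hM W hW0 (fun θ _ => (hS d m M L Φ θ).1)
      (fun θ _ => (hS d m M L Φ θ).2) {p} (fun q hq => by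
        rw [Finset.mem_singleton] at hq
        subst hq
        have := hPos _ hp; constructor <;> omega)
    have hfilt : (Finset.univ : Finset (Til (m * M + 1) L)).filter
        (fun θ => Valid θ ∧ Blk m M (θ.1 0).2 (θ.2 0).2 ∧
            ((((θ.1 0).2 : ℕ) - 1) % m, (((θ.2 0).2 : ℕ) - 1) % m) ∈ ({p} : Finset (ℕ × ℕ))) =
        (V.filter G).filter (fun θ => g θ = p) := by
      rw [hV, Finset.filter_filter, Finset.filter_filter]
      ext θ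
      simp only [Finset.mem_filter, Finset.mem_univ, true_and, Finset.mem_singleton]
      constructor
      · rintro ⟨a, b, c⟩
        have c' : g θ = p := c
        exact ⟨a, ⟨b, by rw [c']; exact hp⟩, c'⟩
      · rintro ⟨a, ⟨b, _⟩, c⟩
        exact ⟨a, b, c⟩
    rw [hfilt, Finset.card_singleton, mul_one] at h1
    rw [hw, div_mul_eq_mul_div, div_le_iff₀ hK]
    rw [mul_comm (Wp p)]
    exact h1
  have hgood : ∀ θ ∈ V.filter G, expec (glob m M Φ θ) 0 B = e (g θ) * (W θ : ℂ) := by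
    intro θ hθ
    rw [Finset.mem_filter] at hθ
    obtain ⟨hθV, hblk, hpos⟩ := hθ
    have h1 := hF d m M L r hm hmL Φ hΦ θ ((hmemV θ).1 hθV) hblk (hPos _ hpos) B
    rw [h1]
    congr 1
    exact he _ hpos
  have hbad : ∀ θ ∈ V.filter (fun θ => ¬ G θ), ‖expec (glob m M Φ θ) 0 B‖ ≤ W θ := by
    intro θ _
    exact hB d L r hrL (glob m M Φ θ) 0 B hBc
  have hfib : ∀ (f : Til (m * M + 1) L → ℂ), ∑ θ ∈ V.filter G, f θ =
      ∑ p ∈ Pos, ∑ θ ∈ (V.filter G).filter (fun θ => g θ = p), f θ := by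
    intro f
    symm
    apply Finset.sum_fiberwise_of_maps_to
    intro θ hθ
    rw [Finset.mem_filter] at hθ
    exact hθ.2.2
  have hfibR : ∑ θ ∈ V.filter G, W θ = ∑ p ∈ Pos, Wp p := by
    symm
    apply Finset.sum_fiberwise_of_maps_to
    intro θ hθ
    rw [Finset.mem_filter] at hθ
    exact hθ.2.2
  have hgoodsum : ∑ θ ∈ V.filter G, expec (glob m M Φ θ) 0 B = ∑ p ∈ Pos, e p * (Wp p : ℂ) := by
    rw [Finset.sum_congr rfl hgood, hfib]
    refine Finset.sum_congr rfl fun p _ => ?_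
    rw [hWp]
    push_cast
    rw [Finset.mul_sum]
    refine Finset.sum_congr rfl fun θ hθ => ?_
    rw [Finset.mem_filter] at hθ
    rw [hθ.2]
  have hsplitW : S = (∑ p ∈ Pos, Wp p) + ∑ θ ∈ V.filter (fun θ => ¬ G θ), W θ := by
    rw [← hfibR, hSdef]
    exact (Finset.sum_filter_add_sum_filter_not V G W).symm
  clear_value S
  have hdiff : expec (tot m M Φ L) 0 B - (w : ℂ) * (∑ p ∈ Pos, e p) * (S : ℂ) =
      (∑ p ∈ Pos, e p * ((Wp p - w * S : ℝ) : ℂ)) +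
      ∑ θ ∈ V.filter (fun θ => ¬ G θ), expec (glob m M Φ θ) 0 B := by
    rw [hexp, ← Finset.sum_filter_add_sum_filter_not V G, hgoodsum]
    have h1 : (∑ p ∈ Pos, e p * ((Wp p - w * S : ℝ) : ℂ)) =
        (∑ p ∈ Pos, e p * (Wp p : ℂ)) - (w : ℂ) * (∑ p ∈ Pos, e p) * (S : ℂ) := by
      rw [Finset.mul_sum, Finset.sum_mul, ← Finset.sum_sub_distrib]
      refine Finset.sum_congr rfl fun p _ => ?_
      push_cast
      ring
    rw [h1]
    ring
  have hbound : ‖expec (tot m M Φ L) 0 B - (w : ℂ) * (∑ p ∈ Pos, e p) * (S : ℂ)‖ ≤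
      S * (1 - w * Pos.card) := by
    rw [hdiff]
    have b1 : ‖∑ p ∈ Pos, e p * ((Wp p - w * S : ℝ) : ℂ)‖ ≤ ∑ p ∈ Pos, (Wp p - w * S) := by
      refine (norm_sum_le _ _).trans (Finset.sum_le_sum fun p hp => ?_)
      have h0 : 0 ≤ Wp p - w * S := by linarith [hweights p hp]
      rw [norm_mul, Complex.norm_real, Real.norm_eq_abs, abs_of_nonneg h0]
      exact mul_le_of_le_one_left h0 (he1 p hp)
    have b2 : ‖∑ θ ∈ V.filter (fun θ => ¬ G θ), expec (glob m M Φ θ) 0 B‖ ≤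
        ∑ θ ∈ V.filter (fun θ => ¬ G θ), W θ :=
      (norm_sum_le _ _).trans (Finset.sum_le_sum hbad)
    refine (norm_add_le _ _).trans ((add_le_add b1 b2).trans (le_of_eq ?_))
    rw [Finset.sum_sub_distrib, Finset.sum_const, nsmul_eq_mul]
    linarith [hsplitW]
  have hS0 : (S : ℂ) ≠ 0 := by exact_mod_cast hSpos.ne'
  have heq : expec (tot m M Φ L) 0 B / (nrm (tot m M Φ L) : ℂ) - (w : ℂ) * ∑ p ∈ Pos, e p =
      (expec (tot m M Φ L) 0 B - (w : ℂ) * (∑ p ∈ Pos, e p) * (S : ℂ)) / (S : ℂ) := by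
    rw [hnrm, sub_div, mul_div_cancel_right₀ _ hS0]
  rw [heq, norm_div]
  have h5 : ‖(S : ℂ)‖ = S := by
    rw [Complex.norm_real, Real.norm_eq_abs, abs_of_pos hSpos]
  rw [h5, div_le_iff₀ hSpos]
  refine hbound.trans (le_of_eq ?_)
  ring

/-- the average of the bounded quantities `e` over the positions and over the torus -/
theorem avg_pos {m r : ℕ} [NeZero m] (hr : 0 < r) (hrm : r ≤ m) (e : Site m → ℂ)
    (he : ∀ u, ‖e u‖ ≤ 1) (w : ℝ) (hw : w * (m : ℝ) ^ 2 ≤ 1) :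
    ‖(w : ℂ) * (∑ p ∈ PosF r m, e (((p.1 : ℕ) : ZMod m), ((p.2 : ℕ) : ZMod m))) -
      (((m : ℝ) ^ 2 : ℝ) : ℂ)⁻¹ * ∑ u : Site m, e u‖ ≤ 1 - w * (PosF r m).card := by
  have hm0 : (0 : ℝ) < m := by exact_mod_cast Nat.pos_of_ne_zero (NeZero.ne m)
  set P := PosF r m with hP
  set ι : ℕ × ℕ → Site m := fun p => (((p.1 : ℕ) : ZMod m), ((p.2 : ℕ) : ZMod m)) with hι
  have hinj : Set.InjOn ι P := by
    intro p hp q hq hpq
    have h1 := mem_PosF hrm hp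
    have h2 := mem_PosF hrm hq
    rw [hι] at hpq
    simp only [Prod.mk.injEq] at hpq
    have e1 := congrArg ZMod.val hpq.1
    have e2 := congrArg ZMod.val hpq.2
    rw [ZMod.val_cast_of_lt (by omega), ZMod.val_cast_of_lt (by omega)] at e1 e2
    exact Prod.ext e1 e2
  have hsumP : ∑ p ∈ P, e (ι p) = ∑ u ∈ P.image ι, e u := (Finset.sum_image hinj).symm
  have hcardP : (P.image ι).card = P.card := Finset.card_image_of_injOn hinj
  have hsplit : ∑ u : Site m, e u = (∑ u ∈ P.image ι, e u) + ∑ u ∈ (P.image ι)ᶜ, e u :=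
    (Finset.sum_add_sum_compl _ _).symm
  have hcompl : (((P.image ι)ᶜ).card : ℝ) = (m : ℝ) ^ 2 - P.card := by
    have h1 : (P.image ι).card + ((P.image ι)ᶜ).card = m * m := by
      rw [Finset.card_add_card_compl]
      simp [Fintype.card_prod, ZMod.card]
    rw [hcardP] at h1
    have h2 : ((P.card : ℝ) + (((P.image ι)ᶜ).card : ℝ)) = (m : ℝ) * m := by exact_mod_cast h1
    nlinarith
  have hkey : (w : ℂ) * (∑ p ∈ P, e (ι p)) - (((m : ℝ) ^ 2 : ℝ) : ℂ)⁻¹ * ∑ u : Site m, e u =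
      -((((m : ℝ) ^ 2)⁻¹ - w : ℝ) : ℂ) * (∑ u ∈ P.image ι, e u) -
      (((m : ℝ) ^ 2 : ℝ) : ℂ)⁻¹ * ∑ u ∈ (P.image ι)ᶜ, e u := by
    rw [hsplit, hsumP]
    push_cast
    ring
  rw [hkey]
  have hw0 : 0 ≤ ((m : ℝ) ^ 2)⁻¹ - w := by
    rw [sub_nonneg, ← one_div, le_div_iff₀ (by positivity)]
    exact hw
  have b1 : ‖∑ u ∈ P.image ι, e u‖ ≤ P.card := by
    refine (norm_sum_le _ _).trans ((Finset.sum_le_sum fun u _ => he u).trans (le_of_eq ?_))
    rw [Finset.sum_const, nsmul_eq_mul, mul_one, hcardP]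
  have b2 : ‖∑ u ∈ (P.image ι)ᶜ, e u‖ ≤ (m : ℝ) ^ 2 - P.card := by
    refine (norm_sum_le _ _).trans ((Finset.sum_le_sum fun u _ => he u).trans (le_of_eq ?_))
    rw [Finset.sum_const, nsmul_eq_mul, mul_one, hcompl]
  refine (norm_sub_le _ _).trans ?_
  rw [norm_mul, norm_mul, norm_neg, norm_inv, Complex.norm_real, Complex.norm_real,
    Real.norm_eq_abs, Real.norm_eq_abs, abs_of_nonneg hw0, abs_of_pos (by positivity : (0 : ℝ) < (m : ℝ) ^ 2)]
  have hm2 : (0 : ℝ) < (m : ℝ) ^ 2 := by positivity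
  have c1 := mul_le_mul_of_nonneg_left b1 hw0
  have c2 := mul_le_mul_of_nonneg_left b2 (inv_nonneg.2 hm2.le)
  refine (add_le_add c1 c2).trans (le_of_eq ?_)
  field_simp
  ring

/-- The box version. -/
theorem avg_box {d : ℕ} (hd : 2 ≤ d) {r : ℕ} (hr : 0 < r) {ε : ℝ} (hε : 0 < ε) (hε1 : ε ≤ 1)
    (m : ℕ) [NeZero m] (hm : 16 * (r : ℝ) / ε ≤ m) (f : ℕ) (C : Site m → Tensor d f)
    (hC : nrm (pepsN C) ≠ 0) :
    ∃ A : Tensor d (bondG m f ε), ∀ (L : ℕ) [NeZero L], r + (m * ⌈24 / ε⌉₊ + 3) ^ 2 ≤ L →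
      0 < nrm (pepsX A L) ∧ ∀ (B : BConf d r → BConf d r → ℂ), Contr B → ∀ v : Site L,
      ‖expec (pepsX A L) v B / (nrm (pepsX A L) : ℂ) -
        (((m : ℝ) ^ 2 : ℝ) : ℂ)⁻¹ *
          ∑ u : Site m, expec (pepsN C) u B / (nrm (pepsN C) : ℂ)‖ ≤ ε := by
  set M : ℕ := ⌈24 / ε⌉₊ with hM
  obtain ⟨hrm, hM0, hpar⟩ := param_bound2 hr hε hε1 m M hm (Nat.le_ceil _)
  have hm0 : 0 < m := Nat.pos_of_ne_zero (NeZero.ne m)
  have hn0 : 0 < nrm (pepsN C) := lt_of_le_of_ne (nrm_nonneg _) (Ne.symm hC)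
  have hf : 0 < f := f_pos C hC
  let k0 : Fin f := ⟨0, hf⟩
  let y0 : Fin f × Fin f × Fin f × Fin f := (k0, k0, k0, k0)
  set c : ℂ := (((Real.sqrt (nrm (pepsN C)))⁻¹ : ℝ) : ℂ) with hc
  have hcn : ‖c‖ ^ 2 = (nrm (pepsN C))⁻¹ := by
    rw [hc, Complex.norm_real, Real.norm_eq_abs, sq_abs, inv_pow, Real.sq_sqrt hn0.le]
  have hP : pepsN (scaleC c C) = fun s => c * pepsN C s := by
    funext s; exact pepsN_scale c C s
  have hn1 : nrm (pepsN (scaleC c C)) = 1 := by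
    rw [hP, nrm_scale, hcn, inv_mul_cancel₀ hC]
  set Φ : BConf d m → ℂ := fun σ => pepsN (scaleC c C) (glue σ) with hΦ
  have hΦ1 : nrm Φ = 1 := by
    have h := (Pool.Agent.Y155.PE.cut d m 0 (pepsN (scaleC c C)) (0, 0)
      ⟨Nat.zero_le _, Nat.zero_le _⟩ (fun _ _ => 0)).1
    rw [hΦ, h, hn1]
  have hcard : Fintype.card (Lab (m * M + 1) × Lab (m * M + 1) × (Fin f × Fin f × Fin f × Fin f)) =
      bondG m f ε := by
    simp only [Lab, Fintype.card_prod, Fintype.card_fin, bondG]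
    rw [← hM]
    ring
  let e : Fin (bondG m f ε) ≃ Lab (m * M + 1) × Lab (m * M + 1) × (Fin f × Fin f × Fin f × Fin f) :=
    (finCongr hcard.symm).trans (Fintype.equivFin _).symm
  refine ⟨fun s a b c' t => tensG (N := m * M + 1) (wB m M (wI (scaleC c C)) y0) s
    (e a) (e b) (e c') (e t), ?_⟩
  intro L _ hL
  have hL1 : r + 2 * (m * M + 1) + 3 ≤ L := by
    refine le_trans ?_ hL
    nlinarith
  have hL2 : (m * M + 1) ^ 2 ≤ L := by
    refine le_trans ?_ hL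
    nlinarith
  have hmL : m ≤ L := by
    have h2 : m * 1 ≤ m * M := Nat.mul_le_mul_left _ hM0
    omega
  have hpeps : pepsX (fun (s : Fin d) (a b c' t : Fin (bondG m f ε)) =>
      tensG (N := m * M + 1) (wB m M (wI (scaleC c C)) y0) s (e a) (e b) (e c') (e t)) L =
      tot m M Φ L := by
    rw [pepsX_equiv e (tensG (N := m * M + 1) (wB m M (wI (scaleC c C)) y0)) L]
    funext s
    exact collapse2 hmL (scaleC c C) y0 s
  have hPos : ∀ p ∈ PosF r m, p.1 + r ≤ m ∧ p.2 + r ≤ m := fun p hp => mem_PosF hrm hp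
  have key : ∀ B : BConf d r → BConf d r → ℂ, Contr B →
      0 < nrm (tot m M Φ L) ∧
      ‖expec (tot m M Φ L) 0 B / (nrm (tot m M Φ L) : ℂ) - (((m : ℝ) ^ 2 : ℝ) : ℂ)⁻¹ *
          ∑ u : Site m, expec (pepsN C) u B / (nrm (pepsN C) : ℂ)‖ ≤ ε := by
    intro B hBc
    set E : Site m → ℂ := fun u => expec (pepsN C) u B / (nrm (pepsN C) : ℂ) with hE
    have hE1 : ∀ u, ‖E u‖ ≤ 1 := by
      intro u
      rw [hE]
      simp only []
      rw [norm_div, Complex.norm_real, Real.norm_eq_abs, abs_of_pos hn0]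
      exact div_le_one_of_le₀ (Pool.Agent.Y65.PE.bound d m r hrm _ u B hBc) hn0.le
    have he : ∀ p (hp : p ∈ PosF r m), expecBlock Φ p (hPos p hp) B =
        E (((p.1 : ℕ) : ZMod m), ((p.2 : ℕ) : ZMod m)) := by
      intro p hp
      have h1 := (Pool.Agent.Y155.PE.cut d m r (pepsN (scaleC c C)) p (hPos p hp) B).2 hr
      rw [hΦ, h1, hP, expec_scale, hcn, hE]
      simp only []
      push_cast
      rw [div_eq_inv_mul]
    obtain ⟨h1, h2⟩ := main_avg Pool.Agent.Y562.PE.orth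
      Pool.Agent.Y297.PE.factor Pool.Agent.Y65.PE.weights Pool.Agent.Y328.PE.shiftMain
      Pool.Agent.Y794.PE.exist Pool.Agent.Y794.PE.nonzero Pool.Agent.Y65.PE.bound
      hd hm0 hM0 hr hL1 hL2 Φ hΦ1 (PosF r m) hPos B hBc
      (fun p => E (((p.1 : ℕ) : ZMod m), ((p.2 : ℕ) : ZMod m))) he (fun p _ => hE1 _)
    refine ⟨h1, ?_⟩
    set w : ℝ := ((M * (M - 1) : ℕ) : ℝ) / (((m * M + 2) ^ 2 : ℕ) : ℝ) with hw
    have hK : (0 : ℝ) < (((m * M + 2) ^ 2 : ℕ) : ℝ) := by positivity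
    have hwm : w * (m : ℝ) ^ 2 ≤ 1 := by
      rw [hw, div_mul_eq_mul_div, div_le_one hK]
      have h3 : (M * (M - 1)) * m ^ 2 ≤ (m * M + 2) ^ 2 := by
        have h4 : M * (M - 1) ≤ M * M := Nat.mul_le_mul_left _ (Nat.sub_le _ _)
        calc (M * (M - 1)) * m ^ 2 ≤ (M * M) * m ^ 2 := Nat.mul_le_mul_right _ h4
          _ = (m * M) ^ 2 := by ring
          _ ≤ (m * M + 2) ^ 2 := Nat.pow_le_pow_left (by omega) 2
      exact_mod_cast h3
    have h3 := avg_pos hr hrm E hE1 w hwm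
    have h4 : w * ((PosF r m).card : ℝ) =
        ((M * (M - 1) * (PosF r m).card : ℕ) : ℝ) / (((m * M + 2) ^ 2 : ℕ) : ℝ) := by
      rw [hw, Nat.cast_mul (M * (M - 1)) (PosF r m).card]
      ring
    have h5 : 1 - w * ((PosF r m).card : ℝ) ≤ ε / 4 := by
      rw [h4]; linarith
    have h6 := norm_sub_le_norm_sub_add_norm_sub
      (expec (tot m M Φ L) 0 B / (nrm (tot m M Φ L) : ℂ))
      ((w : ℂ) * ∑ p ∈ PosF r m, E (((p.1 : ℕ) : ZMod m), ((p.2 : ℕ) : ZMod m)))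
      ((((m : ℝ) ^ 2 : ℝ) : ℂ)⁻¹ * ∑ u : Site m, E u)
    refine h6.trans ((add_le_add h2 h3).trans ?_)
    linarith
  have hzero : Contr (fun _ _ => 0 : BConf d r → BConf d r → ℂ) := by
    intro f'
    have : nrm (fun _ : BConf d r => (∑ τ : BConf d r, (0 : ℂ) * f' τ)) = 0 := by
      unfold nrm; simp
    rw [this]
    exact nrm_nonneg f'
  refine ⟨?_, ?_⟩
  · rw [hpeps]; exact (key _ hzero).1
  · intro B hBc v
    have h3 := Pool.Agent.Y328.PE.pepsMain d L (Fin (bondG m f ε))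
      (fun (s : Fin d) (a b c' t : Fin (bondG m f ε)) =>
      tensG (N := m * M + 1) (wB m M (wI (scaleC c C)) y0) s (e a) (e b) (e c') (e t)) r v B
    rw [h3, hpeps]
    exact (key B hBc).2

/-- The region version. -/
theorem avg_region (d : ℕ) (hd : 2 ≤ d) (R : Finset (ℤ × ℤ)) :
    ∃ r : ℕ, 0 < r ∧ ∀ ε : ℝ, 0 < ε → ε ≤ 1 → ∀ (m : ℕ) [NeZero m], 16 * (r : ℝ) / ε ≤ m →
      ∀ (f : ℕ) (C : Site m → Tensor d f), nrm (pepsN C) ≠ 0 →
      ∃ A : Tensor d (bondG m f ε), ∀ (L : ℕ) [NeZero L], r + (m * ⌈24 / ε⌉₊ + 3) ^ 2 ≤ L →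
        0 < nrm (pepsX A L) ∧ ∀ (B : (R → Fin d) → (R → Fin d) → ℂ), Contr B → ∀ v : Site L,
        ‖expecR R (pepsX A L) v B / (nrm (pepsX A L) : ℂ) -
          (((m : ℝ) ^ 2 : ℝ) : ℂ)⁻¹ *
            ∑ u : Site m, expecR R (pepsN C) u B / (nrm (pepsN C) : ℂ)‖ ≤ ε := by
  obtain ⟨r, a, hr, hB⟩ := Pool.Agent.Y70.PE.region d R
  refine ⟨r, hr, fun ε hε hε1 m _ hm f C hC => ?_⟩
  obtain ⟨A, hA⟩ := avg_box hd hr hε hε1 m hm f C hC
  have hrm : r ≤ m := (param_bound2 hr hε hε1 m _ hm (Nat.le_ceil _)).1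
  refine ⟨A, fun L _ hL => ?_⟩
  obtain ⟨h1, h2⟩ := hA L hL
  refine ⟨h1, fun B hBc v => ?_⟩
  obtain ⟨B', hB', hBB⟩ := hB B hBc
  have hrL : r ≤ L := by omega
  have h3 := h2 B' hB' (v.1 + (a.1 : ZMod L), v.2 + (a.2 : ZMod L))
  rw [← hBB L hrL (pepsX A L) v] at h3
  have h4 : ∑ u : Site m, expecR R (pepsN C) u B / (nrm (pepsN C) : ℂ) =
      ∑ u : Site m, expec (pepsN C) u B' / (nrm (pepsN C) : ℂ) := by
    have e1 : ∀ u : Site m, expecR R (pepsN C) u B / (nrm (pepsN C) : ℂ) =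
        expec (pepsN C) (u + ((a.1 : ZMod m), (a.2 : ZMod m))) B' / (nrm (pepsN C) : ℂ) := by
      intro u
      rw [hBB m hrm (pepsN C) u]
      rfl
    rw [Finset.sum_congr rfl fun u _ => e1 u]
    exact Fintype.sum_equiv (Equiv.addRight ((a.1 : ZMod m), (a.2 : ZMod m))) _ _ fun u => rfl
  rw [h4]
  exact h3

end Pool.Agent.K3h59.PE
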