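import Mathlib
import Pool.Agent.Y665.PE.G1

set_option autoImplicit false
set_option linter.unusedSectionVars false

open scoped BigOperators Topology
open Finset Filter
open Pool.Agent.H4R2 Pool.Agent.Y665.PE

/-!
# Reduced states at size `L` and limit states: distance `C / L`
-/

namespace Pool.Agent.K3h59.PE

/-- transfer with blocks of any side -/
theorem block_transfer {d : ℕ} (hd : 2 ≤ d) (R : Finset (ℤ × ℤ)) (M L L' : ℕ) [NeZero L]
    [NeZero L'] (hM1 : 2 * R.card + 2 ≤ M) (hM2 : 2 * rad R + 2 ≤ M) (hML : M ≤ L)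
    (hL' : (M + 2) * (M + 2) + (M + 3) * R.card + 1 ≤ L')
    (ψ : (Site L → Fin d) → ℂ) (hψ : normSq ψ = 1) (hT : TransInv ψ) :
    ∃ φ : (Site L' → Fin d) → ℂ, normSq φ = 1 ∧ TransInv φ ∧
      ∀ a b, ‖redState R φ a b - redState R ψ a b‖ ≤ 8 * ((rad R : ℝ) + 2) / (M + 3) := by
  classical
  have : NeZero M := ⟨by omega⟩
  let x : R → ℤ × ℤ := fun y => y
  have hr : ∀ i, |(x i).1| ≤ (rad R : ℕ) ∧ |(x i).2| ≤ (rad R : ℕ) := by
    intro i
    have h1 : max (x i).1.natAbs (x i).2.natAbs ≤ rad R :=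
      Finset.le_sup (f := fun x : ℤ × ℤ => max x.1.natAbs x.2.natAbs) i.2
    constructor
    · rw [Int.abs_eq_natAbs]; exact_mod_cast (le_max_left _ _).trans h1
    · rw [Int.abs_eq_natAbs]; exact_mod_cast (le_max_right _ _).trans h1
  obtain ⟨Φ, hΦ, hΦ2⟩ := exists_block hd ψ hψ x (rad R) hr
    (by rw [Fintype.card_coe]; exact hM1) hM2 hML
    (fun u a b => rdm_shift ψ hψ hT (fun i => toTorus L (x i)) u a b)
  obtain ⟨h1, h2⟩ := block_main (L := L') hd Φ hΦ x (rad R) hr (Finset.Ico (rad R) (M - 1 - rad R))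
    (fun k hk => by rw [Finset.mem_Ico] at hk; omega)
    (by rw [Finset.nonempty_Ico]; omega) (by nlinarith)
    (by rw [Fintype.card_coe]; nlinarith)
  have hent : ∀ a b, ‖redState R (contract (tens hd Φ) L') a b - redState R ψ a b‖ ≤
      8 * ((rad R : ℝ) + 2) / (M + 3) := by
    intro a b
    have h3 := h2 a b
    rw [hΦ2 a b] at h3
    unfold redState
    simp only [Matrix.smul_apply, smul_eq_mul]
    rw [hψ]
    simp only [Complex.ofReal_one, inv_one, one_mul]
    refine h3.trans (le_of_eq ?_)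
    rw [Nat.card_Ico]
    have h4 : ((M - 1 - rad R - rad R : ℕ) : ℝ) = (M : ℝ) - 1 - rad R - rad R := by
      rw [Nat.cast_sub (by omega), Nat.cast_sub (by omega), Nat.cast_sub (by omega)]
      simp
    rw [h4]
    have hM0 : (0 : ℝ) < (M : ℝ) + 3 := by positivity
    field_simp
    ring
  set N := normSq (contract (tens hd Φ) L') with hN
  have hs : 0 < Real.sqrt N := Real.sqrt_pos.mpr h1
  set c : ℂ := (((Real.sqrt N)⁻¹ : ℝ) : ℂ) with hc
  have hcn : ‖c‖ = (Real.sqrt N)⁻¹ := by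
    rw [hc, Complex.norm_real, Real.norm_of_nonneg (by positivity)]
  have hc0 : c ≠ 0 := by
    rw [← norm_ne_zero_iff, hcn]; positivity
  refine ⟨c • contract (tens hd Φ) L', ?_, ?_, ?_⟩
  · rw [normSq_smul, hcn, ← hN, inv_pow, Real.sq_sqrt h1.le]
    field_simp
  · apply transInv_smul
    intro u
    refine ⟨1, ?_⟩
    rw [one_smul]
    funext s
    exact contract_shift _ u s
  · intro a b
    rw [redState_smul R c hc0]
    exact hent a b

/-- the reduced states of the translation invariant vectors on the torus of side `L` are within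
`C / L` of the limit states -/
theorem near_limit {d : ℕ} (hd : 2 ≤ d) (R : Finset (ℤ × ℤ)) (L : ℕ) [NeZero L]
    (hM1 : 2 * R.card + 2 ≤ L) (hM2 : 2 * rad R + 2 ≤ L)
    (ψ : (Site L → Fin d) → ℂ) (hψ : normSq ψ = 1) (hT : TransInv ψ) :
    ∃ ρ ∈ limStates d R, ∀ a b, ‖redState R ψ a b - ρ a b‖ ≤ 8 * ((rad R : ℝ) + 2) / (L + 3) := by
  classical
  set L₀ := (L + 2) * (L + 2) + (L + 3) * R.card + 1 with hL0
  have hex : ∀ (L' : ℕ), ∃ φ : (Site L' → Fin d) → ℂ, (∀ [NeZero L'], L₀ ≤ L' →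
      normSq φ = 1 ∧ TransInv φ ∧ ∀ a b, ‖redState R φ a b - redState R ψ a b‖ ≤
        8 * ((rad R : ℝ) + 2) / (L + 3)) := by
    intro L'
    by_cases h0 : L' = 0
    · exact ⟨0, fun hne => absurd h0 (NeZero.ne L')⟩
    · have : NeZero L' := ⟨h0⟩
      by_cases h4 : L₀ ≤ L'
      · obtain ⟨φ, h5, h6, h7⟩ := block_transfer hd R L L L' hM1 hM2 le_rfl h4 ψ hψ hT
        exact ⟨φ, fun _ => ⟨h5, h6, h7⟩⟩
      · exact ⟨0, fun h => absurd h h4⟩
  choose φ hφ using hex
  obtain ⟨σ, hσ⟩ := exists_cluster R (fun (L' : ℕ) [NeZero L'] => φ L') L₀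
    (fun L' _ h4 => (hφ L' h4).1)
  have hσ2 : σ ∈ limStates d R := cluster_lim hd R (fun (L' : ℕ) [NeZero L'] => φ L') L₀
    (fun L' _ h4 => ⟨(hφ L' h4).1, (hφ L' h4).2.1⟩) hσ
  refine ⟨σ, hσ2, fun a b => ?_⟩
  apply le_of_forall_pos_le_add
  intro ε hε
  obtain ⟨L', _, h4, h5⟩ := hσ ε hε L₀
  have h6 := (hφ L' h4).2.2 a b
  have h7 : redState R ψ a b - σ a b = (redState R (φ L') a b - σ a b) -
      (redState R (φ L') a b - redState R ψ a b) := by ring
  rw [h7]
  refine (norm_sub_le _ _).trans ?_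
  linarith [h5 a b]

end Pool.Agent.K3h59.PE
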