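import Mathlib
import Pool.Agent.Y665.PE.G1

set_option autoImplicit false
set_option linter.unusedSectionVars false

open scoped BigOperators Topology
open Finset Filter
open Pool.Agent.H4R2 Pool.Agent.Y665.PE

/-!
# The ground energy on a small torus is at most the energy density on a large torus, up to the boundary
-/

namespace Pool.Agent.K3h59.PE

variable {d : ℕ}

/-- the `m × m` torus, cut open, inside the `L × L` torus -/
def emb (m L : ℕ) (y : Site m) : Site L := ((y.1.val : ZMod L), (y.2.val : ZMod L))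

lemma emb_injective {m L : ℕ} [NeZero m] [NeZero L] (h : m ≤ L) :
    Function.Injective (emb m L) := by
  rintro ⟨a, b⟩ ⟨a', b'⟩ hab
  unfold emb at hab
  simp only [Prod.mk.injEq] at hab
  have key : ∀ u v : ZMod m, ((u.val : ℕ) : ZMod L) = ((v.val : ℕ) : ZMod L) → u = v := by
    intro u v huv
    have h1 := congrArg ZMod.val huv
    rw [ZMod.val_cast_of_lt (lt_of_lt_of_le (ZMod.val_lt u) h),
      ZMod.val_cast_of_lt (lt_of_lt_of_le (ZMod.val_lt v) h)] at h1
    exact ZMod.val_injective m h1
  exact Prod.ext (key _ _ hab.1) (key _ _ hab.2)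

/-- splitting of the sites of the large torus -/
noncomputable def spl {m L : ℕ} [NeZero m] [NeZero L] (h : m ≤ L) :
    Site L ≃ {v : Site L // ¬ v ∈ Set.range (emb m L)} ⊕ Site m := by
  classical
  exact ((Equiv.sumCompl (fun v => v ∈ Set.range (emb m L))).symm.trans (Equiv.sumComm _ _)).trans
    (Equiv.sumCongr (Equiv.refl _) (Equiv.ofInjective _ (emb_injective h)).symm)

lemma spl_symm {m L : ℕ} [NeZero m] [NeZero L] (h : m ≤ L) (y : Site m) :
    (spl h).symm (Sum.inr y) = emb m L y := by
  classical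
  simp [spl]

lemma emb_add {m L : ℕ} [NeZero m] [NeZero L] (r : ℕ) (x : ℤ × ℤ)
    (hx : |x.1| ≤ (r : ℤ) ∧ |x.2| ≤ (r : ℤ)) (u : Site m)
    (hu : (r ≤ u.1.val ∧ u.1.val + r < m) ∧ (r ≤ u.2.val ∧ u.2.val + r < m)) :
    emb m L (toTorus m x + u) = toTorus L x + emb m L u := by
  have key : ∀ (z : ℤ) (w : ZMod m), |z| ≤ (r : ℤ) → r ≤ w.val → w.val + r < m →
      ((((z : ZMod m) + w).val : ℕ) : ZMod L) = (z : ZMod L) + ((w.val : ℕ) : ZMod L) := by
    intro z w hz h1 h2
    rw [abs_le] at hz
    obtain ⟨k, hk⟩ : ∃ k : ℕ, (k : ℤ) = z + w.val := ⟨(z + w.val).toNat, by omega⟩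
    have h3 : (z : ZMod m) + w = ((k : ℕ) : ZMod m) := by
      have h4 : ((k : ℤ) : ZMod m) = ((z + w.val : ℤ) : ZMod m) := by rw [hk]
      rw [Int.cast_natCast] at h4
      rw [h4]
      push_cast
      rw [ZMod.natCast_val, ZMod.cast_id', id]
    rw [h3, ZMod.val_cast_of_lt (by omega)]
    have h5 : ((k : ℤ) : ZMod L) = ((z + w.val : ℤ) : ZMod L) := by rw [hk]
    rw [Int.cast_natCast] at h5
    rw [h5]
    push_cast
    rfl
  unfold emb toTorus
  exact Prod.ext (key x.1 u.1 hx.1 hu.1.1 hu.1.2) (key x.2 u.2 hx.2 hu.2.1 hu.2.2)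

/-- the sites at distance less than `r` from the boundary -/
def bdry (m r : ℕ) [NeZero m] : Finset (Site m) :=
  univ.filter fun u => ¬ ((r ≤ u.1.val ∧ u.1.val + r < m) ∧ (r ≤ u.2.val ∧ u.2.val + r < m))

lemma card_one (m r : ℕ) [NeZero m] :
    (univ.filter fun z : ZMod m => ¬ (r ≤ z.val ∧ z.val + r < m)).card ≤ 2 * r := by
  classical
  have h1 : (univ.filter fun z : ZMod m => ¬ (r ≤ z.val ∧ z.val + r < m)).image ZMod.val ⊆
      Finset.range r ∪ Finset.Ico (m - r) m := by
    intro k hk
    rw [Finset.mem_image] at hk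
    obtain ⟨z, hz, rfl⟩ := hk
    rw [Finset.mem_filter] at hz
    have hlt := ZMod.val_lt z
    rw [Finset.mem_union, Finset.mem_range, Finset.mem_Ico]
    by_cases h : z.val < r
    · exact Or.inl h
    · right
      refine ⟨?_, hlt⟩
      by_contra hc
      exact hz.2 ⟨by omega, by omega⟩
  have h2 := Finset.card_le_card h1
  rw [Finset.card_image_of_injective _ (ZMod.val_injective m)] at h2
  refine h2.trans ((Finset.card_union_le _ _).trans ?_)
  rw [Finset.card_range, Nat.card_Ico]
  omega

lemma card_bdry (m r : ℕ) [NeZero m] : (bdry m r).card ≤ 4 * r * m := by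
  classical
  set P : Finset (ZMod m) := univ.filter fun z : ZMod m => ¬ (r ≤ z.val ∧ z.val + r < m) with hP
  have h1 : bdry m r ⊆ (P ×ˢ univ) ∪ (univ ×ˢ P) := by
    intro u hu
    unfold bdry at hu
    rw [Finset.mem_filter] at hu
    rw [Finset.mem_union, Finset.mem_product, Finset.mem_product]
    by_cases h : r ≤ u.1.val ∧ u.1.val + r < m
    · right
      refine ⟨mem_univ _, ?_⟩
      rw [hP, Finset.mem_filter]
      exact ⟨mem_univ _, fun h2 => hu.2 ⟨h, h2⟩⟩
    · left
      refine ⟨?_, mem_univ _⟩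
      rw [hP, Finset.mem_filter]
      exact ⟨mem_univ _, h⟩
  refine (Finset.card_le_card h1).trans ((Finset.card_union_le _ _).trans ?_)
  rw [Finset.card_product, Finset.card_product, Finset.card_univ, ZMod.card]
  have := card_one m r
  rw [← hP] at this
  nlinarith

/-- **Restriction to a block.** -/
theorem restr_energy {L m : ℕ} [NeZero m] [NeZero L] (R : Finset (ℤ × ℤ)) (hmL : m ≤ L)
    {h : Matrix (R → Fin d) (R → Fin d) ℂ} {ψ : (Site m → Fin d) → ℂ} (hψ : normSq ψ = 1)
    (hψT : TransInv ψ) (hg : IsGround (ham R h m) ψ) {φ : (Site L → Fin d) → ℂ}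
    (hφ : normSq φ = 1) (hφT : TransInv φ) :
    (pair h (redState R ψ)).re ≤ (pair h (redState R φ)).re + 8 * rad R * size h / m := by
  classical
  obtain ⟨E, h1, h2⟩ := hg
  have hm0 : (0 : ℝ) < m := by exact_mod_cast Nat.pos_of_ne_zero (NeZero.ne m)
  have h4 : qf (ham R h m) ψ = (E : ℂ) := by
    unfold qf
    rw [h1, ip_smul_right, ip_self, hψ]
    simp
  rw [qf_ham R h ψ hψ hψT] at h4
  have hE : E = (m : ℝ) ^ 2 * (pair h (redState R ψ)).re := by
    have h6 : ∀ z : ℂ, (((m : ℂ) ^ 2) * z).re = (m : ℝ) ^ 2 * z.re := by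
      intro z
      have : ((m : ℂ) ^ 2) = (((m : ℝ) ^ 2 : ℝ) : ℂ) := by push_cast; rfl
      rw [this, Complex.re_ofReal_mul]
    have h7 := congrArg Complex.re h4
    rw [h6, Complex.ofReal_re] at h7
    exact h7.symm
  set e := spl hmL with he
  set φn : ({v : Site L // ¬ v ∈ Set.range (emb m L)} → Fin d) → (Site m → Fin d) → ℂ :=
    fun n σ => φ (glue1 e n σ) with hφn
  have hsum : ∑ n, normSq (φn n) = 1 := by
    rw [hφn, ← normSq_split e φ, hφ]
  set p : ℝ := (pair h (redState R φ)).re with hp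
  have hpair : ∀ j : R → Site L, ‖∑ a, ∑ b, h a b * rdm j φ b a‖ ≤ size h := by
    intro j
    refine (norm_sum_le _ _).trans (Finset.sum_le_sum fun a _ => ?_)
    refine (norm_sum_le _ _).trans (Finset.sum_le_sum fun b _ => ?_)
    rw [norm_mul]
    have := rdm_bound j φ b a
    rw [hφ] at this
    exact mul_le_of_le_one_right (norm_nonneg _) this
  have hredpair : pair h (redState R φ) = ∑ a, ∑ b, h a b * rdm (fun x : R => toTorus L x) φ b a := by
    unfold pair redState
    rw [hφ]
    simp
  have hterm : ∀ u : Site m, ∑ n, qf (term R h m u) (φn n) =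
      ∑ a, ∑ b, h a b * rdm (fun x : R => emb m L (toTorus m x + u)) φ b a := by
    intro u
    have e1 : ∀ n, qf (term R h m u) (φn n) =
        ∑ a, ∑ b, h a b * rdm (fun x : R => toTorus m x + u) (φn n) b a := fun n => qf_term R h u _
    rw [Finset.sum_congr rfl (fun n _ => e1 n), Finset.sum_comm]
    refine Finset.sum_congr rfl fun a _ => ?_
    rw [Finset.sum_comm]
    refine Finset.sum_congr rfl fun b _ => ?_
    rw [← Finset.mul_sum]
    congr 1
    have e2 := rdm_split e (fun x : R => toTorus m x + u) φ b a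
    have e3 : (fun x : R => e.symm (Sum.inr (toTorus m (x : ℤ × ℤ) + u))) =
        fun x : R => emb m L (toTorus m x + u) := by
      funext x
      exact spl_symm hmL _
    rw [e3] at e2
    rw [e2]
  have hgood : ∀ u : Site m, u ∉ bdry m (rad R) →
      ∑ n, qf (term R h m u) (φn n) = pair h (redState R φ) := by
    intro u hu
    rw [hterm u, hredpair]
    refine Finset.sum_congr rfl fun a _ => Finset.sum_congr rfl fun b _ => ?_
    congr 1
    have hu' : (rad R ≤ u.1.val ∧ u.1.val + rad R < m) ∧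
        (rad R ≤ u.2.val ∧ u.2.val + rad R < m) := by
      by_contra hc
      exact hu (by unfold bdry; rw [Finset.mem_filter]; exact ⟨mem_univ _, hc⟩)
    have e1 : (fun x : R => emb m L (toTorus m (x : ℤ × ℤ) + u)) =
        fun x : R => toTorus L x + emb m L u := by
      funext x
      have h1 : max (x : ℤ × ℤ).1.natAbs (x : ℤ × ℤ).2.natAbs ≤ rad R :=
        Finset.le_sup (f := fun x : ℤ × ℤ => max x.1.natAbs x.2.natAbs) x.2
      exact emb_add (rad R) x ⟨by rw [Int.abs_eq_natAbs]; exact_mod_cast (le_max_left _ _).trans h1,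
        by rw [Int.abs_eq_natAbs]; exact_mod_cast (le_max_right _ _).trans h1⟩ u hu'
    rw [e1]
    exact rdm_shift φ hφ hφT _ _ b a
  have hall : E ≤ (∑ u : Site m, ∑ n, qf (term R h m u) (φn n)).re := by
    have e1 : (∑ u : Site m, ∑ n, qf (term R h m u) (φn n)) = ∑ n, qf (ham R h m) (φn n) := by
      rw [Finset.sum_comm]
      refine Finset.sum_congr rfl fun n _ => ?_
      unfold ham
      rw [qf_sum]
    rw [e1, Complex.re_sum]
    calc E = ∑ n, E * normSq (φn n) := by rw [← Finset.mul_sum, hsum, mul_one]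
      _ ≤ _ := Finset.sum_le_sum fun n _ => h2 (φn n)
  have hbound : (∑ u : Site m, ∑ n, qf (term R h m u) (φn n)).re ≤
      (m : ℝ) ^ 2 * p + 2 * size h * (4 * rad R * m) := by
    rw [Complex.re_sum]
    have hps : |p| ≤ size h := by
      rw [hp, hredpair]
      exact (Complex.abs_re_le_norm _).trans (hpair _)
    have e1 : ∀ u : Site m, (∑ n, qf (term R h m u) (φn n)).re ≤
        p + (if u ∈ bdry m (rad R) then 2 * size h else 0) := by
      intro u
      by_cases hu : u ∈ bdry m (rad R)
      · rw [if_pos hu, hterm u]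
        have h5 := (Complex.re_le_norm _).trans (hpair (fun x : R => emb m L (toTorus m x + u)))
        have := (abs_le.mp hps).1
        linarith
      · rw [if_neg hu, hgood u hu, add_zero]
    refine (Finset.sum_le_sum fun u _ => e1 u).trans ?_
    rw [Finset.sum_add_distrib, Finset.sum_const, Finset.card_univ, Fintype.card_prod, ZMod.card,
      ← Finset.sum_filter, Finset.sum_const, nsmul_eq_mul, nsmul_eq_mul]
    have e2 : (univ.filter fun u : Site m => u ∈ bdry m (rad R)) = bdry m (rad R) := by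
      ext u; simp
    rw [e2]
    have e3 : ((bdry m (rad R)).card : ℝ) ≤ 4 * rad R * m := by exact_mod_cast card_bdry m (rad R)
    have e4 := size_nonneg h
    have e5 : ((bdry m (rad R)).card : ℝ) * (2 * size h) ≤ 2 * size h * (4 * rad R * m) := by
      rw [mul_comm]
      exact mul_le_mul_of_nonneg_left e3 (by linarith)
    push_cast
    nlinarith
  have hfin : (m : ℝ) ^ 2 * (pair h (redState R ψ)).re ≤
      (m : ℝ) ^ 2 * p + 2 * size h * (4 * rad R * m) := by
    rw [← hE]; exact hall.trans hbound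
  have h8 : (m : ℝ) ^ 2 * (p + 8 * rad R * size h / m) =
      (m : ℝ) ^ 2 * p + 2 * size h * (4 * rad R * m) := by
    field_simp
    ring
  rw [← h8] at hfin
  exact le_of_mul_le_mul_left hfin (by positivity)

end Pool.Agent.K3h59.PE
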