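import Mathlib
import Pool.Agent.K3h59.PE.Near
import Pool.Agent.K3h59.PE.Restr

set_option autoImplicit false
set_option linter.unusedSectionVars false

open scoped BigOperators Topology
open Finset Filter
open Pool.Agent.H4R2 Pool.Agent.Y665.PE

/-!
# A quadratic lower bound for the energy density controls the local states
-/

namespace Pool.Agent.K3h59.PE

variable {d : ℕ}

lemma size_herm_add (R : Finset (ℤ × ℤ)) (x v : (R → Fin d) → (R → Fin d) → ℝ) (T δ : ℝ)
    (hT : 0 ≤ T) (hTδ : T ≤ δ) :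
    size (herm (x + T • v)) ≤ size (herm x) + δ * size (herm v) := by
  rw [herm_lin]
  exact size_add_le _ _ _ _ hT hTδ

/-- the energy density is at most the energy per site of any translation invariant vector, up to
`C / m` -/
lemma low_le_lin (hd : 2 ≤ d) (R : Finset (ℤ × ℤ)) (m : ℕ) [NeZero m]
    (hM1 : 2 * R.card + 2 ≤ m) (hM2 : 2 * rad R + 2 ≤ m)
    (φ : (Site m → Fin d) → ℂ) (hφ : normSq φ = 1) (hT : TransInv φ)
    (x : (R → Fin d) → (R → Fin d) → ℝ) :
    low (limStates d R) x ≤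
      lin (redState R φ) x + size (herm x) * (8 * ((rad R : ℝ) + 2)) * (1 / m) := by
  obtain ⟨ρ, hρ, h1⟩ := near_limit hd R m hM1 hM2 φ hφ hT
  have hm0 : (0 : ℝ) < m := by exact_mod_cast Nat.pos_of_ne_zero (NeZero.ne m)
  have h2 := low_le (limStates_bound R) x hρ
  have h3 := abs_le.mp (pair_le (herm x) _ _ _ h1)
  have h4 : (∑ a, ∑ b, ‖herm x a b‖) = size (herm x) := rfl
  rw [h4] at h3
  rw [lin_apply] at h2 ⊢
  have h5 : 8 * ((rad R : ℝ) + 2) / (m + 3) ≤ 8 * ((rad R : ℝ) + 2) * (1 / m) := by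
    rw [mul_one_div]
    exact div_le_div_of_nonneg_left (by positivity) hm0 (by linarith)
  have h6 := mul_le_mul_of_nonneg_left h5 (size_nonneg (herm x))
  have h7 : size (herm x) * (8 * ((rad R : ℝ) + 2)) * (1 / m) =
      size (herm x) * (8 * ((rad R : ℝ) + 2) * (1 / m)) := by ring
  rw [h7]
  linarith [h3.1]

/-- the ground energy per site exceeds the energy density by at most `C / m` -/
lemma ground_le_low (hd : 2 ≤ d) (R : Finset (ℤ × ℤ)) (m : ℕ) [NeZero m]
    (ψ : (Site m → Fin d) → ℂ) (hψ : normSq ψ = 1) (hT : TransInv ψ)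
    (x : (R → Fin d) → (R → Fin d) → ℝ) (hg : IsGround (ham R (herm x) m) ψ) :
    lin (redState R ψ) x ≤
      low (limStates d R) x + 8 * rad R * size (herm x) * (1 / m) := by
  rw [← sub_le_iff_le_add]
  unfold low
  apply le_csInf ((limStates_nonempty hd R).image _)
  rintro _ ⟨ρ, hρ, rfl⟩
  simp only []
  apply le_of_forall_pos_le_add
  intro ε hε
  obtain ⟨L₀, hL₀⟩ := hρ (ε / (size (herm x) + 1)) (div_pos hε (by
    have := size_nonneg (herm x); linarith))
  set L := max L₀ m with hL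
  have hm0 : m ≠ 0 := NeZero.ne m
  have : NeZero L := ⟨by omega⟩
  obtain ⟨φ, h1, h2, h3⟩ := hL₀ L (le_max_left _ _)
  have h4 := restr_energy R (le_max_right L₀ m) hψ hT hg h1 h2
  have h5 := abs_le.mp (pair_le (herm x) _ _ _ h3)
  have h6 : (∑ a, ∑ b, ‖herm x a b‖) = size (herm x) := rfl
  rw [h6] at h5
  have hs := size_nonneg (herm x)
  have h7 : size (herm x) * (ε / (size (herm x) + 1)) ≤ ε := by
    rw [mul_div_assoc', div_le_iff₀ (by linarith)]
    nlinarith
  have h8 : 8 * (rad R : ℝ) * size (herm x) * (1 / m) = 8 * rad R * size (herm x) / m := by ring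
  rw [lin_apply, lin_apply, h8]
  linarith [h5.1, h5.2]

/-- The energy density has a quadratic lower bound at `x` with slope `ρ` in every direction. -/
def QB (R : Finset (ℤ × ℤ)) (x : (R → Fin d) → (R → Fin d) → ℝ)
    (ρ : Matrix (R → Fin d) (R → Fin d) ℂ) : Prop :=
  ∀ v : (R → Fin d) → (R → Fin d) → ℝ, ∃ δ : ℝ, 0 < δ ∧ ∃ K : ℝ, ∀ T : ℝ, 0 < T → T ≤ δ →
    low (limStates d R) x + T * lin ρ v - K * T ^ 2 ≤ low (limStates d R) (x + T • v)

lemma lin_redState_le (R : Finset (ℤ × ℤ)) {m : ℕ} [NeZero m] (φ : (Site m → Fin d) → ℂ)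
    (hφ : normSq φ = 1) (v : (R → Fin d) → (R → Fin d) → ℝ) :
    |lin (redState R φ) v| ≤ size (herm v) := by
  rw [lin_apply]
  refine (Complex.abs_re_le_norm _).trans ?_
  unfold pair size
  refine (norm_sum_le _ _).trans (Finset.sum_le_sum fun a _ => ?_)
  refine (norm_sum_le _ _).trans (Finset.sum_le_sum fun b _ => ?_)
  rw [norm_mul]
  exact mul_le_of_le_one_right (norm_nonneg _) (redState_bound R φ hφ b a)

/-- one direction -/
lemma dir_bound (hd : 2 ≤ d) (R : Finset (ℤ × ℤ)) {x : (R → Fin d) → (R → Fin d) → ℝ}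
    {ρ : Matrix (R → Fin d) (R → Fin d) ℂ} (hQ : QB R x ρ)
    (v : (R → Fin d) → (R → Fin d) → ℝ) :
    ∃ C : ℝ, 0 ≤ C ∧ ∀ (m : ℕ) [NeZero m], 2 * R.card + 2 ≤ m → 2 * rad R + 2 ≤ m →
      ∀ (φ : (Site m → Fin d) → ℂ), normSq φ = 1 → TransInv φ → ∀ η : ℝ, 0 ≤ η →
      lin (redState R φ) x ≤ low (limStates d R) x + η →
      lin ρ v - lin (redState R φ) v ≤ C * Real.sqrt (η + 1 / m) := by
  obtain ⟨δ, hδ, K, hK⟩ := hQ v
  set s₁ := size (herm x) + δ * size (herm v) with hs₁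
  have hs0 : 0 ≤ s₁ := add_nonneg (size_nonneg _) (mul_nonneg hδ.le (size_nonneg _))
  set A : ℝ := 1 + |K| + s₁ * (8 * ((rad R : ℝ) + 2)) with hA
  set B : ℝ := |lin ρ v| + size (herm v) with hB
  have hA0 : 0 ≤ A := by rw [hA]; positivity
  have hB0 : 0 ≤ B := add_nonneg (abs_nonneg _) (size_nonneg _)
  refine ⟨A + B / δ, by positivity, ?_⟩
  intro m _ hM1 hM2 φ hφ hT η hη hlow
  have hm0 : (0 : ℝ) < m := by exact_mod_cast Nat.pos_of_ne_zero (NeZero.ne m)
  have hpos : 0 < η + 1 / m := by positivity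
  set t := Real.sqrt (η + 1 / m) with ht
  have ht0 : 0 < t := Real.sqrt_pos.2 hpos
  have ht2 : t ^ 2 = η + 1 / m := Real.sq_sqrt hpos.le
  by_cases h : t ≤ δ
  · have h1 := hK t ht0 h
    have h2 := low_le_lin hd R m hM1 hM2 φ hφ hT (x + t • v)
    have h3 := size_herm_add R x v t δ ht0.le h
    rw [← hs₁] at h3
    have h4 : size (herm (x + t • v)) * (8 * ((rad R : ℝ) + 2)) * (1 / m) ≤
        s₁ * (8 * ((rad R : ℝ) + 2)) * (1 / m) := by
      apply mul_le_mul_of_nonneg_right _ (by positivity)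
      exact mul_le_mul_of_nonneg_right h3 (by positivity)
    have h5 : lin (redState R φ) (x + t • v) =
        lin (redState R φ) x + t * lin (redState R φ) v := by
      rw [map_add, map_smul, smul_eq_mul]
    have h6 : K * t ^ 2 ≤ |K| * t ^ 2 := mul_le_mul_of_nonneg_right (le_abs_self K) (by positivity)
    have h7 : 1 / (m : ℝ) ≤ t ^ 2 := by rw [ht2]; linarith
    have h8 : η ≤ t ^ 2 := by
      rw [ht2]
      have : 0 ≤ 1 / (m : ℝ) := by positivity
      linarith
    have h9 : s₁ * (8 * ((rad R : ℝ) + 2)) * (1 / m) ≤ s₁ * (8 * ((rad R : ℝ) + 2)) * t ^ 2 :=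
      mul_le_mul_of_nonneg_left h7 (by positivity)
    have h10 : t * (lin ρ v - lin (redState R φ) v) ≤ t * (A * t) := by
      have : t * (A * t) = t ^ 2 + |K| * t ^ 2 + s₁ * (8 * ((rad R : ℝ) + 2)) * t ^ 2 := by
        rw [hA]; ring
      rw [this, mul_sub]
      linarith
    have h11 := le_of_mul_le_mul_left h10 ht0
    have h12 : 0 ≤ B / δ * t := by positivity
    rw [add_mul]
    linarith
  · push Not at h
    have h1 := abs_le.mp (lin_redState_le R φ hφ v)
    have h2 : lin ρ v - lin (redState R φ) v ≤ B := by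
      have := le_abs_self (lin ρ v)
      rw [hB]
      linarith [h1.1]
    have h3 : B ≤ B / δ * t := by
      rw [div_mul_eq_mul_div, le_div_iff₀ hδ]
      exact mul_le_mul_of_nonneg_left h.le hB0
    have h4 : 0 ≤ A * t := by positivity
    rw [add_mul]
    linarith

/-- a linear functional is controlled by its values on the coordinate directions -/
lemma lin_coord {n : Type*} [Fintype n] [DecidableEq n] (l : (n → n → ℝ) →ₗ[ℝ] ℝ) (c : n → n → ℝ)
    (hc : ∀ a b, |l (Pi.single a (Pi.single b 1))| ≤ c a b) (v : n → n → ℝ) :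
    |l v| ≤ (∑ a, ∑ b, c a b) * ‖v‖ := by
  have h1 : l v = ∑ a, ∑ b, v a b * l (Pi.single a (Pi.single b 1)) := by
    have e1 : v = ∑ a, ∑ b, v a b • (Pi.single a (Pi.single b 1) : n → n → ℝ) := by
      funext i j
      rw [Finset.sum_apply, Finset.sum_apply, Finset.sum_eq_single i]
      · rw [Finset.sum_apply, Finset.sum_apply, Finset.sum_eq_single j]
        · simp
        · intro b _ hb
          simp [hb.symm]
        · intro hj; exact absurd (mem_univ _) hj
      · intro a _ ha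
        rw [Finset.sum_apply, Finset.sum_apply]
        refine Finset.sum_eq_zero fun b _ => ?_
        simp [ha.symm]
      · intro hi; exact absurd (mem_univ _) hi
    conv_lhs => rw [e1]
    rw [map_sum]
    refine Finset.sum_congr rfl fun a _ => ?_
    rw [map_sum]
    refine Finset.sum_congr rfl fun b _ => ?_
    rw [map_smul, smul_eq_mul]
  rw [h1, Finset.sum_mul]
  refine (Finset.abs_sum_le_sum_abs _ _).trans (Finset.sum_le_sum fun a _ => ?_)
  rw [Finset.sum_mul]
  refine (Finset.abs_sum_le_sum_abs _ _).trans (Finset.sum_le_sum fun b _ => ?_)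
  rw [abs_mul, mul_comm]
  have h2 : |v a b| ≤ ‖v‖ := (norm_le_pi_norm (v a) b).trans (norm_le_pi_norm v a)
  exact mul_le_mul (hc a b) h2 (abs_nonneg _) ((abs_nonneg _).trans (hc a b))

/-- **Main estimate.** A translation invariant vector on the torus of side `m` whose energy per
site is at most the energy density plus `η` has local states within `C √(η + 1/m)` of `ρ`. -/
theorem core (hd : 2 ≤ d) (R : Finset (ℤ × ℤ)) {x : (R → Fin d) → (R → Fin d) → ℝ}
    {ρ : Matrix (R → Fin d) (R → Fin d) ℂ} (hρ : ρ.IsHermitian) (hQ : QB R x ρ) :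
    ∃ C : ℝ, 0 ≤ C ∧ ∀ (m : ℕ) [NeZero m], 2 * R.card + 2 ≤ m → 2 * rad R + 2 ≤ m →
      ∀ (φ : (Site m → Fin d) → ℂ), normSq φ = 1 → TransInv φ → ∀ η : ℝ, 0 ≤ η →
      lin (redState R φ) x ≤ low (limStates d R) x + η →
      ∀ a b, ‖redState R φ a b - ρ a b‖ ≤ C * Real.sqrt (η + 1 / m) := by
  classical
  have h1 : ∀ a b : R → Fin d, ∃ C : ℝ, 0 ≤ C ∧ ∀ (m : ℕ) [NeZero m], 2 * R.card + 2 ≤ m →
      2 * rad R + 2 ≤ m → ∀ (φ : (Site m → Fin d) → ℂ), normSq φ = 1 → TransInv φ →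
      ∀ η : ℝ, 0 ≤ η → lin (redState R φ) x ≤ low (limStates d R) x + η →
      |lin (redState R φ) (Pi.single a (Pi.single b 1)) - lin ρ (Pi.single a (Pi.single b 1))| ≤
        C * Real.sqrt (η + 1 / m) := by
    intro a b
    obtain ⟨C₁, hC₁, k1⟩ := dir_bound hd R hQ (Pi.single a (Pi.single b 1))
    obtain ⟨C₂, hC₂, k2⟩ := dir_bound hd R hQ (-(Pi.single a (Pi.single b 1)))
    refine ⟨C₁ + C₂, add_nonneg hC₁ hC₂, ?_⟩
    intro m _ hM1 hM2 φ hφ hT η hη hlow
    have e1 := k1 m hM1 hM2 φ hφ hT η hη hlow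
    have e2 := k2 m hM1 hM2 φ hφ hT η hη hlow
    rw [map_neg, map_neg] at e2
    have hs := Real.sqrt_nonneg (η + 1 / (m : ℝ))
    have f1 : 0 ≤ C₁ * Real.sqrt (η + 1 / m) := mul_nonneg hC₁ hs
    have f2 : 0 ≤ C₂ * Real.sqrt (η + 1 / m) := mul_nonneg hC₂ hs
    rw [abs_le, add_mul]
    constructor <;> linarith
  choose C hC0 hC using h1
  refine ⟨2 * ∑ a, ∑ b, C a b, ?_, ?_⟩
  · have : 0 ≤ ∑ a, ∑ b, C a b :=
      Finset.sum_nonneg fun a _ => Finset.sum_nonneg fun b _ => hC0 a b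
    linarith
  intro m _ hM1 hM2 φ hφ hT η hη hlow a b
  have hs := Real.sqrt_nonneg (η + 1 / (m : ℝ))
  set S : ℝ := ∑ a, ∑ b, C a b with hS
  have hS0 : 0 ≤ S := Finset.sum_nonneg fun a _ => Finset.sum_nonneg fun b _ => hC0 a b
  have h2 : ∀ v : (R → Fin d) → (R → Fin d) → ℝ,
      |lin (redState R φ) v - lin ρ v| ≤ (S * Real.sqrt (η + 1 / m)) * ‖v‖ := by
    intro v
    have e0 : ∀ a b : R → Fin d, |(lin (redState R φ) - lin ρ) (Pi.single a (Pi.single b 1))| ≤
        C a b * Real.sqrt (η + 1 / m) := fun a b => hC a b m hM1 hM2 φ hφ hT η hη hlow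
    have e1 := lin_coord (lin (redState R φ) - lin ρ)
      (fun a b => C a b * Real.sqrt (η + 1 / m)) e0 v
    have e2 : (∑ a, ∑ b, C a b * Real.sqrt (η + 1 / m)) = S * Real.sqrt (η + 1 / m) := by
      rw [hS, Finset.sum_mul]
      refine Finset.sum_congr rfl fun a _ => ?_
      rw [Finset.sum_mul]
    rw [e2] at e1
    exact e1
  have h3 := entries_of_lin (redState_herm R φ) hρ (mul_nonneg hS0 hs) h2 a b
  refine h3.trans (le_of_eq ?_)
  ring

end Pool.Agent.K3h59.PE
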