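import Mathlib
import Pool.Agent.K3h59.PE.Avg
import Pool.Agent.K3h59.PE.Core

set_option autoImplicit false
set_option linter.unusedSectionVars false

open scoped BigOperators Topology
open Finset Filter
open Pool.Agent.H4R2 Pool.Agent.Y665.PE

/-!
# The averaged reduced state of an arbitrary PEPS
-/

namespace Pool.Agent.K3h59.PE

variable {d : ℕ}

/-- The contraction of a network on the `m × m` torus with the tensor `T x` at the site `x`. The
arguments are the physical index and the left, right, up and down virtual indices. -/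
noncomputable def contractN {K : Type} [Fintype K] {m : ℕ} [NeZero m]
    (T : Site m → Fin d → K → K → K → K → ℂ) : (Site m → Fin d) → ℂ := fun s =>
  ∑ h : Site m → K, ∑ v : Site m → K,
    ∏ x : Site m, T x (s x) (h (x.1 - 1, x.2)) (h x) (v x) (v (x.1, x.2 - 1))

/-- The average over all positions of the reduced density matrices of the normalisation of `P`. -/
noncomputable def avgState {m : ℕ} [NeZero m] (R : Finset (ℤ × ℤ)) (P : (Site m → Fin d) → ℂ) :
    Matrix (R → Fin d) (R → Fin d) ℂ := fun a b =>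
  (((m : ℝ) ^ 2 * normSq P : ℝ) : ℂ)⁻¹ * ∑ u : Site m, rdm (fun x : R => toTorus m x + u) P a b

lemma expecR_unit {L : ℕ} [NeZero L] (R : Finset (ℤ × ℤ)) (Ψ : (Site L → Fin d) → ℂ) (v : Site L)
    (a b : R → Fin d) :
    Pool.Agent.Y738.PE.expecR R Ψ v
      (fun σ τ => if σ = b ∧ τ = a then 1 else 0) =
      rdm (fun x : R => toTorus L x + v) Ψ a b := by
  classical
  unfold Pool.Agent.Y738.PE.expecR
  rw [rdm_apply, Finset.sum_comm]
  refine Finset.sum_congr rfl fun s _ => Finset.sum_congr rfl fun t _ => ?_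
  have hpt : ∀ x : R, toTorus L (x : ℤ × ℤ) + v =
      (v.1 + (((x : ℤ × ℤ).1 : ℤ) : ZMod L), v.2 + (((x : ℤ × ℤ).2 : ℤ) : ZMod L)) := by
    intro x
    unfold toTorus
    exact Prod.ext (add_comm _ _) (add_comm _ _)
  have hres : ∀ (s : Site L → Fin d) (c : R → Fin d), Pool.Agent.Y738.PE.res R s v = c ↔
      ∀ x : R, s (toTorus L x + v) = c x := by
    intro s c
    constructor
    · intro h x
      rw [← h, hpt x]
      rfl
    · intro h
      funext x
      rw [← h x, hpt x]
      rfl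
  have hag : (∀ w : Site L, (∀ p ∈ R, w ≠ (v.1 + (p.1 : ZMod L), v.2 + (p.2 : ZMod L))) →
      t w = s w) ↔ ∀ w, (∀ x : R, toTorus L (x : ℤ × ℤ) + v ≠ w) → s w = t w := by
    constructor
    · intro h w hw
      exact (h w (fun p hp he => hw ⟨p, hp⟩ (by rw [he]; exact hpt ⟨p, hp⟩))).symm
    · intro h w hw
      exact (h w (fun x he => hw x x.2 (by rw [← he]; exact hpt x))).symm
  by_cases hk : Ker (fun x : R => toTorus L (x : ℤ × ℤ) + v) a b s t
  · rw [if_pos hk, if_pos (hag.2 hk.2.2)]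
    dsimp only
    rw [if_pos ⟨(hres t b).2 hk.2.1, (hres s a).2 hk.1⟩]
    ring
  · rw [if_neg hk]
    by_cases hc : ∀ w : Site L, (∀ p ∈ R, w ≠ (v.1 + (p.1 : ZMod L), v.2 + (p.2 : ZMod L))) →
        t w = s w
    · rw [if_pos hc]
      dsimp only
      rw [if_neg]
      · ring
      · rintro ⟨h1, h2⟩
        exact hk ⟨(hres s a).1 h2, (hres t b).1 h1, hag.1 hc⟩
    · rw [if_neg hc]

lemma contr_unit {n : Type} [Fintype n] [DecidableEq n] (a b : n) :
    Pool.Agent.Y738.PE.Contr (fun σ τ : n => if σ = b ∧ τ = a then (1 : ℂ) else 0) := by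
  intro f
  have h1 : (fun σ : n => ∑ τ : n, (if σ = b ∧ τ = a then (1 : ℂ) else 0) * f τ) =
      fun σ => if σ = b then f a else 0 := by
    funext σ
    by_cases h : σ = b
    · simp [h]
    · simp [h]
  rw [h1]
  unfold Pool.Agent.Y738.PE.nrm
  have h2 : ∑ s : n, ‖(if s = b then f a else 0 : ℂ)‖ ^ 2 = ‖f a‖ ^ 2 := by
    rw [Finset.sum_eq_single b]
    · simp
    · intro s _ hs; simp [hs]
    · intro hb; exact absurd (mem_univ _) hb
  rw [h2]
  exact Finset.single_le_sum (f := fun s => ‖f s‖ ^ 2) (fun s _ => by positivity) (mem_univ a)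

/-- **From an arbitrary PEPS at one size to a translation invariant tensor at all sizes.** -/
theorem avg_state (d : ℕ) (hd : 2 ≤ d) (R : Finset (ℤ × ℤ)) :
    ∃ r : ℕ, 0 < r ∧ ∀ ε : ℝ, 0 < ε → ε ≤ 1 → ∀ (m : ℕ) [NeZero m], 16 * (r : ℝ) / ε ≤ m →
      ∀ (f : ℕ) (T : Site m → Tensor d f), contractN T ≠ 0 →
      ∃ A : Tensor d (Pool.Agent.Y738.PE.bondG m f ε), ∀ (L : ℕ) [NeZero L],
        r + (m * ⌈24 / ε⌉₊ + 3) ^ 2 ≤ L → contract A L ≠ 0 ∧
          ∀ a b, ‖redState R (contract A L) a b - avgState R (contractN T) a b‖ ≤ ε := by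
  classical
  obtain ⟨r, hr, hmain⟩ := avg_region d hd R
  refine ⟨r, hr, ?_⟩
  intro ε hε hε1 m _ hm f T hT
  have hm0 : (0 : ℝ) < m := by exact_mod_cast Nat.pos_of_ne_zero (NeZero.ne m)
  set C : Site m → Pool.Agent.Y738.PE.Tensor d f := fun x s l r' dn up => T x s l r' up dn with hC
  have hPN : Pool.Agent.Y738.PE.pepsN C = contractN T := rfl
  have hnz : Pool.Agent.Y738.PE.nrm (Pool.Agent.Y738.PE.pepsN C) ≠ 0 := by
    rw [hPN]
    intro h0
    apply hT
    funext s
    have h1 := (Finset.sum_eq_zero_iff_of_nonneg (fun s _ => by positivity)).1 h0 s (mem_univ s)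
    simpa using h1
  obtain ⟨A, hA⟩ := hmain ε hε hε1 m hm f C hnz
  obtain ⟨A', hA'⟩ : ∃ A' : Tensor d (Pool.Agent.Y738.PE.bondG m f ε),
      A' = fun s l r' up dn => A s l r' dn up := ⟨_, rfl⟩
  refine ⟨A', fun L _ hL => ?_⟩
  have hcon : contract A' L = Pool.Agent.Y738.PE.pepsX A L := by rw [hA']; rfl
  obtain ⟨h1, h2⟩ := hA L hL
  have hpos : 0 < normSq (Pool.Agent.Y738.PE.pepsX A L) := h1
  refine ⟨?_, ?_⟩
  · intro h0
    rw [← hcon, h0] at hpos
    simp [normSq] at hpos
  · intro a b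
    have h3 := h2 (fun σ τ => if σ = b ∧ τ = a then 1 else 0) (contr_unit a b) 0
    rw [expecR_unit] at h3
    have h4 : ∀ u : Site m, Pool.Agent.Y738.PE.expecR R (Pool.Agent.Y738.PE.pepsN C) u
        (fun σ τ => if σ = b ∧ τ = a then 1 else 0) =
        rdm (fun x : R => toTorus m x + u) (contractN T) a b := fun u => expecR_unit R _ u a b
    simp only [h4] at h3
    have h5 : redState R (contract A' L) a b =
        rdm (fun x : R => toTorus L x + 0) (Pool.Agent.Y738.PE.pepsX A L) a b /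
          ((Pool.Agent.Y738.PE.nrm (Pool.Agent.Y738.PE.pepsX A L) : ℝ) : ℂ) := by
      rw [hcon]
      unfold redState
      rw [Matrix.smul_apply, smul_eq_mul, div_eq_inv_mul]
      simp only [add_zero]
      rfl
    have h6 : avgState R (contractN T) a b = (((m : ℝ) ^ 2 : ℝ) : ℂ)⁻¹ *
        ∑ u : Site m, rdm (fun x : R => toTorus m x + u) (contractN T) a b /
          ((Pool.Agent.Y738.PE.nrm (Pool.Agent.Y738.PE.pepsN C) : ℝ) : ℂ) := by
      unfold avgState
      rw [← Finset.sum_div]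
      have e1 : Pool.Agent.Y738.PE.nrm (Pool.Agent.Y738.PE.pepsN C) = normSq (contractN T) := rfl
      rw [e1, Complex.ofReal_mul, mul_inv, mul_assoc, div_eq_inv_mul]
    rw [h5, h6]
    exact h3

/-- the energy of a vector in terms of its averaged reduced state -/
lemma qf_avg {m : ℕ} [NeZero m] (B : Finset (ℤ × ℤ)) (h : Matrix (B → Fin d) (B → Fin d) ℂ)
    (P : (Site m → Fin d) → ℂ) (hP : normSq P ≠ 0) :
    qf (ham B h m) P = (((m : ℝ) ^ 2 * normSq P : ℝ) : ℂ) * pair h (avgState B P) := by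
  have hm0 : (0 : ℝ) < m := by exact_mod_cast Nat.pos_of_ne_zero (NeZero.ne m)
  unfold ham
  rw [qf_sum]
  have h1 : ∀ u : Site m, qf (term B h m u) P =
      ∑ a, ∑ b, h a b * rdm (fun x : B => toTorus m x + u) P b a := fun u => qf_term B h u P
  rw [Finset.sum_congr rfl fun u _ => h1 u]
  unfold pair avgState
  rw [Finset.sum_comm, Finset.mul_sum]
  refine Finset.sum_congr rfl fun a _ => ?_
  rw [Finset.sum_comm, Finset.mul_sum]
  refine Finset.sum_congr rfl fun b _ => ?_
  have h2 : (((m : ℝ) ^ 2 * normSq P : ℝ) : ℂ) ≠ 0 := by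
    have : (m : ℝ) ^ 2 * normSq P ≠ 0 := mul_ne_zero (by positivity) hP
    exact_mod_cast this
  rw [← Finset.mul_sum]
  field_simp

end Pool.Agent.K3h59.PE
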