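import Mathlib
import Pool.Agent.K3h59.PE.Bridge

set_option autoImplicit false
set_option linter.unusedSectionVars false

open scoped BigOperators Topology
open Finset Filter
open Pool.Agent.H4R2 Pool.Agent.Y665.PE

/-!
# The energy criterion from the quadratic lower bound
-/

namespace Pool.Agent.K3h59.PE

variable {d : ℕ}

lemma normSq_pos_of_ne {S : Type*} [Fintype S] {φ : S → ℂ} (h : φ ≠ 0) : 0 < normSq φ := by
  unfold normSq
  obtain ⟨s, hs⟩ := Function.ne_iff.1 h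
  refine lt_of_lt_of_le ?_ (Finset.single_le_sum (f := fun s => ‖φ s‖ ^ 2)
    (fun s _ => by positivity) (mem_univ s))
  have : 0 < ‖φ s‖ := norm_pos_iff.2 hs
  positivity

/-- normalisation of the vector of a translation invariant tensor -/
lemma contract_unit {D L : ℕ} [NeZero L] (A : Tensor d D) (h : contract A L ≠ 0) :
    ∃ φ : (Site L → Fin d) → ℂ, normSq φ = 1 ∧ TransInv φ ∧
      ∀ R : Finset (ℤ × ℤ), redState R φ = redState R (contract A L) := by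
  have h1 := normSq_pos_of_ne h
  set N := normSq (contract A L) with hN
  have hs : 0 < Real.sqrt N := Real.sqrt_pos.mpr h1
  set c : ℂ := (((Real.sqrt N)⁻¹ : ℝ) : ℂ) with hc
  have hcn : ‖c‖ = (Real.sqrt N)⁻¹ := by
    rw [hc, Complex.norm_real, Real.norm_of_nonneg (by positivity)]
  have hc0 : c ≠ 0 := by
    rw [← norm_ne_zero_iff, hcn]; positivity
  refine ⟨c • contract A L, ?_, ?_, ?_⟩
  · rw [normSq_smul, hcn, ← hN, inv_pow, Real.sq_sqrt h1.le]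
    field_simp
  · apply transInv_smul
    intro u
    refine ⟨1, ?_⟩
    rw [one_smul]
    funext s
    exact contract_shift _ u s
  · intro R
    exact redState_smul R c hc0 _

/-- bound for the bond dimension -/
lemma bond_le {m f : ℕ} {ε' q t : ℝ} (hm : 1 ≤ (m : ℝ)) (ht : 1 ≤ t) (hq : 24 / ε' ≤ q * t)
    (_hq0 : 0 ≤ q) (hε' : 0 < ε') :
    (Pool.Agent.Y738.PE.bondG m f ε' : ℝ) ≤ (2 * (q + 3)) ^ 2 * (m * t) ^ 2 * (f : ℝ) ^ 4 ∧
      ∀ r : ℕ, ((r + (m * ⌈24 / ε'⌉₊ + 3) ^ 2 : ℕ) : ℝ) ≤ (r + (q + 4) ^ 2) * (m * t) ^ 2 := by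
  have h1 : ((⌈24 / ε'⌉₊ : ℕ) : ℝ) ≤ (q + 1) * t := by
    have := (Nat.ceil_lt_add_one (a := 24 / ε') (by positivity)).le
    nlinarith
  have h2 : (m : ℝ) * (⌈24 / ε'⌉₊ : ℕ) ≤ (q + 1) * (m * t) := by
    have := mul_le_mul_of_nonneg_left h1 (by linarith : (0 : ℝ) ≤ m)
    nlinarith
  have hmt : 1 ≤ (m : ℝ) * t := by nlinarith
  have h0 : (0 : ℝ) ≤ (m : ℝ) * (⌈24 / ε'⌉₊ : ℕ) := by positivity
  constructor
  · unfold Pool.Agent.Y738.PE.bondG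
    push_cast
    have h3 : 2 * ((m : ℝ) * (⌈24 / ε'⌉₊ : ℕ) + 2) ≤ 2 * (q + 3) * (m * t) := by nlinarith
    have h4 : (2 * ((m : ℝ) * (⌈24 / ε'⌉₊ : ℕ) + 2)) ^ 2 ≤ (2 * (q + 3) * (m * t)) ^ 2 :=
      pow_le_pow_left₀ (by positivity) h3 2
    rw [← mul_pow]
    exact mul_le_mul_of_nonneg_right h4 (by positivity)
  · intro r
    push_cast
    have h3 : (m : ℝ) * (⌈24 / ε'⌉₊ : ℕ) + 3 ≤ (q + 4) * (m * t) := by nlinarith
    have h4 : ((m : ℝ) * (⌈24 / ε'⌉₊ : ℕ) + 3) ^ 2 ≤ ((q + 4) * (m * t)) ^ 2 :=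
      pow_le_pow_left₀ (by positivity) h3 2
    have h5 : (r : ℝ) ≤ r * (m * t) ^ 2 := by
      have : (1 : ℝ) ≤ (m * t) ^ 2 := one_le_pow₀ hmt
      have hr : (0 : ℝ) ≤ r := Nat.cast_nonneg r
      nlinarith
    rw [add_mul, ← mul_pow]
    linarith

lemma num_sum {s κ ε ε' C L m : ℝ} (hs0 : 0 ≤ s) (hκ0 : 0 < κ) (hε : 0 < ε)
    (hε' : ε' = κ * ε ^ 2 / (4 * (s + 1))) (hC4 : 4 / κ ≤ C)
    (hC1 : 1 ≤ C) (hL : C * (m / ε ^ 2) ^ 2 ≤ L) (hm1 : 1 ≤ m) (hmt1 : 1 ≤ m / ε ^ 2) :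
    s * ε' + ε ^ 2 / C + 1 / L ≤ κ * ε ^ 2 := by
  have hε2 : 0 < ε ^ 2 := by positivity
  have hκε : 0 < κ * ε ^ 2 := mul_pos hκ0 hε2
  have hCpos : 0 < C := by linarith
  have e1 : s * ε' ≤ κ * ε ^ 2 / 4 := by
    have h1 : s * ε' = (κ * ε ^ 2 / 4) * (s / (s + 1)) := by
      rw [hε']; field_simp
    rw [h1]
    apply mul_le_of_le_one_right (by positivity)
    rw [div_le_one (by linarith)]
    linarith
  rw [div_le_iff₀ hκ0] at hC4
  have e2 : ε ^ 2 / C ≤ κ * ε ^ 2 / 4 := by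
    rw [div_le_iff₀ hCpos]
    have h1 : κ * ε ^ 2 / 4 * C = ε ^ 2 / 4 * (C * κ) := by ring
    rw [h1]
    have h2 := mul_le_mul_of_nonneg_left hC4 (by positivity : 0 ≤ ε ^ 2 / 4)
    linarith
  have h5 : C / ε ^ 2 ≤ L := by
    refine le_trans ?_ hL
    rw [div_eq_mul_one_div]
    apply mul_le_mul_of_nonneg_left _ hCpos.le
    have h6 : 1 / ε ^ 2 ≤ m / ε ^ 2 := div_le_div_of_nonneg_right hm1 hε2.le
    exact h6.trans (le_self_pow₀ hmt1 (by norm_num))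
  have hL0 : 0 < L := lt_of_lt_of_le (by positivity) h5
  have e3 : 1 / L ≤ κ * ε ^ 2 / 4 := by
    rw [div_le_iff₀ hL0]
    rw [div_le_iff₀ hε2] at h5
    have h1 : κ * ε ^ 2 / 4 * L = κ / 4 * (L * ε ^ 2) := by ring
    rw [h1]
    have h2 := mul_le_mul_of_nonneg_left h5 (by positivity : 0 ≤ κ / 4)
    linarith
  linarith

lemma num_one {s κ ε ε' C m : ℝ} {r : ℕ} (hs0 : 0 ≤ s) (hκ0 : 0 < κ) (hκ1 : κ ≤ 1) (hε : 0 < ε)
    (hε1 : ε ≤ 1) (hε' : ε' = κ * ε ^ 2 / (4 * (s + 1))) (hCr : 64 * r * (s + 1) / κ ≤ C)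
    (hm : C / ε ^ 2 ≤ m) :
    0 < ε' ∧ ε' ≤ 1 ∧ 16 * (r : ℝ) / ε' ≤ m ∧ 24 / ε' ≤ (96 * (s + 1) / κ) * (1 / ε ^ 2) := by
  have hε2 : 0 < ε ^ 2 := by positivity
  have hε21 : ε ^ 2 ≤ 1 := pow_le_one₀ hε.le hε1
  have hs1 : 0 < s + 1 := by linarith
  refine ⟨by rw [hε']; positivity, ?_, ?_, ?_⟩
  · rw [hε', div_le_one (by positivity)]
    have h1 : κ * ε ^ 2 ≤ 1 * 1 := mul_le_mul hκ1 hε21 hε2.le (by norm_num)
    linarith
  · refine le_trans ?_ hm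
    have e1 : 16 * (r : ℝ) / ε' = (64 * r * (s + 1) / κ) / ε ^ 2 := by
      rw [hε']
      field_simp
      ring
    rw [e1]
    exact div_le_div_of_nonneg_right hCr hε2.le
  · apply le_of_eq
    rw [hε']
    field_simp
    ring

/-- **The energy criterion at a point with a quadratic lower bound.** -/
theorem crit (hd : 2 ≤ d) (R : Finset (ℤ × ℤ)) {x : (R → Fin d) → (R → Fin d) → ℝ}
    {ρ : Matrix (R → Fin d) (R → Fin d) ℂ} (hρ : ρ.IsHermitian) (hQ : QB R x ρ) :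
    ∃ C : ℝ, 1 ≤ C ∧ ∀ ε : ℝ, 0 < ε → ε ≤ 1 → ∀ (m : ℕ) [NeZero m], C / ε ^ 2 ≤ m →
      ∀ (f : ℕ) (T : Site m → Tensor d f), contractN T ≠ 0 →
      (qf (ham R (herm x) m) (contractN T)).re ≤
        (m : ℝ) ^ 2 * (low (limStates d R) x + ε ^ 2 / C) * normSq (contractN T) →
      ∃ (D : ℕ) (A : Tensor d D), (D : ℝ) ≤ C * (m / ε ^ 2) ^ 2 * (f : ℝ) ^ 4 ∧
        ∀ (L : ℕ) [NeZero L], C * (m / ε ^ 2) ^ 2 ≤ L →
          contract A L ≠ 0 ∧ ∀ a b, ‖redState R (contract A L) a b - ρ a b‖ ≤ ε := by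
  obtain ⟨r, hr, havg⟩ := avg_state d hd R
  obtain ⟨C₀, hC₀, hcore⟩ := core hd R hρ hQ
  obtain ⟨s, hs⟩ : ∃ s : ℝ, s = size (herm x) := ⟨_, rfl⟩
  have hs0 : 0 ≤ s := by rw [hs]; exact size_nonneg _
  obtain ⟨κ, hκ⟩ : ∃ κ : ℝ, κ = 1 / (C₀ + 1) ^ 2 := ⟨_, rfl⟩
  have hκ0 : 0 < κ := by rw [hκ]; positivity
  have hκ1 : κ ≤ 1 := by
    rw [hκ, div_le_one (by positivity)]
    exact one_le_pow₀ (by linarith)
  obtain ⟨q, hq⟩ : ∃ q : ℝ, q = 96 * (s + 1) / κ := ⟨_, rfl⟩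
  have hq0 : 0 ≤ q := by rw [hq]; positivity
  obtain ⟨C, hC⟩ : ∃ C : ℝ, C = 4 / κ + 64 * r * (s + 1) / κ + (2 * (q + 3)) ^ 2 +
    (r + (q + 4) ^ 2) + (2 * R.card + 2 * rad R + 4) + 1 := ⟨_, rfl⟩
  have p1 : 0 ≤ 4 / κ := by positivity
  have p2 : 0 ≤ 64 * r * (s + 1) / κ := by positivity
  have p3 : 0 ≤ (2 * (q + 3)) ^ 2 := by positivity
  have p4 : 0 ≤ (r : ℝ) + (q + 4) ^ 2 := by positivity
  have p5 : (0 : ℝ) ≤ 2 * R.card + 2 * rad R + 4 := by positivity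
  have p6 : (0 : ℝ) ≤ R.card := Nat.cast_nonneg _
  have p7 : (0 : ℝ) ≤ rad R := Nat.cast_nonneg _
  have hC1 : 1 ≤ C := by rw [hC]; linarith only [p1, p2, p3, p4, p5]
  have hCa : 4 / κ ≤ C := by rw [hC]; linarith only [p2, p3, p4, p5]
  have hCb : 64 * r * (s + 1) / κ ≤ C := by rw [hC]; linarith only [p1, p3, p4, p5]
  have hCc : (2 * (q + 3)) ^ 2 ≤ C := by rw [hC]; linarith only [p1, p2, p4, p5]
  have hCd : (r : ℝ) + (q + 4) ^ 2 ≤ C := by rw [hC]; linarith only [p1, p2, p3, p5]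
  have hCe : 2 * (R.card : ℝ) + 2 ≤ C := by rw [hC]; linarith only [p1, p2, p3, p4, p7]
  have hCf : 2 * (rad R : ℝ) + 2 ≤ C := by rw [hC]; linarith only [p1, p2, p3, p4, p6]
  clear hC p1 p2 p3 p4 p5 p6 p7
  refine ⟨C, hC1, ?_⟩
  intro ε hε hε1 m _ hm f T hT hen
  have hm0 : (0 : ℝ) < m := by exact_mod_cast Nat.pos_of_ne_zero (NeZero.ne m)
  have hm1 : (1 : ℝ) ≤ m := by exact_mod_cast Nat.one_le_iff_ne_zero.2 (NeZero.ne m)
  have hε2 : 0 < ε ^ 2 := by positivity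
  have hε21 : ε ^ 2 ≤ 1 := pow_le_one₀ hε.le hε1
  obtain ⟨ε', hε'⟩ : ∃ ε' : ℝ, ε' = κ * ε ^ 2 / (4 * (s + 1)) := ⟨_, rfl⟩
  obtain ⟨hε'0, hε'1, h16, h24⟩ := num_one hs0 hκ0 hκ1 hε hε1 hε' hCb hm
  rw [← hq] at h24
  obtain ⟨A, hA⟩ := havg ε' hε'0 hε'1 m h16 f T hT
  have ht1 : 1 ≤ 1 / ε ^ 2 := by rw [le_div_iff₀ hε2]; linarith only [hε21]
  obtain ⟨b1, b2⟩ := bond_le (f := f) hm1 ht1 h24 hq0 hε'0
  have hmt : (m : ℝ) * (1 / ε ^ 2) = m / ε ^ 2 := by ring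
  rw [hmt] at b1 b2
  have hmt1 : 1 ≤ (m : ℝ) / ε ^ 2 := by
    rw [le_div_iff₀ hε2]; linarith only [hε21, hm1]
  have hsq1 : 1 ≤ ((m : ℝ) / ε ^ 2) ^ 2 := one_le_pow₀ hmt1
  refine ⟨_, A, ?_, ?_⟩
  · refine b1.trans ?_
    apply mul_le_mul_of_nonneg_right _ (by positivity)
    exact mul_le_mul_of_nonneg_right hCc (by positivity)
  intro L _ hL
  have hLC : C ≤ L :=
    le_trans (le_mul_of_one_le_right (by linarith only [hC1]) hsq1) hL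
  have hLr : r + (m * ⌈24 / ε'⌉₊ + 3) ^ 2 ≤ L := by
    have h1 := b2 r
    have h2 : (r + (q + 4) ^ 2) * ((m : ℝ) / ε ^ 2) ^ 2 ≤ C * (m / ε ^ 2) ^ 2 :=
      mul_le_mul_of_nonneg_right hCd (by positivity)
    exact_mod_cast h1.trans (h2.trans hL)
  obtain ⟨g1, g2⟩ := hA L hLr
  refine ⟨g1, ?_⟩
  obtain ⟨φ, f1, f2, f3⟩ := contract_unit A g1
  have c1 : 2 * R.card + 2 ≤ L := by
    have : ((2 * R.card + 2 : ℕ) : ℝ) ≤ L := by
      push_cast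
      exact hCe.trans hLC
    exact_mod_cast this
  have c2 : 2 * rad R + 2 ≤ L := by
    have : ((2 * rad R + 2 : ℕ) : ℝ) ≤ L := by
      push_cast
      exact hCf.trans hLC
    exact_mod_cast this
  -- the energy of the tensor
  have hPn : 0 < normSq (contractN T) := normSq_pos_of_ne hT
  have hpair : (pair (herm x) (avgState R (contractN T))).re ≤
      low (limStates d R) x + ε ^ 2 / C := by
    rw [qf_avg R (herm x) _ hPn.ne', Complex.re_ofReal_mul] at hen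
    have h1 : (m : ℝ) ^ 2 * (low (limStates d R) x + ε ^ 2 / C) * normSq (contractN T) =
        ((m : ℝ) ^ 2 * normSq (contractN T)) * (low (limStates d R) x + ε ^ 2 / C) := by ring
    rw [h1] at hen
    exact le_of_mul_le_mul_left hen (by positivity)
  have hlin : lin (redState R φ) x ≤ low (limStates d R) x + (s * ε' + ε ^ 2 / C) := by
    rw [lin_apply, f3 R]
    have h1 := abs_le.mp (pair_le (herm x) _ _ _ g2)
    have h2 : (∑ a, ∑ b, ‖herm x a b‖) = s := by rw [hs]; rfl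
    rw [h2] at h1
    have h3 := h1.2
    linarith only [h3, hpair]
  have hη0 : 0 ≤ s * ε' + ε ^ 2 / C := by positivity
  intro a b
  have h1 := hcore L c1 c2 φ f1 f2 _ hη0 hlin a b
  rw [f3 R] at h1
  refine h1.trans ?_
  have h2 := num_sum hs0 hκ0 hε hε' hCa hC1 hL hm1 hmt1
  have h3 : Real.sqrt (s * ε' + ε ^ 2 / C + 1 / L) ≤ ε / (C₀ + 1) := by
    rw [Real.sqrt_le_left (by positivity)]
    refine h2.trans (le_of_eq ?_)
    rw [hκ]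
    field_simp
  calc C₀ * Real.sqrt (s * ε' + ε ^ 2 / C + 1 / L) ≤ C₀ * (ε / (C₀ + 1)) :=
        mul_le_mul_of_nonneg_left h3 hC₀
    _ ≤ ε := by
        rw [mul_div_assoc', div_le_iff₀ (by positivity)]
        linarith only [hε.le]

/-- **The rate of convergence of the ground states at a point with a quadratic lower bound.** -/
theorem rate (hd : 2 ≤ d) (R : Finset (ℤ × ℤ)) {x : (R → Fin d) → (R → Fin d) → ℝ}
    {ρ : Matrix (R → Fin d) (R → Fin d) ℂ} (hρ : ρ.IsHermitian) (hQ : QB R x ρ) :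
    ∃ C : ℝ, 0 ≤ C ∧ ∀ (m : ℕ) [NeZero m], 2 * R.card + 2 ≤ m → 2 * rad R + 2 ≤ m →
      ∀ (φ : (Site m → Fin d) → ℂ), normSq φ = 1 → TransInv φ → IsGround (ham R (herm x) m) φ →
      ∀ a b, ‖redState R φ a b - ρ a b‖ ≤ C / Real.sqrt m := by
  obtain ⟨C₀, hC₀, hcore⟩ := core hd R hρ hQ
  set s := size (herm x) with hs
  have hs0 : 0 ≤ s := size_nonneg _
  refine ⟨C₀ * Real.sqrt (8 * rad R * s + 1), by positivity, ?_⟩
  intro m _ h1 h2 φ h3 h4 h5 a b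
  have hm0 : (0 : ℝ) < m := by exact_mod_cast Nat.pos_of_ne_zero (NeZero.ne m)
  have h6 := ground_le_low hd R m φ h3 h4 x h5
  have h7 := hcore m h1 h2 φ h3 h4 (8 * rad R * s * (1 / m)) (by positivity) h6 a b
  refine h7.trans (le_of_eq ?_)
  have h8 : 8 * (rad R : ℝ) * s * (1 / m) + 1 / m = (8 * rad R * s + 1) / m := by ring
  rw [h8, Real.sqrt_div (by positivity)]
  ring

end Pool.Agent.K3h59.PE
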