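import Mathlib
import Pool.Agent.K3h59.PE.Crit

set_option autoImplicit false
set_option linter.unusedSectionVars false

open scoped BigOperators Topology ComplexOrder
open Finset Filter
open Pool.Agent.H4R2 Pool.Agent.Y665.PE

/-!
# Interactions with a stable gap
-/

namespace Pool.Agent.K3h59.PE

variable {d : ℕ}

lemma entry_le_traceNorm {n : Type*} [Fintype n] [DecidableEq n] (X : Matrix n n ℂ) (a b : n) :
    ‖X a b‖ ≤ traceNorm X := by
  have hX := Matrix.isHermitian_conjTranspose_mul_self X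
  have hev : ∀ i, 0 ≤ hX.eigenvalues i := fun i =>
    (Matrix.posSemidef_conjTranspose_mul_self X).eigenvalues_nonneg i
  have htr : ∑ i, hX.eigenvalues i = ∑ a, ∑ b, ‖X a b‖ ^ 2 := by
    have h1 := hX.trace_eq_sum_eigenvalues
    have h2 : (X.conjTranspose * X).trace = ((∑ a, ∑ b, ‖X a b‖ ^ 2 : ℝ) : ℂ) := by
      unfold Matrix.trace
      simp only [Matrix.diag_apply, Matrix.mul_apply, Matrix.conjTranspose_apply]
      rw [Finset.sum_comm]
      push_cast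
      refine Finset.sum_congr rfl fun a _ => Finset.sum_congr rfl fun b _ => ?_
      rw [RCLike.star_def, mul_comm, Complex.mul_conj, Complex.normSq_eq_norm_sq]
      push_cast
      rfl
    rw [h2] at h1
    have h3 : ((∑ i, hX.eigenvalues i : ℝ) : ℂ) = ((∑ a, ∑ b, ‖X a b‖ ^ 2 : ℝ) : ℂ) := by
      rw [h1]
      push_cast
      rfl
    exact_mod_cast h3
  have h0 : 0 ≤ traceNorm X := Finset.sum_nonneg fun i _ => Real.sqrt_nonneg _
  have h1 : ‖X a b‖ ^ 2 ≤ ∑ a, ∑ b, ‖X a b‖ ^ 2 := by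
    refine le_trans ?_ (Finset.single_le_sum (f := fun a => ∑ b, ‖X a b‖ ^ 2)
      (fun a _ => Finset.sum_nonneg fun b _ => by positivity) (mem_univ a))
    exact Finset.single_le_sum (f := fun b => ‖X a b‖ ^ 2) (fun b _ => by positivity) (mem_univ b)
  have h2 : ∑ i, hX.eigenvalues i ≤ (traceNorm X) ^ 2 := by
    unfold traceNorm
    have h3 : ∑ i, hX.eigenvalues i = ∑ i, (Real.sqrt (hX.eigenvalues i)) ^ 2 :=
      Finset.sum_congr rfl fun i _ => (Real.sq_sqrt (hev i)).symm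
    rw [h3]
    exact Finset.sum_sq_le_sq_sum_of_nonneg fun i _ => Real.sqrt_nonneg _
  rw [htr] at h2
  exact (pow_le_pow_iff_left₀ (norm_nonneg _) h0 (by norm_num)).1 (h1.trans h2)

/-- energy of the vector of a translation invariant tensor -/
lemma qf_contract {D L : ℕ} [NeZero L] (A : Tensor d D) (h : contract A L ≠ 0)
    (R : Finset (ℤ × ℤ)) (k : Matrix (R → Fin d) (R → Fin d) ℂ) :
    (qf (ham R k L) (contract A L)).re =
      (L : ℝ) ^ 2 * (pair k (redState R (contract A L))).re * normSq (contract A L) := by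
  have h1 := normSq_pos_of_ne h
  set N := normSq (contract A L) with hN
  have hs : 0 < Real.sqrt N := Real.sqrt_pos.mpr h1
  set c : ℂ := (((Real.sqrt N)⁻¹ : ℝ) : ℂ) with hc
  have hcn : ‖c‖ = (Real.sqrt N)⁻¹ := by
    rw [hc, Complex.norm_real, Real.norm_of_nonneg (by positivity)]
  have hc0 : c ≠ 0 := by
    rw [← norm_ne_zero_iff, hcn]; positivity
  have f1 : normSq (c • contract A L) = 1 := by
    rw [normSq_smul, hcn, ← hN, inv_pow, Real.sq_sqrt h1.le]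
    field_simp
  have f2 : TransInv (c • contract A L) := by
    apply transInv_smul
    intro u
    refine ⟨1, ?_⟩
    rw [one_smul]
    funext s
    exact contract_shift _ u s
  have h2 := qf_ham R k _ f1 f2
  rw [redState_smul R c hc0, qf_smul_vec] at h2
  have h3 : ‖c‖ ^ 2 = N⁻¹ := by rw [hcn, inv_pow, Real.sq_sqrt h1.le]
  rw [h3] at h2
  have h4 := congrArg Complex.re h2
  rw [Complex.re_ofReal_mul] at h4
  have h6 : ∀ z : ℂ, (((L : ℂ) ^ 2) * z).re = (L : ℝ) ^ 2 * z.re := by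
    intro z
    have : ((L : ℂ) ^ 2) = (((L : ℝ) ^ 2 : ℝ) : ℂ) := by push_cast; rfl
    rw [this, Complex.re_ofReal_mul]
  rw [h6, inv_mul_eq_div, div_eq_iff h1.ne'] at h4
  exact h4

/-- the quadratic lower bound for interactions with a stable gap -/
theorem stable_point (hd : 2 ≤ d) {B R : Finset (ℤ × ℤ)} (hBR : B ⊆ R)
    {h : Matrix (B → Fin d) (B → Fin d) ℂ} (hh : h.IsHermitian)
    (ψ : ∀ (L : ℕ) [NeZero L], (Site L → Fin d) → ℂ)
    (hgap : GappedFamily B h ψ) (hst : StableGap B h R) :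
    ∃ (x : (R → Fin d) → (R → Fin d) → ℝ) (ρ : Matrix (R → Fin d) (R → Fin d) ℂ),
      herm x = enl hBR h ∧ ρ.IsHermitian ∧ QB R x ρ := by
  obtain ⟨x, hx⟩ := exists_herm (enl_herm hBR hh)
  have hc := stable_case hd B hh ψ hgap R hst
  obtain ⟨L₁, hL₁⟩ := groundFamily_of_gapped B hh ψ hgap
  obtain ⟨ρ, hρ0, hρ⟩ := limit_of_cauch hd R ψ L₁ (fun L _ h => ⟨(hL₁ L h).1, (hL₁ L h).2.1⟩) hc
  refine ⟨x, ρ, hx, limStates_herm R ρ hρ0, ?_⟩
  intro v
  obtain ⟨δ, hδ, K, hK⟩ := line_bound hd hBR ψ hgap hst hx hρ v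
  refine ⟨δ, hδ, K, fun T hT hTδ => ?_⟩
  have := (abs_le.mp (hK T hT hTδ)).1
  linarith

/-- **Quantitative energy criterion for interactions with a stable gap.** -/
theorem stable_crit (hd : 2 ≤ d) {B R : Finset (ℤ × ℤ)} (hBR : B ⊆ R)
    {h : Matrix (B → Fin d) (B → Fin d) ℂ} (hh : h.IsHermitian)
    (ψ : ∀ (L : ℕ) [NeZero L], (Site L → Fin d) → ℂ)
    (hgap : GappedFamily B h ψ) (hst : StableGap B h R) :
    ∃ C : ℝ, 1 ≤ C ∧ ∀ ε : ℝ, 0 < ε → ε ≤ 1 → ∀ (m : ℕ) [NeZero m], C / ε ^ 2 ≤ m →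
      ∀ (f : ℕ) (T : Site m → Tensor d f), contractN T ≠ 0 →
      (qf (ham B h m) (contractN T)).re ≤
        ((qf (ham B h m) (ψ m)).re + (m : ℝ) ^ 2 * (ε ^ 2 / C)) * normSq (contractN T) →
      ∃ (D : ℕ) (A : Tensor d D), (D : ℝ) ≤ C * (m / ε ^ 2) ^ 2 * (f : ℝ) ^ 4 ∧
        ∀ (L : ℕ) [NeZero L], C * (m / ε ^ 2) ^ 2 ≤ L →
          contract A L ≠ 0 ∧ traceNorm (redState R (ψ L) - redState R (contract A L)) ≤ ε := by
  obtain ⟨x, ρ, hx, hρ, hQ⟩ := stable_point hd hBR hh ψ hgap hst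
  obtain ⟨K, hK1, hcrit⟩ := crit hd R hρ hQ
  obtain ⟨Cr, hCr, hrate⟩ := rate hd R hρ hQ
  obtain ⟨Δ₀, hΔ₀, L₁, hL₁⟩ := hgap
  obtain ⟨N, hN⟩ : ∃ N : ℝ, N = 2 * ((d : ℝ) ^ R.card) ^ 2 := ⟨_, rfl⟩
  have hN1 : 1 ≤ N := by
    have hdp : (1 : ℝ) ≤ (d : ℝ) ^ R.card := by
      apply one_le_pow₀
      exact_mod_cast (by omega : 1 ≤ d)
    have : (1 : ℝ) ≤ ((d : ℝ) ^ R.card) ^ 2 := one_le_pow₀ hdp
    rw [hN]; linarith
  obtain ⟨w, hw⟩ : ∃ w : ℝ, w = 8 * (rad R : ℝ) * size (herm x) := ⟨_, rfl⟩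
  have hw0 : 0 ≤ w := by
    rw [hw]
    have := size_nonneg (herm x)
    positivity
  obtain ⟨C, hC⟩ : ∃ C : ℝ, C = N ^ 2 * K * (w + 1) + N ^ 4 * K + (N * Cr) ^ 2 + L₁ +
    (2 * R.card + 2 * rad R + 4) := ⟨_, rfl⟩
  have q1 : 0 ≤ N ^ 2 * K * (w + 1) := by positivity
  have q2 : 0 ≤ N ^ 4 * K := by positivity
  have q3 : 0 ≤ (N * Cr) ^ 2 := by positivity
  have q4 : (0 : ℝ) ≤ L₁ := Nat.cast_nonneg _
  have q5 : (0 : ℝ) ≤ R.card := Nat.cast_nonneg _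
  have q6 : (0 : ℝ) ≤ rad R := Nat.cast_nonneg _
  have hC1 : 1 ≤ C := by rw [hC]; linarith only [q1, q2, q3, q4, q5, q6]
  have hCa : N ^ 2 * K * (w + 1) ≤ C := by rw [hC]; linarith only [q2, q3, q4, q5, q6]
  have hCb : N ^ 4 * K ≤ C := by rw [hC]; linarith only [q1, q3, q4, q5, q6]
  have hCc : (N * Cr) ^ 2 ≤ C := by rw [hC]; linarith only [q1, q2, q4, q5, q6]
  have hCd : (L₁ : ℝ) ≤ C := by rw [hC]; linarith only [q1, q2, q3, q5, q6]
  have hCe : 2 * (R.card : ℝ) + 2 ≤ C := by rw [hC]; linarith only [q1, q2, q3, q4, q6]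
  have hCf : 2 * (rad R : ℝ) + 2 ≤ C := by rw [hC]; linarith only [q1, q2, q3, q4, q5]
  clear hC q1 q2 q3 q4 q5 q6
  have hCpos : 0 < C := by linarith only [hC1]
  have hKpos : 0 < K := by linarith only [hK1]
  have hNpos : 0 < N := by linarith only [hN1]
  have sizes : ∀ L : ℕ, C ≤ L → L₁ ≤ L ∧ 2 * R.card + 2 ≤ L ∧ 2 * rad R + 2 ≤ L := by
    intro L hL
    refine ⟨?_, ?_, ?_⟩
    · exact_mod_cast hCd.trans hL
    · have : ((2 * R.card + 2 : ℕ) : ℝ) ≤ L := by push_cast; exact hCe.trans hL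
      exact_mod_cast this
    · have : ((2 * rad R + 2 : ℕ) : ℝ) ≤ L := by push_cast; exact hCf.trans hL
      exact_mod_cast this
  have grd : ∀ (L : ℕ) [NeZero L], C ≤ L → normSq (ψ L) = 1 ∧ TransInv (ψ L) ∧
      IsGround (ham R (herm x) L) (ψ L) ∧ ham R (herm x) L = ham B h L := by
    intro L _ hL
    obtain ⟨s1, _, s3⟩ := sizes L hL
    obtain ⟨f1, f2⟩ := hL₁ L s1
    have e : ham R (herm x) L = ham B h L := by rw [hx, ham_enl hBR h (by omega)]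
    have f3 : IsGappedGround (ham R (herm x) L) Δ₀ (ψ L) := by rw [e]; exact f2
    exact ⟨f1, transInv_of_ground R _ Δ₀ (ψ L) f3,
      isGround_of_gapped (ham_herm R (herm_isHermitian x)) hΔ₀.le f3, e⟩
  refine ⟨C, hC1, ?_⟩
  intro ε hε hε1 m _ hm f T hT hen
  have hε2 : 0 < ε ^ 2 := by positivity
  have hε21 : ε ^ 2 ≤ 1 := pow_le_one₀ hε.le hε1
  have hm0 : (0 : ℝ) < m := by exact_mod_cast Nat.pos_of_ne_zero (NeZero.ne m)
  have hm1 : (1 : ℝ) ≤ m := by exact_mod_cast Nat.one_le_iff_ne_zero.2 (NeZero.ne m)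
  have hCm : C ≤ m := by
    refine le_trans ?_ hm
    rw [le_div_iff₀ hε2]
    exact mul_le_of_le_one_right hCpos.le hε21
  obtain ⟨t1, t2, t3, t4⟩ := grd m hCm
  obtain ⟨ε₁, hε₁⟩ : ∃ ε₁ : ℝ, ε₁ = ε / N := ⟨_, rfl⟩
  have hε₁0 : 0 < ε₁ := by rw [hε₁]; positivity
  have hε₁1 : ε₁ ≤ 1 := by
    rw [hε₁, div_le_one hNpos]; linarith only [hε1, hN1]
  have hε₁sq : ε₁ ^ 2 = ε ^ 2 / N ^ 2 := by rw [hε₁, div_pow]
  have hN2pos : 0 < N ^ 2 := by positivity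
  have hKm : K / ε₁ ^ 2 ≤ m := by
    refine le_trans ?_ hm
    rw [hε₁sq, div_div_eq_mul_div]
    apply div_le_div_of_nonneg_right _ hε2.le
    refine le_trans ?_ hCa
    have : K * N ^ 2 * 1 ≤ K * N ^ 2 * (w + 1) :=
      mul_le_mul_of_nonneg_left (by linarith only [hw0]) (by positivity)
    linarith only [this]
  have hEm : (qf (ham B h m) (ψ m)).re ≤ (m : ℝ) ^ 2 * (low (limStates d R) x + w * (1 / m)) := by
    have h1 := ground_le_low hd R m (ψ m) t1 t2 x t3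
    rw [← t4, qf_ham R (herm x) (ψ m) t1 t2]
    have h6 : ∀ z : ℂ, (((m : ℂ) ^ 2) * z).re = (m : ℝ) ^ 2 * z.re := by
      intro z
      have : ((m : ℂ) ^ 2) = (((m : ℝ) ^ 2 : ℝ) : ℂ) := by push_cast; rfl
      rw [this, Complex.re_ofReal_mul]
    rw [h6]
    apply mul_le_mul_of_nonneg_left _ (by positivity)
    rw [lin_apply, ← hw] at h1
    exact h1
  have hPn : 0 < normSq (contractN T) := normSq_pos_of_ne hT
  have hlow : (qf (ham R (herm x) m) (contractN T)).re ≤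
      (m : ℝ) ^ 2 * (low (limStates d R) x + ε₁ ^ 2 / K) * normSq (contractN T) := by
    rw [t4]
    refine hen.trans (mul_le_mul_of_nonneg_right ?_ hPn.le)
    have h1 : w * (1 / (m : ℝ)) + ε ^ 2 / C ≤ ε₁ ^ 2 / K := by
      have h2 : 1 / (m : ℝ) ≤ ε ^ 2 / C := by
        rw [div_le_div_iff₀ hm0 hCpos, one_mul]
        rw [div_le_iff₀ hε2] at hm
        linarith only [hm]
      have h3 : w * (1 / (m : ℝ)) ≤ w * (ε ^ 2 / C) := mul_le_mul_of_nonneg_left h2 hw0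
      have h4 : w * (ε ^ 2 / C) + ε ^ 2 / C = (w + 1) * ε ^ 2 / C := by ring
      have h5 : (w + 1) * ε ^ 2 / C ≤ ε₁ ^ 2 / K := by
        rw [hε₁sq, div_div, div_le_div_iff₀ hCpos (by positivity)]
        have h6 := mul_le_mul_of_nonneg_left hCa hε2.le
        have h7 : (w + 1) * ε ^ 2 * (N ^ 2 * K) = ε ^ 2 * (N ^ 2 * K * (w + 1)) := by ring
        rw [h7]
        exact h6
      linarith only [h3, h4, h5]
    have h2 : (m : ℝ) ^ 2 * (low (limStates d R) x + w * (1 / m)) + (m : ℝ) ^ 2 * (ε ^ 2 / C) =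
        (m : ℝ) ^ 2 * (low (limStates d R) x + (w * (1 / m) + ε ^ 2 / C)) := by ring
    have h3 : (qf (ham B h m) (ψ m)).re + (m : ℝ) ^ 2 * (ε ^ 2 / C) ≤
        (m : ℝ) ^ 2 * (low (limStates d R) x + (w * (1 / m) + ε ^ 2 / C)) := by
      rw [← h2]; linarith only [hEm]
    refine h3.trans (mul_le_mul_of_nonneg_left ?_ (by positivity))
    linarith only [h1]
  obtain ⟨D, A, hD, hA⟩ := hcrit ε₁ hε₁0 hε₁1 m hKm f T hT hlow
  have hsc : K * ((m : ℝ) / ε₁ ^ 2) ^ 2 ≤ C * (m / ε ^ 2) ^ 2 := by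
    rw [hε₁sq, div_div_eq_mul_div]
    have h1 : K * ((m : ℝ) * N ^ 2 / ε ^ 2) ^ 2 = N ^ 4 * K * (m / ε ^ 2) ^ 2 := by ring
    rw [h1]
    exact mul_le_mul_of_nonneg_right hCb (by positivity)
  refine ⟨D, A, hD.trans (mul_le_mul_of_nonneg_right hsc (by positivity)), ?_⟩
  intro L _ hL
  have hmt1 : 1 ≤ (m : ℝ) / ε ^ 2 := by
    rw [le_div_iff₀ hε2]; linarith only [hε21, hm1]
  have hLε : C / ε ^ 2 ≤ L := by
    refine le_trans ?_ hL
    rw [div_eq_mul_one_div]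
    apply mul_le_mul_of_nonneg_left _ hCpos.le
    have h6 : 1 / ε ^ 2 ≤ (m : ℝ) / ε ^ 2 := div_le_div_of_nonneg_right hm1 hε2.le
    exact h6.trans (le_self_pow₀ hmt1 (by norm_num))
  have hCL : C ≤ L := by
    refine le_trans ?_ hLε
    rw [le_div_iff₀ hε2]
    exact mul_le_of_le_one_right hCpos.le hε21
  obtain ⟨g1, g2⟩ := hA L (hsc.trans hL)
  refine ⟨g1, ?_⟩
  obtain ⟨u1, u2, u3, _⟩ := grd L hCL
  obtain ⟨s1, s2, s3⟩ := sizes L hCL
  have hL0 : (0 : ℝ) < L := lt_of_lt_of_le hCpos hCL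
  have hr1 := hrate L s2 s3 (ψ L) u1 u2 u3
  have hsq : Cr / Real.sqrt L ≤ ε₁ := by
    have hs0 : 0 < Real.sqrt L := Real.sqrt_pos.2 hL0
    rw [div_le_iff₀ hs0, hε₁, div_mul_eq_mul_div, le_div_iff₀ hNpos]
    have h1 : (Cr * N) ^ 2 ≤ (ε * Real.sqrt L) ^ 2 := by
      rw [mul_pow ε, Real.sq_sqrt hL0.le]
      rw [div_le_iff₀ hε2] at hLε
      have h2 : (Cr * N) ^ 2 = (N * Cr) ^ 2 := by ring
      rw [h2]
      linarith only [hCc, hLε]
    exact (pow_le_pow_iff_left₀ (by positivity) (by positivity) (by norm_num)).1 h1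
  apply traceNorm_le' R hd _ ε hε
  intro a b
  have h1 := g2 a b
  have h2 := (hr1 a b).trans hsq
  rw [Matrix.sub_apply]
  have h3 : redState R (ψ L) a b - redState R (contract A L) a b =
      (redState R (ψ L) a b - ρ a b) - (redState R (contract A L) a b - ρ a b) := by ring
  rw [h3]
  refine (norm_sub_le _ _).trans ?_
  have h4 : ε / ((d : ℝ) ^ R.card) ^ 2 = 2 * ε₁ := by
    rw [hε₁, hN]
    have hdp : (0 : ℝ) < (d : ℝ) ^ R.card := by
      have : (0 : ℝ) < d := by exact_mod_cast (by omega : 0 < d)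
      positivity
    field_simp
  rw [h4]
  linarith only [h1, h2]

/-- **Rate of convergence for interactions with a stable gap.** -/
theorem stable_rate (hd : 2 ≤ d) {B R : Finset (ℤ × ℤ)} (hBR : B ⊆ R)
    {h : Matrix (B → Fin d) (B → Fin d) ℂ} (hh : h.IsHermitian)
    (ψ : ∀ (L : ℕ) [NeZero L], (Site L → Fin d) → ℂ)
    (hgap : GappedFamily B h ψ) (hst : StableGap B h R) :
    ∃ (C : ℝ) (L₀ : ℕ) (ρ : Matrix (R → Fin d) (R → Fin d) ℂ), 0 ≤ C ∧
      ∀ (L : ℕ) [NeZero L], L₀ ≤ L → traceNorm (redState R (ψ L) - ρ) ≤ C / Real.sqrt L := by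
  obtain ⟨x, ρ, hx, hρ, hQ⟩ := stable_point hd hBR hh ψ hgap hst
  obtain ⟨Cr, hCr, hrate⟩ := rate hd R hρ hQ
  obtain ⟨Δ₀, hΔ₀, L₁, hL₁⟩ := hgap
  refine ⟨(Fintype.card (R → Fin d) : ℝ) ^ 2 * Cr, L₁ + 2 * R.card + 2 * rad R + 4, ρ,
    by positivity, ?_⟩
  intro L _ hL
  obtain ⟨f1, f2⟩ := hL₁ L (by omega)
  have e : ham R (herm x) L = ham B h L := by rw [hx, ham_enl hBR h (by omega)]
  have f3 : IsGappedGround (ham R (herm x) L) Δ₀ (ψ L) := by rw [e]; exact f2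
  have h1 := hrate L (by omega) (by omega) (ψ L) f1 (transInv_of_ground R _ Δ₀ (ψ L) f3)
    (isGround_of_gapped (ham_herm R (herm_isHermitian x)) hΔ₀.le f3)
  refine (traceNorm_le _ (Cr / Real.sqrt L) (by positivity) (fun a b => by
    rw [Matrix.sub_apply]; exact h1 a b)).trans (le_of_eq ?_)
  ring

end Pool.Agent.K3h59.PE
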