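import Mathlib
import Pool.Agent.K3h59.PE.Stable

set_option autoImplicit false
set_option linter.unusedSectionVars false

open scoped BigOperators Topology ComplexOrder
open Finset Filter
open Pool.Agent.H4R2 Pool.Agent.Y665.PE

/-!
# Efficient approximation of the local states and of the energy are equivalent
-/

namespace Pool.Agent.K3h59.PE

variable {d : ℕ}

/-- Polynomially efficient approximation of the local states by translation invariant tensors. -/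
def EffStates (R : Finset (ℤ × ℤ)) (ψ : ∀ (L : ℕ) [NeZero L], (Site L → Fin d) → ℂ) : Prop :=
  ∃ c k : ℕ, ∀ ε : ℝ, 0 < ε → ε ≤ 1 → ∃ (D : ℕ) (A : Tensor d D),
    (D : ℝ) ≤ c * (1 / ε) ^ k ∧ ∀ (L : ℕ) [NeZero L], (c : ℝ) * (1 / ε) ^ k ≤ L →
      contract A L ≠ 0 ∧ traceNorm (redState R (ψ L) - redState R (contract A L)) ≤ ε

/-- Polynomially efficient approximation of the ground energy by arbitrary PEPS, for each accuracy
on one torus. -/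
def EffEnergy (B : Finset (ℤ × ℤ)) (h : Matrix (B → Fin d) (B → Fin d) ℂ)
    (ψ : ∀ (L : ℕ) [NeZero L], (Site L → Fin d) → ℂ) : Prop :=
  ∃ c k : ℕ, ∀ ε : ℝ, 0 < ε → ε ≤ 1 → ∃ (m : ℕ) (_ : NeZero m) (f : ℕ) (T : Site m → Tensor d f),
    1 / ε ≤ m ∧ (m : ℝ) ≤ c * (1 / ε) ^ k ∧ (f : ℝ) ≤ c * (1 / ε) ^ k ∧ contractN T ≠ 0 ∧
    (qf (ham B h m) (contractN T)).re ≤
      ((qf (ham B h m) (ψ m)).re + (m : ℝ) ^ 2 * ε) * normSq (contractN T)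

lemma ceil_le' (x : ℝ) (hx : 0 ≤ x) : ((⌈x⌉₊ : ℕ) : ℝ) ≤ x + 1 :=
  (Nat.ceil_lt_add_one hx).le

theorem states_of_energy {B R : Finset (ℤ × ℤ)} {h : Matrix (B → Fin d) (B → Fin d) ℂ}
    (ψ : ∀ (L : ℕ) [NeZero L], (Site L → Fin d) → ℂ)
    (hcr : ∃ C : ℝ, 1 ≤ C ∧ ∀ ε : ℝ, 0 < ε → ε ≤ 1 → ∀ (m : ℕ) [NeZero m], C / ε ^ 2 ≤ m →
      ∀ (f : ℕ) (T : Site m → Tensor d f), contractN T ≠ 0 →
      (qf (ham B h m) (contractN T)).re ≤
        ((qf (ham B h m) (ψ m)).re + (m : ℝ) ^ 2 * (ε ^ 2 / C)) * normSq (contractN T) →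
      ∃ (D : ℕ) (A : Tensor d D), (D : ℝ) ≤ C * (m / ε ^ 2) ^ 2 * (f : ℝ) ^ 4 ∧
        ∀ (L : ℕ) [NeZero L], C * (m / ε ^ 2) ^ 2 ≤ L →
          contract A L ≠ 0 ∧ traceNorm (redState R (ψ L) - redState R (contract A L)) ≤ ε)
    (hE : EffEnergy B h ψ) : EffStates R ψ := by
  obtain ⟨C, hC1, hcr⟩ := hcr
  obtain ⟨c, k, hE⟩ := hE
  have hCpos : 0 < C := by linarith
  -- the scale
  obtain ⟨a, ha⟩ : ∃ a : ℝ, a = (c : ℝ) * C ^ k + 1 := ⟨_, rfl⟩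
  have ha1 : 1 ≤ a := by
    rw [ha]
    have : 0 ≤ (c : ℝ) * C ^ k := by positivity
    linarith
  refine ⟨⌈C * a ^ 6⌉₊, 12 * k + 4, ?_⟩
  intro ε hε hε1
  have hε2 : 0 < ε ^ 2 := by positivity
  have hε21 : ε ^ 2 ≤ 1 := pow_le_one₀ hε.le hε1
  obtain ⟨y, hy⟩ : ∃ y : ℝ, y = 1 / ε := ⟨_, rfl⟩
  have hy1 : 1 ≤ y := by rw [hy, le_div_iff₀ hε]; linarith
  have hη0 : 0 < ε ^ 2 / C := by positivity
  have hη1 : ε ^ 2 / C ≤ 1 := by
    rw [div_le_one hCpos]; linarith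
  obtain ⟨m, hm, f, T, h1, h2, h3, h4, h5⟩ := hE (ε ^ 2 / C) hη0 hη1
  have e1 : 1 / (ε ^ 2 / C) = C * y ^ 2 := by rw [hy]; field_simp
  rw [e1] at h1 h2 h3
  have hmC : C / ε ^ 2 ≤ m := by
    refine le_trans (le_of_eq ?_) h1
    rw [hy]; field_simp
  obtain ⟨D, A, hD, hA⟩ := hcr ε hε hε1 m hmC f T h4 h5
  have hyk : (c : ℝ) * (C * y ^ 2) ^ k ≤ a * y ^ (2 * k) := by
    have e2 : (c : ℝ) * (C * y ^ 2) ^ k = (c * C ^ k) * y ^ (2 * k) := by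
      rw [mul_pow, ← pow_mul]; ring
    rw [e2]
    apply mul_le_mul_of_nonneg_right _ (by positivity)
    rw [ha]; linarith
  have hm' : (m : ℝ) ≤ a * y ^ (2 * k) := h2.trans hyk
  have hf' : (f : ℝ) ≤ a * y ^ (2 * k) := h3.trans hyk
  have hmε : (m : ℝ) / ε ^ 2 ≤ a * y ^ (2 * k + 2) := by
    have e3 : (m : ℝ) / ε ^ 2 = m * y ^ 2 := by rw [hy]; field_simp
    rw [e3]
    calc (m : ℝ) * y ^ 2 ≤ (a * y ^ (2 * k)) * y ^ 2 :=
          mul_le_mul_of_nonneg_right hm' (by positivity)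
      _ = a * y ^ (2 * k + 2) := by ring
  have hm2 : ((m : ℝ) / ε ^ 2) ^ 2 ≤ a ^ 2 * y ^ (4 * k + 4) := by
    calc ((m : ℝ) / ε ^ 2) ^ 2 ≤ (a * y ^ (2 * k + 2)) ^ 2 :=
          pow_le_pow_left₀ (by positivity) hmε 2
      _ = a ^ 2 * y ^ (4 * k + 4) := by ring
  have hceil : C * a ^ 6 ≤ (⌈C * a ^ 6⌉₊ : ℕ) := Nat.le_ceil _
  have hDb : C * ((m : ℝ) / ε ^ 2) ^ 2 * (f : ℝ) ^ 4 ≤ C * a ^ 6 * y ^ (12 * k + 4) := by
    have h6 : (f : ℝ) ^ 4 ≤ a ^ 4 * y ^ (8 * k) := by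
      calc (f : ℝ) ^ 4 ≤ (a * y ^ (2 * k)) ^ 4 := pow_le_pow_left₀ (by positivity) hf' 4
        _ = a ^ 4 * y ^ (8 * k) := by ring
    calc C * ((m : ℝ) / ε ^ 2) ^ 2 * (f : ℝ) ^ 4
        ≤ C * (a ^ 2 * y ^ (4 * k + 4)) * (a ^ 4 * y ^ (8 * k)) := by
          refine mul_le_mul (mul_le_mul_of_nonneg_left hm2 hCpos.le) h6 (by positivity)
            (by positivity)
      _ = C * a ^ 6 * y ^ (12 * k + 4) := by ring
  have hLb : C * ((m : ℝ) / ε ^ 2) ^ 2 ≤ C * a ^ 6 * y ^ (12 * k + 4) := by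
    have h6 : a ^ 2 ≤ a ^ 6 := pow_le_pow_right₀ ha1 (by norm_num)
    have h7 : y ^ (4 * k + 4) ≤ y ^ (12 * k + 4) := pow_le_pow_right₀ hy1 (by omega)
    calc C * ((m : ℝ) / ε ^ 2) ^ 2 ≤ C * (a ^ 2 * y ^ (4 * k + 4)) :=
          mul_le_mul_of_nonneg_left hm2 hCpos.le
      _ ≤ C * (a ^ 6 * y ^ (12 * k + 4)) := by
          apply mul_le_mul_of_nonneg_left _ hCpos.le
          exact mul_le_mul h6 h7 (by positivity) (by positivity)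
      _ = C * a ^ 6 * y ^ (12 * k + 4) := by ring
  have hfin : C * a ^ 6 * y ^ (12 * k + 4) ≤ (⌈C * a ^ 6⌉₊ : ℕ) * (1 / ε) ^ (12 * k + 4) := by
    rw [← hy]
    exact mul_le_mul_of_nonneg_right hceil (by positivity)
  refine ⟨D, A, hD.trans (hDb.trans hfin), fun L _ hL => ?_⟩
  exact hA L (hLb.trans (hfin.trans hL))

theorem energy_of_states {B R : Finset (ℤ × ℤ)} (hBR : B ⊆ R)
    {h : Matrix (B → Fin d) (B → Fin d) ℂ} (hh : h.IsHermitian)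
    (ψ : ∀ (L : ℕ) [NeZero L], (Site L → Fin d) → ℂ) (hgap : GappedFamily B h ψ)
    (hS : EffStates R ψ) : EffEnergy B h ψ := by
  obtain ⟨c, k, hS⟩ := hS
  obtain ⟨L₁, hL₁⟩ := groundFamily_of_gapped B hh ψ hgap
  obtain ⟨s, hs⟩ : ∃ s : ℝ, s = size (enl hBR h) := ⟨_, rfl⟩
  have hs0 : 0 ≤ s := by rw [hs]; exact size_nonneg _
  obtain ⟨a, ha⟩ : ∃ a : ℝ, a = (c : ℝ) * (s + 1) ^ k + 1 := ⟨_, rfl⟩
  have ha1 : 1 ≤ a := by
    rw [ha]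
    have : 0 ≤ (c : ℝ) * (s + 1) ^ k := by positivity
    linarith
  obtain ⟨n₀, hn₀⟩ : ∃ n₀ : ℕ, n₀ = L₁ + 2 * rad R + 2 := ⟨_, rfl⟩
  refine ⟨⌈a⌉₊ + n₀ + 3, k + 1, ?_⟩
  intro η hη hη1
  obtain ⟨y, hy⟩ : ∃ y : ℝ, y = 1 / η := ⟨_, rfl⟩
  have hy1 : 1 ≤ y := by rw [hy, le_div_iff₀ hη]; linarith
  have hs1 : 0 < s + 1 := by linarith
  have hε0 : 0 < η / (s + 1) := by positivity
  have hε1 : η / (s + 1) ≤ 1 := by rw [div_le_one hs1]; linarith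
  obtain ⟨D, A, hD, hA⟩ := hS (η / (s + 1)) hε0 hε1
  have e1 : 1 / (η / (s + 1)) = (s + 1) * y := by rw [hy]; field_simp
  rw [e1] at hD hA
  have hck : (c : ℝ) * ((s + 1) * y) ^ k ≤ a * y ^ k := by
    have e2 : (c : ℝ) * ((s + 1) * y) ^ k = (c * (s + 1) ^ k) * y ^ k := by rw [mul_pow]; ring
    rw [e2]
    apply mul_le_mul_of_nonneg_right _ (by positivity)
    rw [ha]; linarith
  set m : ℕ := ⌈a * y ^ k⌉₊ + ⌈y⌉₊ + n₀ with hm
  have hm0 : NeZero m := ⟨by omega⟩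
  have hmb : (m : ℝ) ≤ a * y ^ k + y + n₀ + 2 := by
    rw [hm]
    push_cast
    have h1 := ceil_le' (a * y ^ k) (by positivity)
    have h2 := ceil_le' y (by linarith)
    linarith
  have hmlow : a * y ^ k ≤ m := by
    rw [hm]
    push_cast
    have h1 := Nat.le_ceil (a * y ^ k)
    have h2 : (0 : ℝ) ≤ (⌈y⌉₊ : ℕ) := Nat.cast_nonneg _
    have h3 : (0 : ℝ) ≤ (n₀ : ℕ) := Nat.cast_nonneg _
    linarith
  have hmy : y ≤ m := by
    rw [hm]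
    push_cast
    have h1 := Nat.le_ceil y
    have h2 : (0 : ℝ) ≤ (⌈a * y ^ k⌉₊ : ℕ) := Nat.cast_nonneg _
    have h3 : (0 : ℝ) ≤ (n₀ : ℕ) := Nat.cast_nonneg _
    linarith
  have hmn : n₀ ≤ m := by omega
  obtain ⟨g1, g2⟩ := hA m (hck.trans hmlow)
  obtain ⟨f1, f2, f3⟩ := hL₁ m (by omega)
  have hyk : y ^ k ≤ y ^ (k + 1) := pow_le_pow_right₀ hy1 (by omega)
  have hyk1 : 1 ≤ y ^ (k + 1) := one_le_pow₀ hy1
  have hyk2 : y ≤ y ^ (k + 1) := le_self_pow₀ hy1 (by omega)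
  have hca : a ≤ (⌈a⌉₊ : ℕ) := Nat.le_ceil _
  have hn0 : (0 : ℝ) ≤ (n₀ : ℝ) := Nat.cast_nonneg _
  have hcn : (0 : ℝ) ≤ (⌈a⌉₊ : ℕ) := Nat.cast_nonneg _
  refine ⟨m, hm0, D, fun _ => A, by rw [← hy]; exact hmy, ?_, ?_, g1, ?_⟩
  · rw [← hy]
    refine hmb.trans ?_
    push_cast
    have h1 : a * y ^ k ≤ (⌈a⌉₊ : ℕ) * y ^ (k + 1) :=
      mul_le_mul hca hyk (by positivity) hcn
    have h2 : (n₀ : ℝ) ≤ n₀ * y ^ (k + 1) := le_mul_of_one_le_right hn0 hyk1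
    nlinarith only [h1, h2, hyk1, hyk2]
  · rw [← hy]
    refine (hD.trans hck).trans ?_
    push_cast
    have h1 : a * y ^ k ≤ (⌈a⌉₊ : ℕ) * y ^ (k + 1) :=
      mul_le_mul hca hyk (by positivity) hcn
    have h2 : 0 ≤ ((n₀ : ℝ) + 3) * y ^ (k + 1) := by positivity
    linarith
  · have hcon : contractN (fun _ : Site m => A) = contract A m := rfl
    rw [hcon]
    have hpos := normSq_pos_of_ne g1
    have e2 : ham R (enl hBR h) m = ham B h m := ham_enl hBR h (by omega)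
    rw [← e2, qf_contract A g1]
    have e3 : (qf (ham R (enl hBR h) m) (ψ m)).re =
        (m : ℝ) ^ 2 * (pair (enl hBR h) (redState R (ψ m))).re := by
      rw [qf_ham R _ (ψ m) f1 f2]
      have : ((m : ℂ) ^ 2) = (((m : ℝ) ^ 2 : ℝ) : ℂ) := by push_cast; rfl
      rw [this, Complex.re_ofReal_mul]
    rw [e3]
    apply mul_le_mul_of_nonneg_right _ hpos.le
    rw [← mul_add]
    apply mul_le_mul_of_nonneg_left _ (by positivity)
    have h1 : ∀ a b, ‖redState R (ψ m) a b - redState R (contract A m) a b‖ ≤ η / (s + 1) := by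
      intro a b
      have := entry_le_traceNorm (redState R (ψ m) - redState R (contract A m)) a b
      rw [Matrix.sub_apply] at this
      exact this.trans g2
    have h2 := (abs_le.mp (pair_le (enl hBR h) _ _ _ h1)).1
    have h3 : (∑ a, ∑ b, ‖enl hBR h a b‖) = s := by rw [hs]; rfl
    rw [h3] at h2
    have h4 : s * (η / (s + 1)) ≤ η := by
      rw [mul_div_assoc', div_le_iff₀ hs1]
      nlinarith only [hη, hs0]
    linarith only [h2, h4]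

end Pool.Agent.K3h59.PE
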