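import Mathlib
import Pool.Agent.K3h59.PE.Equiv
import Pool.Agent.Results.MP_e4acd5_mp.PolynomialBond

set_option autoImplicit false
set_option linter.unusedSectionVars false

open scoped BigOperators Topology ComplexOrder
open Finset Filter
open Pool.Agent.H4R2 Pool.Agent.Y665.PE

/-!
# Few low-lying states
-/

namespace Pool.Agent.K3h59.PE

variable {d : ℕ}

/-- the box of radius `r` -/
noncomputable def boxF (r : ℕ) : Finset (ℤ × ℤ) := Finset.Icc (-(r : ℤ)) r ×ˢ Finset.Icc (-(r : ℤ)) r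

lemma mem_boxF {r : ℕ} {p : ℤ × ℤ} :
    p ∈ boxF r ↔ (-(r : ℤ) ≤ p.1 ∧ p.1 ≤ r) ∧ (-(r : ℤ) ≤ p.2 ∧ p.2 ≤ r) := by
  unfold boxF
  rw [Finset.mem_product, Finset.mem_Icc, Finset.mem_Icc]

lemma sub_boxF (B : Finset (ℤ × ℤ)) : B ⊆ boxF (rad B) := by
  intro p hp
  have h1 : max p.1.natAbs p.2.natAbs ≤ rad B :=
    Finset.le_sup (f := fun x : ℤ × ℤ => max x.1.natAbs x.2.natAbs) hp
  have h2 := (le_max_left _ _).trans h1
  have h3 := (le_max_right _ _).trans h1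
  rw [mem_boxF]
  omega

lemma rad_boxF (r : ℕ) : rad (boxF r) ≤ r := by
  unfold rad
  apply Finset.sup_le
  intro p hp
  rw [mem_boxF] at hp
  apply max_le <;> omega

/-- the box as a product of intervals starting at `0` -/
noncomputable def boxE (r : ℕ) : boxF r ≃ Fin (2 * r + 1) × Fin (2 * r + 1) where
  toFun p := (⟨(p.1.1 + r).toNat, by have := mem_boxF.1 p.2; omega⟩,
    ⟨(p.1.2 + r).toNat, by have := mem_boxF.1 p.2; omega⟩)
  invFun x := ⟨((x.1 : ℕ) - (r : ℤ), (x.2 : ℕ) - (r : ℤ)), by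
    rw [mem_boxF]
    have h1 := x.1.2
    have h2 := x.2.2
    constructor <;> constructor <;> simp only [] <;> omega⟩
  left_inv p := by
    have h := mem_boxF.1 p.2
    apply Subtype.ext
    apply Prod.ext
    · simp only []; omega
    · simp only []; omega
  right_inv x := by
    apply Prod.ext
    · apply Fin.ext; simp
    · apply Fin.ext; simp

/-- the interaction on a box -/
noncomputable def boxOp (B : Finset (ℤ × ℤ)) (h : Matrix (B → Fin d) (B → Fin d) ℂ) :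
    Pool.Agent.TH235.PP.BoxOp d (2 * rad B + 1) := fun s t =>
  enl (sub_boxF B) h (fun p => s (boxE (rad B) p)) (fun p => t (boxE (rad B) p))

lemma boxOp_herm (B : Finset (ℤ × ℤ)) {h : Matrix (B → Fin d) (B → Fin d) ℂ}
    (hh : h.IsHermitian) : (boxOp B h).IsHermitian := by
  have h1 := enl_herm (sub_boxF B) hh
  ext s t
  have h2 := congrFun (congrFun h1 (fun p => s (boxE (rad B) p))) (fun p => t (boxE (rad B) p))
  rw [Matrix.conjTranspose_apply] at h2 ⊢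
  exact h2

lemma sh_boxE {L : ℕ} (r : ℕ) (u : Site L) (p : boxF r) :
    Pool.Agent.TH235.PP.sh u (boxE r p) =
      toTorus L (p : ℤ × ℤ) + (u + (((r : ℕ) : ZMod L), ((r : ℕ) : ZMod L))) := by
  have h := mem_boxF.1 p.2
  have key : ∀ z : ℤ, -(r : ℤ) ≤ z → (((z + r).toNat : ℕ) : ZMod L) = (z : ZMod L) + ((r : ℕ) : ZMod L) := by
    intro z hz
    have h1 : (((z + r).toNat : ℕ) : ℤ) = z + r := by omega
    have h2 : ((((z + r).toNat : ℕ) : ℤ) : ZMod L) = ((z + r : ℤ) : ZMod L) := by rw [h1]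
    rw [Int.cast_natCast] at h2
    rw [h2]
    push_cast
    rfl
  unfold Pool.Agent.TH235.PP.sh toTorus
  apply Prod.ext
  · have h1 : ((boxE r p).1 : ℕ) = ((p : ℤ × ℤ).1 + r).toNat := rfl
    simp only [h1]
    rw [key _ h.1.1]
    simp only [Prod.fst_add]
    ring
  · have h1 : ((boxE r p).2 : ℕ) = ((p : ℤ × ℤ).2 + r).toNat := rfl
    simp only [h1]
    rw [key _ h.2.1]
    simp only [Prod.snd_add]
    ring

lemma term_boxOp (B : Finset (ℤ × ℤ)) (h : Matrix (B → Fin d) (B → Fin d) ℂ) {L : ℕ} [NeZero L]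
    (u : Site L) : Pool.Agent.TH235.PP.term (boxOp B h) u =
      term (boxF (rad B)) (enl (sub_boxF B) h) L
        (u + (((rad B : ℕ) : ZMod L), ((rad B : ℕ) : ZMod L))) := by
  ext s t
  unfold Pool.Agent.TH235.PP.term term boxOp
  have h1 : (∀ v, (∀ x : Fin (2 * rad B + 1) × Fin (2 * rad B + 1),
      Pool.Agent.TH235.PP.sh u x ≠ v) → s v = t v) ↔
      (∀ v, (∀ x : boxF (rad B), toTorus L (x : ℤ × ℤ) +
        (u + (((rad B : ℕ) : ZMod L), ((rad B : ℕ) : ZMod L))) ≠ v) → s v = t v) := by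
    apply forall_congr'
    intro v
    have h2 : (∀ x : Fin (2 * rad B + 1) × Fin (2 * rad B + 1),
        Pool.Agent.TH235.PP.sh u x ≠ v) ↔ (∀ x : boxF (rad B), toTorus L (x : ℤ × ℤ) +
        (u + (((rad B : ℕ) : ZMod L), ((rad B : ℕ) : ZMod L))) ≠ v) := by
      constructor
      · intro h x
        rw [← sh_boxE]
        exact h _
      · intro h x
        have := h ((boxE (rad B)).symm x)
        rw [← sh_boxE, Equiv.apply_symm_apply] at this
        exact this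
    rw [h2]
  by_cases hc : (∀ v, (∀ x : boxF (rad B), toTorus L (x : ℤ × ℤ) +
        (u + (((rad B : ℕ) : ZMod L), ((rad B : ℕ) : ZMod L))) ≠ v) → s v = t v)
  · rw [if_pos hc, if_pos (h1.2 hc)]
    congr 1
    · funext p
      exact congrArg s (sh_boxE (rad B) u p)
    · funext p
      exact congrArg t (sh_boxE (rad B) u p)
  · rw [if_neg hc, if_neg (fun h => hc (h1.1 h))]

lemma ham_boxOp (B : Finset (ℤ × ℤ)) (h : Matrix (B → Fin d) (B → Fin d) ℂ) {L : ℕ} [NeZero L]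
    (hL : 2 * rad B + 1 ≤ L) : Pool.Agent.TH235.PP.ham (boxOp B h) L = ham B h L := by
  have h1 := rad_boxF (rad B)
  rw [← ham_enl (sub_boxF B) h (by omega)]
  unfold Pool.Agent.TH235.PP.ham ham
  have h2 : ∀ u : Site L, Pool.Agent.TH235.PP.term (boxOp B h) u =
      term (boxF (rad B)) (enl (sub_boxF B) h) L
        (u + (((rad B : ℕ) : ZMod L), ((rad B : ℕ) : ZMod L))) := term_boxOp B h
  rw [Finset.sum_congr rfl fun u _ => h2 u]
  exact Fintype.sum_equiv (Equiv.addRight (((rad B : ℕ) : ZMod L), ((rad B : ℕ) : ZMod L))) _ _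
    fun u => rfl

/-- a family without instance argument -/
noncomputable def fam (ψ : ∀ (L : ℕ) [NeZero L], (Site L → Fin d) → ℂ) :
    ∀ L : ℕ, (Site L → Fin d) → ℂ := fun L =>
  if h : L = 0 then 0 else @ψ L ⟨h⟩

lemma fam_eq (ψ : ∀ (L : ℕ) [NeZero L], (Site L → Fin d) → ℂ) (L : ℕ) [h : NeZero L] :
    fam ψ L = ψ L := by
  unfold fam
  rw [dif_neg h.out]

lemma gapped_box {B : Finset (ℤ × ℤ)} {h : Matrix (B → Fin d) (B → Fin d) ℂ}
    (hh : h.IsHermitian) (ψ : ∀ (L : ℕ) [NeZero L], (Site L → Fin d) → ℂ)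
    (hgap : GappedFamily B h ψ) : ∃ Δ : ℝ,
    Pool.Agent.Results.MP_953b23_mp.OverlapBoosting.GappedFamily (boxOp B h) Δ (fam ψ) := by
  obtain ⟨Δ, hΔ, L₁, hL₁⟩ := hgap
  refine ⟨Δ, by omega, boxOp_herm B hh, hΔ, L₁ + 2 * rad B + 1, fun L _ hL => ?_⟩
  rw [fam_eq, ham_boxOp B h (by omega)]
  exact hL₁ L (by omega)

/-- the energy of a vector near the ground state -/
lemma near_energy {n : Type} [Fintype n] [DecidableEq n] {H : Matrix n n ℂ} (hH : H.IsHermitian)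
    {c : ℝ} (hB : Bd H c) {E : ℝ} {ψ : n → ℂ} (hψ : normSq ψ = 1)
    (hE : H.mulVec ψ = (E : ℂ) • ψ) (φ : n → ℂ) :
    (qf H φ).re ≤ E * normSq φ + 2 * c * normSq (φ - ψ) := by
  have hqE : qf H ψ = (E : ℂ) := by
    unfold qf
    rw [hE, ip_smul_right, ip_self, hψ]
    simp
  have hEc : |E| ≤ c := by
    have h1 := hB.qf_le ψ hψ
    rw [hqE, Complex.norm_real] at h1
    exact h1
  set χ := φ - ψ with hχ
  have hφ : φ = ψ + χ := by rw [hχ]; abel
  have h1 : qf H φ = qf H ψ + ((E : ℂ) * ip ψ χ + (E : ℂ) * ip χ ψ) + qf H χ := by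
    unfold qf
    rw [hφ, Matrix.mulVec_add, ip_add_left, ip_add_right, ip_add_right]
    have e1 : ip ψ (H.mulVec χ) = (E : ℂ) * ip ψ χ := by
      rw [← ip_mulVec hH, hE, ip_smul_left, Complex.conj_ofReal]
    have e2 : ip χ (H.mulVec ψ) = (E : ℂ) * ip χ ψ := by
      rw [hE, ip_smul_right]
    rw [e1, e2]
    ring
  have h2 : ((normSq φ : ℝ) : ℂ) = 1 + (ip ψ χ + ip χ ψ) + ((normSq χ : ℝ) : ℂ) := by
    rw [← ip_self, hφ, ip_add_left, ip_add_right, ip_add_right, ip_self, ip_self, hψ]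
    push_cast
    ring
  have h3 : qf H φ = (E : ℂ) * ((normSq φ : ℝ) : ℂ) + (qf H χ - (E : ℂ) * ((normSq χ : ℝ) : ℂ)) := by
    rw [h1, h2, hqE]
    ring
  have h4 : (qf H φ).re = E * normSq φ + ((qf H χ).re - E * normSq χ) := by
    rw [h3, Complex.add_re, Complex.re_ofReal_mul, Complex.sub_re, Complex.re_ofReal_mul,
      Complex.ofReal_re, Complex.ofReal_re]
  have h5 : (qf H χ).re ≤ c * normSq χ := by
    refine (Complex.re_le_norm _).trans ?_
    unfold qf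
    refine (ip_le _ _).trans ?_
    have h6 := mul_le_mul_of_nonneg_left (hB χ) (nm_nonneg χ)
    refine h6.trans (le_of_eq ?_)
    rw [← nm_sq χ]; ring
  have h6 : -(E * normSq χ) ≤ c * normSq χ := by
    have h7 : 0 ≤ normSq χ := Pool.Agent.H4R2.normSq_nonneg χ
    have h8 := (abs_le.mp hEc).1
    nlinarith only [h7, h8]
  rw [h4]
  linarith only [h5, h6]

lemma num_scale {C₁ C₀ q m ε l f : ℝ} {k : ℕ} (hk : 1 ≤ k) (hC₀ : 1 ≤ C₀) (hq : 1 ≤ q)
    (hε : 0 < ε) (hl : l = Real.log (1 / ε)) (hl2 : 1 / 2 ≤ l) (hm1 : 1 ≤ m)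
    (hm : m ≤ q * (1 / ε) ^ 2) (hf0 : 0 ≤ f) (hf : f ≤ Real.exp (C₁ * Real.log m ^ k)) :
    C₀ * (m / ε ^ 2) ^ 2 ≤ C₀ * q ^ 2 * (1 / ε) ^ 8 ∧
      C₀ * (m / ε ^ 2) ^ 2 * f ^ 4 ≤
        Real.exp ((2 ^ k * (2 * Real.log (C₀ * q ^ 2) + 8) +
          4 * |C₁| * (2 * Real.log q + 2) ^ k) * l ^ k) := by
  obtain ⟨y, hy⟩ : ∃ y : ℝ, y = 1 / ε := ⟨_, rfl⟩
  have hy0 : 0 < y := by rw [hy]; positivity
  have hyl : y = Real.exp l := by rw [hl, ← hy, Real.exp_log hy0]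
  have hlq : 0 ≤ Real.log q := Real.log_nonneg hq
  have hl0 : 0 < l := by linarith
  have h1 : m / ε ^ 2 = m * y ^ 2 := by rw [hy]; field_simp
  rw [← hy] at hm ⊢
  have h2 : m * y ^ 2 ≤ q * y ^ 4 := by
    calc m * y ^ 2 ≤ (q * y ^ 2) * y ^ 2 := mul_le_mul_of_nonneg_right hm (by positivity)
      _ = q * y ^ 4 := by ring
  have h3 : C₀ * (m / ε ^ 2) ^ 2 ≤ C₀ * q ^ 2 * y ^ 8 := by
    rw [h1]
    calc C₀ * (m * y ^ 2) ^ 2 ≤ C₀ * (q * y ^ 4) ^ 2 := by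
          apply mul_le_mul_of_nonneg_left _ (by linarith)
          exact pow_le_pow_left₀ (by positivity) h2 2
      _ = C₀ * q ^ 2 * y ^ 8 := by ring
  refine ⟨h3, ?_⟩
  have hCq : 1 ≤ C₀ * q ^ 2 := one_le_mul_of_one_le_of_one_le hC₀ (one_le_pow₀ hq)
  have hlCq : 0 ≤ Real.log (C₀ * q ^ 2) := Real.log_nonneg hCq
  have hlk : l ≤ 2 ^ k * l ^ k := by
    have h5 : 2 * l ≤ (2 * l) ^ k := le_self_pow₀ (by linarith) (by omega)
    rw [mul_pow] at h5
    linarith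
  have h4 : C₀ * q ^ 2 * y ^ 8 ≤ Real.exp (2 ^ k * (2 * Real.log (C₀ * q ^ 2) + 8) * l ^ k) := by
    have h5 : C₀ * q ^ 2 * y ^ 8 = Real.exp (Real.log (C₀ * q ^ 2) + 8 * l) := by
      rw [Real.exp_add, Real.exp_log (by linarith), hyl, ← Real.exp_nat_mul]
      norm_num
    rw [h5, Real.exp_le_exp]
    have h6 : Real.log (C₀ * q ^ 2) ≤ 2 * Real.log (C₀ * q ^ 2) * l := by
      nlinarith only [hlCq, hl2]
    have h7 : (2 * Real.log (C₀ * q ^ 2) + 8) * l ≤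
        (2 * Real.log (C₀ * q ^ 2) + 8) * (2 ^ k * l ^ k) :=
      mul_le_mul_of_nonneg_left hlk (by linarith)
    nlinarith only [h6, h7]
  have hlm : Real.log m ≤ (2 * Real.log q + 2) * l := by
    have h5 := Real.log_le_log (by linarith) hm
    rw [Real.log_mul (by linarith) (by positivity), Real.log_pow, hyl, Real.log_exp] at h5
    push_cast at h5
    have h6 : Real.log q ≤ 2 * Real.log q * l := by nlinarith only [hlq, hl2]
    nlinarith only [h5, h6]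
  have hlm0 : 0 ≤ Real.log m := Real.log_nonneg hm1
  have hf' : f ≤ Real.exp (|C₁| * (2 * Real.log q + 2) ^ k * l ^ k) := by
    refine hf.trans ?_
    rw [Real.exp_le_exp]
    have h5 : Real.log m ^ k ≤ ((2 * Real.log q + 2) * l) ^ k := pow_le_pow_left₀ hlm0 hlm k
    rw [mul_pow] at h5
    calc C₁ * Real.log m ^ k ≤ |C₁| * Real.log m ^ k :=
          mul_le_mul_of_nonneg_right (le_abs_self _) (by positivity)
      _ ≤ |C₁| * ((2 * Real.log q + 2) ^ k * l ^ k) :=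
          mul_le_mul_of_nonneg_left h5 (abs_nonneg _)
      _ = |C₁| * (2 * Real.log q + 2) ^ k * l ^ k := by ring
  have hf4 : f ^ 4 ≤ Real.exp (4 * |C₁| * (2 * Real.log q + 2) ^ k * l ^ k) := by
    refine (pow_le_pow_left₀ hf0 hf' 4).trans (le_of_eq ?_)
    rw [← Real.exp_nat_mul]
    congr 1
    push_cast
    ring
  calc C₀ * (m / ε ^ 2) ^ 2 * f ^ 4
      ≤ Real.exp (2 ^ k * (2 * Real.log (C₀ * q ^ 2) + 8) * l ^ k) *
          Real.exp (4 * |C₁| * (2 * Real.log q + 2) ^ k * l ^ k) :=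
        mul_le_mul (h3.trans h4) hf4 (by positivity) (Real.exp_pos _).le
    _ = _ := by
        rw [← Real.exp_add]
        congr 1
        ring

/-- global approximation by PEPS gives local approximation at the same scale -/
theorem local_of_approx {B R : Finset (ℤ × ℤ)} {h : Matrix (B → Fin d) (B → Fin d) ℂ}
    (hh : h.IsHermitian) (ψ : ∀ (L : ℕ) [NeZero L], (Site L → Fin d) → ℂ)
    (hgap : GappedFamily B h ψ)
    (hcr : ∃ C : ℝ, 1 ≤ C ∧ ∀ ε : ℝ, 0 < ε → ε ≤ 1 → ∀ (m : ℕ) [NeZero m], C / ε ^ 2 ≤ m →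
      ∀ (f : ℕ) (T : Site m → Tensor d f), contractN T ≠ 0 →
      (qf (ham B h m) (contractN T)).re ≤
        ((qf (ham B h m) (ψ m)).re + (m : ℝ) ^ 2 * (ε ^ 2 / C)) * normSq (contractN T) →
      ∃ (D : ℕ) (A : Tensor d D), (D : ℝ) ≤ C * (m / ε ^ 2) ^ 2 * (f : ℝ) ^ 4 ∧
        ∀ (L : ℕ) [NeZero L], C * (m / ε ^ 2) ^ 2 ≤ L →
          contract A L ≠ 0 ∧ traceNorm (redState R (ψ L) - redState R (contract A L)) ≤ ε)
    {k : ℕ} (hk : 1 ≤ k) {C₁ : ℝ}
    (hP : Pool.Agent.Results.MP_953b23_mp.OverlapBoosting.Approx (fam ψ) k C₁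
      fun L => (L : ℝ) ^ (-(1 : ℝ))) :
    ∃ C : ℝ, ∀ ε : ℝ, 0 < ε → ε ≤ 1 / 2 → ∃ (D : ℕ) (A : Tensor d D),
      (D : ℝ) ≤ Real.exp (C * Real.log (1 / ε) ^ k) ∧
        ∀ (L : ℕ) [NeZero L], C * (1 / ε) ^ 8 ≤ L →
          contract A L ≠ 0 ∧ traceNorm (redState R (ψ L) - redState R (contract A L)) ≤ ε := by
  obtain ⟨C₀, hC₀, hcr⟩ := hcr
  obtain ⟨L₂, hP⟩ := hP
  obtain ⟨Δ, hΔ, L₁, hL₁⟩ := hgap
  obtain ⟨s, hs⟩ : ∃ s : ℝ, s = size h := ⟨_, rfl⟩
  have hs0 : 0 ≤ s := by rw [hs]; exact size_nonneg _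
  have hC₀pos : 0 < C₀ := by linarith
  obtain ⟨q, hq⟩ : ∃ q : ℝ, q = (8 * s + 2) * C₀ + L₁ + L₂ + 4 := ⟨_, rfl⟩
  have hL₁0 : (0 : ℝ) ≤ L₁ := Nat.cast_nonneg _
  have hL₂0 : (0 : ℝ) ≤ L₂ := Nat.cast_nonneg _
  have hsC : 0 ≤ (8 * s + 2) * C₀ := by positivity
  have hq1 : 1 ≤ q := by rw [hq]; linarith
  obtain ⟨c₁, hc₁⟩ : ∃ c₁ : ℝ, c₁ = 2 ^ k * (2 * Real.log (C₀ * q ^ 2) + 8) +
    4 * |C₁| * (2 * Real.log q + 2) ^ k := ⟨_, rfl⟩
  refine ⟨max c₁ (C₀ * q ^ 2), ?_⟩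
  intro ε hε hε2
  have hε1 : ε ≤ 1 := by linarith
  have hεsq : 0 < ε ^ 2 := by positivity
  have hεsq1 : ε ^ 2 ≤ 1 := pow_le_one₀ hε.le hε1
  obtain ⟨y, hy⟩ : ∃ y : ℝ, y = 1 / ε := ⟨_, rfl⟩
  have hy1 : 1 ≤ y := by rw [hy, le_div_iff₀ hε]; linarith
  have hysq1 : 1 ≤ y ^ 2 := one_le_pow₀ hy1
  obtain ⟨m, hm⟩ : ∃ m : ℕ, m = ⌈(8 * s + 2) * C₀ * y ^ 2⌉₊ + L₁ + L₂ + 3 := ⟨_, rfl⟩
  have hm0 : NeZero m := ⟨by omega⟩
  have hmpos : (0 : ℝ) < m := by
    have : 0 < m := by omega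
    exact_mod_cast this
  have hm1 : (1 : ℝ) ≤ m := by
    have : 1 ≤ m := by omega
    exact_mod_cast this
  have hm2 : (2 : ℝ) ≤ m := by
    have : 2 ≤ m := by omega
    exact_mod_cast this
  have hmlow : (8 * s + 2) * C₀ * y ^ 2 ≤ m := by
    rw [hm]
    push_cast
    have h1 := Nat.le_ceil ((8 * s + 2) * C₀ * y ^ 2)
    linarith
  have hmup : (m : ℝ) ≤ q * y ^ 2 := by
    rw [hm, hq]
    push_cast
    have h1 := ceil_le' ((8 * s + 2) * C₀ * y ^ 2) (by positivity)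
    nlinarith only [h1, hL₁0, hL₂0, hysq1]
  have hmC : C₀ / ε ^ 2 ≤ m := by
    have h1 : C₀ / ε ^ 2 = C₀ * y ^ 2 := by rw [hy]; field_simp
    rw [h1]
    refine le_trans ?_ hmlow
    apply mul_le_mul_of_nonneg_right _ (by positivity)
    nlinarith only [hs0, hC₀pos]
  obtain ⟨D', P, hD', ⟨A, hA⟩, hclose⟩ := hP m (by omega)
  rw [fam_eq] at hclose
  obtain ⟨f1, f2⟩ := hL₁ m (by omega)
  obtain ⟨E, e1, e2⟩ := isGround_of_gapped (ham_herm B hh) hΔ.le f2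
  have hn0 : 0 ≤ normSq (P - ψ m) := Pool.Agent.H4R2.normSq_nonneg _
  have hdist : normSq (P - ψ m) ≤ 1 / (m : ℝ) ^ 2 := by
    have h1 : (Real.sqrt (normSq (P - ψ m))) ^ 2 ≤ ((m : ℝ) ^ (-(1 : ℝ))) ^ 2 :=
      pow_le_pow_left₀ (Real.sqrt_nonneg _) hclose 2
    rw [Real.sq_sqrt hn0, Real.rpow_neg_one, inv_pow, ← one_div] at h1
    exact h1
  have hnmP : 1 / 2 ≤ nm P := by
    have h1 : nm (P - ψ m) ≤ 1 / 2 := by
      have h2 : nm (P - ψ m) ^ 2 ≤ (1 / 2) ^ 2 := by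
        rw [nm_sq]
        refine hdist.trans ?_
        rw [div_le_iff₀ (by positivity)]
        nlinarith only [hm2]
      exact (pow_le_pow_iff_left₀ (nm_nonneg _) (by norm_num) (by norm_num)).1 h2
    have h3 : nm (ψ m) = 1 := by unfold nm; rw [f1, Real.sqrt_one]
    have h4 := nm_sub P (P - ψ m)
    rw [sub_sub_cancel, h3] at h4
    linarith only [h1, h4]
  have hPn : 1 / 4 ≤ normSq P := by
    rw [← nm_sq]
    nlinarith only [hnmP]
  have hcon : contractN (fun (x : Site m) (s : Fin d) (l r up dn : Fin D') => A x s l r dn up) = P := by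
    rw [hA]; rfl
  have hPne : P ≠ 0 := by
    intro h0
    rw [h0] at hPn
    simp [normSq] at hPn
    norm_num at hPn
  have hen : (qf (ham B h m) P).re ≤
      ((qf (ham B h m) (ψ m)).re + (m : ℝ) ^ 2 * (ε ^ 2 / C₀)) * normSq P := by
    have hEe : (qf (ham B h m) (ψ m)).re = E := by
      unfold qf
      rw [e1, ip_smul_right, ip_self, f1]
      simp
    rw [hEe]
    have h1 := near_energy (ham_herm B hh) (ham_bd B h) f1 e1 P
    rw [← hs] at h1
    refine h1.trans ?_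
    have h2 : 2 * ((m : ℝ) ^ 2 * s) * normSq (P - ψ m) ≤ 2 * s := by
      have h3 := mul_le_mul_of_nonneg_left hdist
        (by positivity : (0 : ℝ) ≤ 2 * ((m : ℝ) ^ 2 * s))
      refine h3.trans (le_of_eq ?_)
      field_simp
    have h3 : 2 * s ≤ (m : ℝ) ^ 2 * (ε ^ 2 / C₀) * normSq P := by
      have h4 : 8 * s ≤ (m : ℝ) ^ 2 * (ε ^ 2 / C₀) := by
        have h5 : (8 * s + 2) * C₀ * y ^ 2 * (ε ^ 2 / C₀) = 8 * s + 2 := by
          rw [hy]; field_simp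
        have h6 : 8 * s + 2 ≤ m * (ε ^ 2 / C₀) := by
          rw [← h5]
          exact mul_le_mul_of_nonneg_right hmlow (by positivity)
        have h7 : (m : ℝ) * (ε ^ 2 / C₀) ≤ (m : ℝ) ^ 2 * (ε ^ 2 / C₀) :=
          mul_le_mul_of_nonneg_right (le_self_pow₀ hm1 (by norm_num)) (by positivity)
        linarith only [h6, h7]
      have h5 : 0 ≤ (m : ℝ) ^ 2 * (ε ^ 2 / C₀) := by positivity
      nlinarith only [h4, h5, hPn]
    rw [add_mul]
    linarith only [h2, h3]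
  obtain ⟨D, A', hD, hA'⟩ := hcr ε hε hε1 m hmC D'
    (fun (x : Site m) (s : Fin d) (l r up dn : Fin D') => A x s l r dn up)
    (by rw [hcon]; exact hPne) (by rw [hcon]; exact hen)
  have hl2 : 1 / 2 ≤ Real.log (1 / ε) := by
    have h1 : Real.log 2 ≤ Real.log (1 / ε) := by
      apply Real.log_le_log (by norm_num)
      rw [le_div_iff₀ hε]; linarith
    have := Real.log_two_gt_d9
    linarith
  obtain ⟨n1, n2⟩ := num_scale (C₁ := C₁) hk hC₀ hq1 hε rfl hl2 hm1 (by rw [← hy]; exact hmup)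
    (Nat.cast_nonneg D') hD'
  refine ⟨D, A', hD.trans (n2.trans ?_), fun L _ hL => hA' L (n1.trans (le_trans ?_ hL))⟩
  · rw [Real.exp_le_exp, ← hc₁]
    exact mul_le_mul_of_nonneg_right (le_max_left _ _) (by positivity)
  · exact mul_le_mul_of_nonneg_right (le_max_right _ _) (by positivity)

end Pool.Agent.K3h59.PE
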