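import Mathlib
import Pool.Agent.K3h59.PE.Equiv

set_option autoImplicit false
set_option linter.unusedSectionVars false

open scoped BigOperators Topology ComplexOrder
open Finset Filter MeasureTheory
open Pool.Agent.H4R2 Pool.Agent.Y665.PE

/-!
# The quadratic lower bound holds at almost every interaction
-/

namespace Pool.Agent.K3h59.PE

/-- a convex function on the line has bounded second differences at almost every point -/
lemma convex_second {f : ℝ → ℝ} (hf : ConvexOn ℝ Set.univ f) :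
    ∀ᵐ t : ℝ, ∃ K : ℝ, ∃ δ : ℝ, 0 < δ ∧ ∀ T : ℝ, 0 < T → T ≤ δ →
      f (t + T) + f (t - T) - 2 * f t ≤ K * T ^ 2 := by
  set D : ℝ → ℝ := fun t => derivWithin f (Set.Ioi t) t with hD
  have hmono : Monotone D := by
    have h1 := hf.monotoneOn_rightDeriv
    rw [interior_univ] at h1
    exact monotoneOn_univ.1 h1
  filter_upwards [hmono.ae_differentiableAt] with t ht
  have hder := ht.hasDerivAt
  set b := deriv D t with hb
  rw [hasDerivAt_iff_isLittleO, Asymptotics.isLittleO_iff] at hder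
  have h1 := hder (c := 1) one_pos
  rw [Metric.eventually_nhds_iff] at h1
  obtain ⟨r, hr, h1⟩ := h1
  have h2 : ∀ s : ℝ, |s| < r → |D (t + s) - D t| ≤ (|b| + 1) * |s| := by
    intro s hs
    have h3 := h1 (y := t + s) (by rw [Real.dist_eq]; simpa using hs)
    rw [Real.norm_eq_abs, Real.norm_eq_abs, smul_eq_mul, add_sub_cancel_left] at h3
    have h4 : D (t + s) - D t = (D (t + s) - D t - s * b) + s * b := by ring
    rw [h4]
    refine (abs_add_le _ _).trans ?_
    rw [abs_mul s b]
    nlinarith only [h3, abs_nonneg s, abs_nonneg b]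
  refine ⟨2 * (|b| + 1), r / 2, by positivity, fun T hT hTr => ?_⟩
  have hTlt : |T| < r := by rw [abs_of_pos hT]; linarith
  have k1 : f (t + T) - f t ≤ T * D (t + T) := by
    have e1 := hf.slope_le_leftDeriv_of_mem_interior (x := t) (y := t + T) (Set.mem_univ _)
      (by rw [interior_univ]; exact Set.mem_univ _) (by linarith)
    have e2 := hf.leftDeriv_le_rightDeriv_of_mem_interior (x := t + T)
      (by rw [interior_univ]; exact Set.mem_univ _)
    have e3 : slope f t (t + T) ≤ D (t + T) := e1.trans e2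
    rw [slope_def_field, add_sub_cancel_left, div_le_iff₀ hT] at e3
    linarith
  have k2 : T * D (t - T) ≤ f t - f (t - T) := by
    have e1 := hf.rightDeriv_le_slope_of_mem_interior (x := t - T) (y := t)
      (by rw [interior_univ]; exact Set.mem_univ _) (Set.mem_univ _) (by linarith)
    have e3 : D (t - T) ≤ slope f (t - T) t := e1
    rw [slope_def_field, sub_sub_cancel, le_div_iff₀ hT] at e3
    linarith
  have k3 := (abs_le.mp (h2 T hTlt)).2
  have k4 := (abs_le.mp (h2 (-T) (by rw [abs_neg]; exact hTlt))).1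
  rw [abs_neg, ← sub_eq_add_neg] at k4
  rw [abs_of_pos hT] at k3 k4
  have k5 : D (t + T) - D (t - T) ≤ 2 * (|b| + 1) * T := by linarith
  have k6 := mul_le_mul_of_nonneg_left k5 hT.le
  nlinarith only [k1, k2, k6]

section measure

variable {E : Type*} [NormedAddCommGroup E] [NormedSpace ℝ E] [FiniteDimensional ℝ E]
  [MeasurableSpace E] [BorelSpace E]

/-- the second differences of `F` at `x` in the direction `v` have a quadratic lower bound -/
def SD (F : E → ℝ) (v : E) : Set E :=
  {x | ∃ K j : ℕ, ∀ T : ℝ, 0 < T → T ≤ 1 / ((j : ℝ) + 1) →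
    -((K : ℝ) * T ^ 2) ≤ F (x + T • v) + F (x - T • v) - 2 * F x}

lemma measurable_SD {F : E → ℝ} (hF : Continuous F) (v : E) : MeasurableSet (SD F v) := by
  have h1 : SD F v = ⋃ K : ℕ, ⋃ j : ℕ, {x | ∀ T : ℝ, 0 < T → T ≤ 1 / ((j : ℝ) + 1) →
      -((K : ℝ) * T ^ 2) ≤ F (x + T • v) + F (x - T • v) - 2 * F x} := by
    ext x
    simp only [SD, Set.mem_setOf_eq, Set.mem_iUnion]
  rw [h1]
  refine MeasurableSet.iUnion fun K => MeasurableSet.iUnion fun j => ?_
  apply IsClosed.measurableSet
  have h2 : {x | ∀ T : ℝ, 0 < T → T ≤ 1 / ((j : ℝ) + 1) →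
      -((K : ℝ) * T ^ 2) ≤ F (x + T • v) + F (x - T • v) - 2 * F x} =
      ⋂ T : ℝ, ⋂ _ : 0 < T, ⋂ _ : T ≤ 1 / ((j : ℝ) + 1),
        {x | -((K : ℝ) * T ^ 2) ≤ F (x + T • v) + F (x - T • v) - 2 * F x} := by
    ext x
    simp only [Set.mem_setOf_eq, Set.mem_iInter]
  rw [h2]
  refine isClosed_iInter fun T => isClosed_iInter fun _ => isClosed_iInter fun _ => ?_
  apply isClosed_le continuous_const
  fun_prop

lemma ae_SD {F : E → ℝ} (hF : Continuous F) (hc : ConcaveOn ℝ Set.univ F) (v : E)
    (μ : Measure E) [μ.IsAddHaarMeasure] : ∀ᵐ x ∂μ, x ∈ SD F v := by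
  let L : ℝ →L[ℝ] E := ContinuousLinearMap.smulRight (1 : ℝ →L[ℝ] ℝ) v
  suffices A : ∀ p : E, ∀ᵐ (t : ℝ) ∂volume, p + t • v ∈ SD F v from
    ae_mem_of_ae_add_linearMap_mem L.toLinearMap volume μ (measurable_SD hF v) A
  intro p
  have hconv : ConvexOn ℝ Set.univ (fun t : ℝ => -F (p + t • v)) := by
    refine ⟨convex_univ, fun s _ t _ a b ha hb hab => ?_⟩
    have h1 := hc.2 (Set.mem_univ (p + s • v)) (Set.mem_univ (p + t • v)) ha hb hab
    have h2 : a • (p + s • v) + b • (p + t • v) = p + (a • s + b • t) • v := by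
      have h3 : p = a • p + b • p := by rw [← add_smul, hab, one_smul]
      rw [smul_add, smul_add, add_smul]
      conv_rhs => rw [h3]
      simp only [smul_smul, smul_eq_mul]
      abel
    rw [h2] at h1
    simp only [smul_eq_mul] at h1 ⊢
    linarith
  filter_upwards [convex_second hconv] with t ht
  obtain ⟨K, δ, hδ, hK⟩ := ht
  obtain ⟨j, hj⟩ := exists_nat_one_div_lt hδ
  obtain ⟨k, hk⟩ := exists_nat_ge K
  refine ⟨k, j, fun T hT hTj => ?_⟩
  have h1 := hK T hT (hTj.trans hj.le)
  have h2 : p + t • v + T • v = p + (t + T) • v := by rw [add_smul]; abel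
  have h3 : p + t • v - T • v = p + (t - T) • v := by rw [sub_smul]; abel
  rw [h2, h3]
  have h4 : K * T ^ 2 ≤ k * T ^ 2 := mul_le_mul_of_nonneg_right hk (by positivity)
  linarith

end measure

variable {d : ℕ}

lemma low_concave (hd : 2 ≤ d) (R : Finset (ℤ × ℤ)) :
    ConcaveOn ℝ Set.univ (low (limStates d R)) := by
  refine ⟨convex_univ, fun x _ y _ a b ha hb hab => ?_⟩
  have h0 : low (limStates d R) (a • x + b • y) =
      sInf ((fun ρ => lin ρ (a • x + b • y)) '' (limStates d R)) := rfl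
  rw [h0]
  apply le_csInf ((limStates_nonempty hd R).image _)
  rintro _ ⟨ρ, hρ, rfl⟩
  simp only []
  rw [map_add, map_smul, map_smul]
  have h1 := low_le (limStates_bound R) x hρ
  have h2 := low_le (limStates_bound R) y hρ
  simp only [smul_eq_mul]
  have h3 := mul_le_mul_of_nonneg_left h1 ha
  have h4 := mul_le_mul_of_nonneg_left h2 hb
  linarith

/-- the least energy per site is attained by a limit state -/
lemma exists_minimizer (hd : 2 ≤ d) (R : Finset (ℤ × ℤ)) (x : (R → Fin d) → (R → Fin d) → ℝ) :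
    ∃ ρ ∈ limStates d R, lin ρ x = low (limStates d R) x := by
  have h1 : ∀ k : ℕ, ∃ ρ ∈ limStates d R, lin ρ x < low (limStates d R) x + 1 / ((k : ℝ) + 1) := by
    intro k
    obtain ⟨_, ⟨ρ, hρ, rfl⟩, hρ2⟩ := exists_lt_of_csInf_lt
      ((limStates_nonempty hd R).image (fun ρ => lin ρ x))
      (show sInf ((fun ρ => lin ρ x) '' (limStates d R)) <
        low (limStates d R) x + 1 / ((k : ℝ) + 1) by
          have : 0 < 1 / ((k : ℝ) + 1) := by positivity
          unfold low; linarith)
    exact ⟨ρ, hρ, hρ2⟩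
  choose ρ hρ hρ2 using h1
  let r : ℕ → ((R → Fin d) → (R → Fin d) → ℂ) := fun k => ρ k
  obtain ⟨a, _, φ, hφ, hlim⟩ := tendsto_subseq_of_bounded
    (s := Metric.closedBall (0 : (R → Fin d) → (R → Fin d) → ℂ) 2) Metric.isBounded_closedBall
    (x := r) (fun k => by
      rw [mem_closedBall_zero_iff]
      refine (pi_norm_le_iff_of_nonneg (by norm_num)).2 fun i => ?_
      exact (pi_norm_le_iff_of_nonneg (by norm_num)).2 fun j =>
        limStates_bound R (ρ k) (hρ k) i j)
  have hclose : ∀ ε : ℝ, 0 < ε → ∃ N : ℕ, ∀ k : ℕ, N ≤ k → ∀ i j, ‖ρ (φ k) i j - a i j‖ ≤ ε := by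
    intro ε hε
    rw [Metric.tendsto_atTop] at hlim
    obtain ⟨N, hN⟩ := hlim ε hε
    refine ⟨N, fun k hk i j => ?_⟩
    have h2 := (hN k hk).le
    rw [dist_eq_norm] at h2
    have h3 : ‖(r (φ k) - a) i j‖ ≤ ε :=
      ((norm_le_pi_norm ((r (φ k) - a) i) j).trans (norm_le_pi_norm (r (φ k) - a) i)).trans h2
    exact h3
  refine ⟨a, ?_, ?_⟩
  · intro ε hε
    obtain ⟨N, hN⟩ := hclose (ε / 2) (by positivity)
    obtain ⟨L₀, hL₀⟩ := hρ (φ N) (ε / 2) (by positivity)
    refine ⟨L₀, fun L _ hL => ?_⟩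
    obtain ⟨χ, c1, c2, c3⟩ := hL₀ L hL
    refine ⟨χ, c1, c2, fun i j => ?_⟩
    have h4 : redState R χ i j - a i j = (redState R χ i j - ρ (φ N) i j) +
        (ρ (φ N) i j - a i j) := by ring
    have h5 : ‖redState R χ i j - a i j‖ ≤ ε / 2 + ε / 2 := by
      rw [h4]
      exact (norm_add_le _ _).trans (add_le_add (c3 i j) (hN N le_rfl i j))
    linarith
  · have hmem : (a : Matrix (R → Fin d) (R → Fin d) ℂ) ∈ limStates d R := by
      intro ε hε
      obtain ⟨N, hN⟩ := hclose (ε / 2) (by positivity)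
      obtain ⟨L₀, hL₀⟩ := hρ (φ N) (ε / 2) (by positivity)
      refine ⟨L₀, fun L _ hL => ?_⟩
      obtain ⟨χ, c1, c2, c3⟩ := hL₀ L hL
      refine ⟨χ, c1, c2, fun i j => ?_⟩
      have h4 : redState R χ i j - a i j = (redState R χ i j - ρ (φ N) i j) +
          (ρ (φ N) i j - a i j) := by ring
      have h5 : ‖redState R χ i j - a i j‖ ≤ ε / 2 + ε / 2 := by
        rw [h4]
        exact (norm_add_le _ _).trans (add_le_add (c3 i j) (hN N le_rfl i j))
      linarith
    apply le_antisymm _ (low_le (limStates_bound R) x hmem)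
    apply le_of_forall_pos_le_add
    intro ε hε
    have hs := size_nonneg (herm x)
    obtain ⟨N, hN⟩ := hclose (ε / (2 * (size (herm x) + 1))) (by positivity)
    obtain ⟨k, hk⟩ := exists_nat_one_div_lt (show (0 : ℝ) < ε / 2 by positivity)
    set n := max N k with hn
    have h6 := hN n (le_max_left _ _)
    have h7 := abs_le.mp (pair_le (herm x) _ _ _ h6)
    have h8 : (∑ i, ∑ j, ‖herm x i j‖) = size (herm x) := rfl
    rw [h8] at h7
    have h9 := hρ2 (φ n)
    have h10 : 1 / ((φ n : ℝ) + 1) ≤ 1 / ((k : ℝ) + 1) := by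
      apply one_div_le_one_div_of_le (by positivity)
      have : k ≤ φ n := (le_max_right N k).trans (hφ.id_le n)
      have : (k : ℝ) ≤ φ n := by exact_mod_cast this
      linarith
    have h11 : size (herm x) * (ε / (2 * (size (herm x) + 1))) ≤ ε / 2 := by
      rw [mul_div_assoc', div_le_div_iff₀ (by positivity) (by norm_num)]
      nlinarith
    rw [lin_apply] at h9
    change (pair (herm x) (a : Matrix (R → Fin d) (R → Fin d) ℂ)).re ≤ _
    linarith [h7.1]

/-- second differences in the coordinate directions give the quadratic bound -/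
lemma qb_of_sd (hd : 2 ≤ d) (R : Finset (ℤ × ℤ)) (x : (R → Fin d) → (R → Fin d) → ℝ)
    (hx : ∀ a b : R → Fin d, x ∈ SD (low (limStates d R)) (Pi.single a (Pi.single b 1)))
    {ρ : Matrix (R → Fin d) (R → Fin d) ℂ} (hρ : ρ ∈ limStates d R)
    (hmin : lin ρ x = low (limStates d R) x) : QB R x ρ := by
  classical
  set F := low (limStates d R) with hF
  -- one coordinate direction, both signs
  have h1 : ∀ i : (R → Fin d) × (R → Fin d), ∃ δ : ℝ, 0 < δ ∧ ∃ K : ℝ, 0 ≤ K ∧ ∀ s : ℝ, |s| ≤ δ →
      F x + s * lin ρ (Pi.single i.1 (Pi.single i.2 1)) - K * s ^ 2 ≤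
        F (x + s • (Pi.single i.1 (Pi.single i.2 1) : (R → Fin d) → (R → Fin d) → ℝ)) := by
    intro i
    obtain ⟨K, j, hK⟩ := hx i.1 i.2
    set e : (R → Fin d) → (R → Fin d) → ℝ := Pi.single i.1 (Pi.single i.2 1) with he
    refine ⟨1 / ((j : ℝ) + 1), by positivity, K, Nat.cast_nonneg K, fun s hs => ?_⟩
    have up : ∀ t : ℝ, F (x + t • e) ≤ F x + t * lin ρ e := by
      intro t
      have h2 := low_le (limStates_bound R) (x + t • e) hρ
      rw [map_add, map_smul, smul_eq_mul, hmin] at h2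
      exact h2
    rcases lt_trichotomy s 0 with h0 | h0 | h0
    · have h3 := hK (-s) (by linarith) (by rw [abs_of_neg h0] at hs; exact hs)
      have e1 : x + (-s) • e = x + (-s) • e := rfl
      have e2 : x - (-s) • e = x + s • e := by rw [neg_smul]; abel
      rw [e2] at h3
      have h4 := up (-s)
      have e3 : (-s) ^ 2 = s ^ 2 := by ring
      rw [e3] at h3
      linarith
    · rw [h0]; simp
    · have h3 := hK s h0 (by rw [abs_of_pos h0] at hs; exact hs)
      have e2 : x - s • e = x + (-s) • e := by rw [neg_smul]; abel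
      rw [e2] at h3
      have h4 := up (-s)
      linarith
  choose δ hδ K hK0 hK using h1
  intro v
  have hne : Nonempty ((R → Fin d) × (R → Fin d)) := by
    have : 0 < d := by omega
    exact ⟨(fun _ => ⟨0, this⟩, fun _ => ⟨0, this⟩)⟩
  set N : ℝ := (Fintype.card ((R → Fin d) × (R → Fin d)) : ℝ) with hN
  have hN0 : 0 < N := by
    rw [hN]
    exact_mod_cast Fintype.card_pos
  obtain ⟨i₀, _, hi₀⟩ := Finset.exists_min_image (Finset.univ : Finset ((R → Fin d) × (R → Fin d))) δ
    (Finset.univ_nonempty)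
  set δ₀ := δ i₀ with hδ₀
  have hδ₀pos : 0 < δ₀ := hδ i₀
  refine ⟨δ₀ / (N * (‖v‖ + 1)), by positivity, ∑ i : (R → Fin d) × (R → Fin d), N * K i * (v i.1 i.2) ^ 2, ?_⟩
  intro T hT hTδ
  have hsmall : ∀ i : (R → Fin d) × (R → Fin d), |N * T * v i.1 i.2| ≤ δ i := by
    intro i
    have h2 : |v i.1 i.2| ≤ ‖v‖ := (norm_le_pi_norm (v i.1) i.2).trans (norm_le_pi_norm v i.1)
    rw [abs_mul, abs_mul, abs_of_pos hN0, abs_of_pos hT]
    rw [le_div_iff₀ (by positivity)] at hTδ
    have h3 : N * T * |v i.1 i.2| ≤ N * T * (‖v‖ + 1) :=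
      mul_le_mul_of_nonneg_left (by linarith) (by positivity)
    have h4 := hi₀ i (mem_univ i)
    linarith
  have hJ := (low_concave hd R).le_map_sum (t := (Finset.univ : Finset ((R → Fin d) × (R → Fin d))))
    (w := fun _ => 1 / N)
    (p := fun i => x + (N * T * v i.1 i.2) •
      (Pi.single i.1 (Pi.single i.2 1) : (R → Fin d) → (R → Fin d) → ℝ))
    (fun i _ => by positivity) (by
      rw [Finset.sum_const, Finset.card_univ, nsmul_eq_mul, ← hN]
      field_simp) (fun i _ => Set.mem_univ _)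
  have hpt : (∑ i : (R → Fin d) × (R → Fin d), (1 / N) • (x + (N * T * v i.1 i.2) •
      (Pi.single i.1 (Pi.single i.2 1) : (R → Fin d) → (R → Fin d) → ℝ))) = x + T • v := by
    have hv : v = ∑ i : (R → Fin d) × (R → Fin d), v i.1 i.2 •
        (Pi.single i.1 (Pi.single i.2 1) : (R → Fin d) → (R → Fin d) → ℝ) := by
      funext a b
      rw [Finset.sum_apply, Finset.sum_apply, Finset.sum_eq_single (a, b)]
      · simp
      · rintro ⟨a', b'⟩ _ hab
        by_cases ha : a' = a
        · subst ha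
          have hb : b' ≠ b := fun h => hab (by rw [h])
          simp [hb.symm]
        · have ha' : a ≠ a' := fun h => ha h.symm
          simp [ha']
      · intro h; exact absurd (mem_univ _) h
    have h2 : ∀ i : (R → Fin d) × (R → Fin d), (1 / N) • (x + (N * T * v i.1 i.2) •
        (Pi.single i.1 (Pi.single i.2 1) : (R → Fin d) → (R → Fin d) → ℝ)) =
        (1 / N) • x + T • (v i.1 i.2 •
          (Pi.single i.1 (Pi.single i.2 1) : (R → Fin d) → (R → Fin d) → ℝ)) := by
      intro i
      rw [smul_add, smul_smul, smul_smul]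
      congr 2
      field_simp
    rw [Finset.sum_congr rfl fun i _ => h2 i, Finset.sum_add_distrib, Finset.sum_const,
      Finset.card_univ, ← Finset.smul_sum, ← hv]
    congr 1
    rw [← Nat.cast_smul_eq_nsmul ℝ, ← hN, smul_smul]
    have : N * (1 / N) = 1 := by field_simp
    rw [this, one_smul]
  rw [hpt] at hJ
  refine le_trans ?_ hJ
  have hterm : ∀ i : (R → Fin d) × (R → Fin d), (1 / N) * (F x + (N * T * v i.1 i.2) *
      lin ρ (Pi.single i.1 (Pi.single i.2 1)) - K i * (N * T * v i.1 i.2) ^ 2) ≤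
      (1 / N) • F (x + (N * T * v i.1 i.2) •
        (Pi.single i.1 (Pi.single i.2 1) : (R → Fin d) → (R → Fin d) → ℝ)) := by
    intro i
    rw [smul_eq_mul]
    exact mul_le_mul_of_nonneg_left (hK i _ (hsmall i)) (by positivity)
  refine le_trans (le_of_eq ?_) (Finset.sum_le_sum fun i _ => hterm i)
  have hlin : lin ρ v = ∑ i : (R → Fin d) × (R → Fin d), v i.1 i.2 * lin ρ (Pi.single i.1 (Pi.single i.2 1)) := by
    have hv : v = ∑ i : (R → Fin d) × (R → Fin d), v i.1 i.2 •
        (Pi.single i.1 (Pi.single i.2 1) : (R → Fin d) → (R → Fin d) → ℝ) := by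
      funext a b
      rw [Finset.sum_apply, Finset.sum_apply, Finset.sum_eq_single (a, b)]
      · simp
      · rintro ⟨a', b'⟩ _ hab
        by_cases ha : a' = a
        · subst ha
          have hb : b' ≠ b := fun h => hab (by rw [h])
          simp [hb.symm]
        · have ha' : a ≠ a' := fun h => ha h.symm
          simp [ha']
      · intro h; exact absurd (mem_univ _) h
    conv_lhs => rw [hv]
    rw [map_sum]
    refine Finset.sum_congr rfl fun i _ => ?_
    rw [map_smul, smul_eq_mul]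
  have h3 : ∀ i : (R → Fin d) × (R → Fin d), (1 / N) * (F x + (N * T * v i.1 i.2) *
      lin ρ (Pi.single i.1 (Pi.single i.2 1)) - K i * (N * T * v i.1 i.2) ^ 2) =
      (1 / N) * F x + T * (v i.1 i.2 * lin ρ (Pi.single i.1 (Pi.single i.2 1))) -
        (N * K i * (v i.1 i.2) ^ 2) * T ^ 2 := by
    intro i
    field_simp
  rw [Finset.sum_congr rfl fun i _ => h3 i, Finset.sum_sub_distrib, Finset.sum_add_distrib,
    Finset.sum_const, Finset.card_univ, nsmul_eq_mul, ← hN, ← Finset.mul_sum, ← hlin,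
    ← Finset.sum_mul]
  have h4 : N * (1 / N * F x) = F x := by field_simp
  rw [h4]

/-- **The quadratic lower bound holds at Lebesgue almost every interaction.** -/
theorem generic_QB (hd : 2 ≤ d) (R : Finset (ℤ × ℤ)) :
    ∀ᵐ x : (R → Fin d) → (R → Fin d) → ℝ, ∃ ρ ∈ limStates d R,
      ρ.IsHermitian ∧ lin ρ x = low (limStates d R) x ∧ QB R x ρ := by
  have hcont : Continuous (low (limStates d R)) :=
    (low_lipschitz (limStates_bound (d := d) R) (limStates_nonempty hd R)).continuous
  have h1 : ∀ᵐ x : (R → Fin d) → (R → Fin d) → ℝ, ∀ a b : R → Fin d,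
      x ∈ SD (low (limStates d R)) (Pi.single a (Pi.single b 1)) := by
    rw [ae_all_iff]
    intro a
    rw [ae_all_iff]
    intro b
    exact ae_SD hcont (low_concave hd R) _ volume
  filter_upwards [h1] with x hx
  obtain ⟨ρ, hρ, hmin⟩ := exists_minimizer hd R x
  exact ⟨ρ, hρ, limStates_herm R ρ hρ, hmin, qb_of_sd hd R x hx hρ hmin⟩

end Pool.Agent.K3h59.PE
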