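import Mathlib
import Pool.Agent.Y665.PE.F1
import Pool.Agent.K3h59.PE.Generic

set_option autoImplicit false
set_option linter.unusedSectionVars false

open scoped BigOperators Topology ComplexOrder
open Finset Filter MeasureTheory
open Pool.Agent.H4R2 Pool.Agent.Y665.PE

/-!
# Rates and the energy criterion at almost every interaction
-/

namespace Pool.Agent.K3h59.PE

section least

variable {n : Type} [Fintype n] [DecidableEq n] [Nonempty n]

/-- a Hermitian matrix has a least eigenvalue -/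
lemma exists_least {H : Matrix n n ℂ} (hH : H.IsHermitian) : ∃ E : ℝ, IsLeast' H E := by
  obtain ⟨e, lam, he, hn, hN, hQ⟩ := exists_coord hH
  obtain ⟨i₀, _, hi₀⟩ := Finset.exists_min_image (Finset.univ : Finset n) lam univ_nonempty
  have hne : ∀ i, e i ≠ 0 := by
    intro i h0
    have := hn i
    rw [h0] at this
    simp [normSq] at this
  refine ⟨lam i₀, ⟨e i₀, hne i₀, he i₀⟩, ?_⟩
  intro E' φ hφ hE
  have h1 : (qf H φ).re = E' * normSq φ := by
    unfold qf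
    rw [hE, ip_smul_right, ip_self, ← Complex.ofReal_mul, Complex.ofReal_re]
  have h2 : lam i₀ * normSq φ ≤ (qf H φ).re := by
    rw [hQ, Complex.ofReal_re, hN, Finset.mul_sum]
    exact Finset.sum_le_sum fun i _ =>
      mul_le_mul_of_nonneg_right (hi₀ i (mem_univ i)) (sq_nonneg _)
  rw [h1] at h2
  exact le_of_mul_le_mul_right h2 (normSq_pos_of_ne hφ)

end least

variable {d : ℕ}

/-- every torus has a translation invariant ground vector -/
lemma exists_tiGround (hd : 2 ≤ d) (R : Finset (ℤ × ℤ)) (x : (R → Fin d) → (R → Fin d) → ℝ)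
    (L : ℕ) [NeZero L] : ∃ φ : (Site L → Fin d) → ℂ, TIGround (ham R (herm x) L) φ := by
  have : Nonempty (Site L → Fin d) := ⟨fun _ => ⟨0, by omega⟩⟩
  obtain ⟨E, hE⟩ := exists_least (ham_herm (L := L) R (herm_isHermitian x))
  obtain ⟨ψ, h1, h2⟩ := hE.1
  obtain ⟨φ, h4, h5, h6⟩ := exists_transInv R (herm x) (E : ℂ) ψ h1 h2
  exact ⟨φ, h4, h5, E, hE, h6⟩

lemma lin_of_qf (R : Finset (ℤ × ℤ)) (x : (R → Fin d) → (R → Fin d) → ℝ) {L : ℕ} [NeZero L]
    {φ : (Site L → Fin d) → ℂ} (h4 : normSq φ = 1) (h5 : TransInv φ) :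
    (qf (ham R (herm x) L) φ).re = (L : ℝ) ^ 2 * lin (redState R φ) x := by
  rw [qf_ham R (herm x) φ h4 h5, lin_apply]
  have : ((L : ℂ) ^ 2) = (((L : ℝ) ^ 2 : ℝ) : ℂ) := by push_cast; rfl
  rw [this, Complex.re_ofReal_mul]

lemma least_of_ti (R : Finset (ℤ × ℤ)) (x : (R → Fin d) → (R → Fin d) → ℝ) {L : ℕ} [NeZero L]
    {φ : (Site L → Fin d) → ℂ} (h4 : normSq φ = 1) (h5 : TransInv φ) {E : ℝ}
    (h6 : (ham R (herm x) L).mulVec φ = (E : ℂ) • φ) : E = (L : ℝ) ^ 2 * lin (redState R φ) x := by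
  rw [← lin_of_qf R x h4 h5]
  unfold qf
  rw [h6, ip_smul_right, ip_self, h4]
  simp

/-- the ground energy is `L²` times the energy density up to `O(L)` -/
theorem energy_rate (hd : 2 ≤ d) (R : Finset (ℤ × ℤ)) (x : (R → Fin d) → (R → Fin d) → ℝ) :
    ∃ C : ℝ, 0 ≤ C ∧ ∀ (L : ℕ) [NeZero L], C ≤ L → ∀ E : ℝ, IsLeast' (ham R (herm x) L) E →
      |E - low (limStates d R) x * (L : ℝ) ^ 2| ≤ C * L := by
  obtain ⟨s, hs⟩ : ∃ s : ℝ, s = size (herm x) := ⟨_, rfl⟩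
  have hs0 : 0 ≤ s := by rw [hs]; exact size_nonneg _
  obtain ⟨C, hC⟩ : ∃ C : ℝ, C = 8 * s * ((rad R : ℝ) + 2) + (2 * R.card + 2 * rad R + 4) :=
    ⟨_, rfl⟩
  have p1 : 0 ≤ 8 * s * ((rad R : ℝ) + 2) := by positivity
  have p2 : (0 : ℝ) ≤ R.card := Nat.cast_nonneg _
  have p3 : (0 : ℝ) ≤ rad R := Nat.cast_nonneg _
  have hCa : 8 * s * ((rad R : ℝ) + 2) ≤ C := by rw [hC]; linarith
  have hCe : 2 * (R.card : ℝ) + 2 ≤ C := by rw [hC]; linarith
  have hCf : 2 * (rad R : ℝ) + 2 ≤ C := by rw [hC]; linarith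
  refine ⟨C, by linarith, ?_⟩
  intro L _ hL E hE
  have c1 : 2 * R.card + 2 ≤ L := by
    have : ((2 * R.card + 2 : ℕ) : ℝ) ≤ L := by push_cast; exact hCe.trans hL
    exact_mod_cast this
  have c2 : 2 * rad R + 2 ≤ L := by
    have : ((2 * rad R + 2 : ℕ) : ℝ) ≤ L := by push_cast; exact hCf.trans hL
    exact_mod_cast this
  have hL0 : (0 : ℝ) < L := by exact_mod_cast Nat.pos_of_ne_zero (NeZero.ne L)
  obtain ⟨ψ₀, h1, h2⟩ := hE.1
  obtain ⟨φ, h4, h5, h6⟩ := exists_transInv R (herm x) (E : ℂ) ψ₀ h1 h2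
  have hG : IsGround (ham R (herm x) L) φ :=
    ⟨E, h6, least_bound (ham_herm R (herm_isHermitian x)) hE⟩
  have hval := least_of_ti R x h4 h5 h6
  have k1 := low_le_lin hd R L c1 c2 φ h4 h5 x
  have k2 := ground_le_low hd R L φ h4 h5 x hG
  rw [← hs] at k1 k2
  have k3 : |lin (redState R φ) x - low (limStates d R) x| ≤ C * (1 / L) := by
    have e1 : s * (8 * ((rad R : ℝ) + 2)) * (1 / L) ≤ C * (1 / L) := by
      apply mul_le_mul_of_nonneg_right _ (by positivity)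
      linarith
    have e2 : 8 * (rad R : ℝ) * s * (1 / L) ≤ C * (1 / L) := by
      apply mul_le_mul_of_nonneg_right _ (by positivity)
      nlinarith
    rw [abs_le]
    constructor <;> linarith
  have k4 : E - low (limStates d R) x * (L : ℝ) ^ 2 =
      (L : ℝ) ^ 2 * (lin (redState R φ) x - low (limStates d R) x) := by rw [hval]; ring
  rw [k4, abs_mul, abs_of_nonneg (by positivity : (0 : ℝ) ≤ (L : ℝ) ^ 2)]
  calc (L : ℝ) ^ 2 * |lin (redState R φ) x - low (limStates d R) x|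
      ≤ (L : ℝ) ^ 2 * (C * (1 / L)) := mul_le_mul_of_nonneg_left k3 (by positivity)
    _ = C * L := by field_simp

/-- near ground vectors: at a point with a quadratic lower bound -/
theorem point_rate (hd : 2 ≤ d) (R : Finset (ℤ × ℤ)) {x : (R → Fin d) → (R → Fin d) → ℝ}
    {ρ : Matrix (R → Fin d) (R → Fin d) ℂ} (hρ : ρ.IsHermitian) (hQ : QB R x ρ) :
    ∃ C : ℝ, 0 ≤ C ∧ ∀ (L : ℕ) [NeZero L], C ≤ L → ∀ φ : (Site L → Fin d) → ℂ, normSq φ = 1 →
      TransInv φ → ∀ η : ℝ, 0 ≤ η →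
      (qf (ham R (herm x) L) φ).re ≤ (low (limStates d R) x + η) * (L : ℝ) ^ 2 →
      traceNorm (redState R φ - ρ) ≤ C * Real.sqrt (η + 1 / L) := by
  obtain ⟨C₀, hC₀, hcore⟩ := core hd R hρ hQ
  obtain ⟨N, hN⟩ : ∃ N : ℝ, N = (Fintype.card (R → Fin d) : ℝ) ^ 2 := ⟨_, rfl⟩
  have hN0 : 0 ≤ N := by rw [hN]; positivity
  have p1 : 0 ≤ N * C₀ := by positivity
  have p2 : (0 : ℝ) ≤ R.card := Nat.cast_nonneg _
  have p3 : (0 : ℝ) ≤ rad R := Nat.cast_nonneg _
  refine ⟨N * C₀ + (2 * R.card + 2 * rad R + 4), by linarith, ?_⟩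
  intro L _ hL φ h4 h5 η hη hen
  have c1 : 2 * R.card + 2 ≤ L := by
    have : ((2 * R.card + 2 : ℕ) : ℝ) ≤ L := by push_cast; linarith
    exact_mod_cast this
  have c2 : 2 * rad R + 2 ≤ L := by
    have : ((2 * rad R + 2 : ℕ) : ℝ) ≤ L := by push_cast; linarith
    exact_mod_cast this
  have hL0 : (0 : ℝ) < L := by exact_mod_cast Nat.pos_of_ne_zero (NeZero.ne L)
  rw [lin_of_qf R x h4 h5, mul_comm _ ((L : ℝ) ^ 2)] at hen
  have h6 : lin (redState R φ) x ≤ low (limStates d R) x + η :=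
    le_of_mul_le_mul_left hen (by positivity)
  have h7 := hcore L c1 c2 φ h4 h5 η hη h6
  have h8 := traceNorm_le (redState R φ - ρ) (C₀ * Real.sqrt (η + 1 / L))
    (mul_nonneg hC₀ (Real.sqrt_nonneg _)) (fun a b => by rw [Matrix.sub_apply]; exact h7 a b)
  rw [← hN] at h8
  refine h8.trans ?_
  rw [add_mul, ← mul_assoc]
  have := mul_nonneg (by linarith : (0 : ℝ) ≤ 2 * R.card + 2 * rad R + 4)
    (Real.sqrt_nonneg (η + 1 / (L : ℝ)))
  linarith

/-- **Almost every interaction**: the energy controls the local states, and the rate of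
convergence of the ground vectors. -/
theorem generic_rate (hd : 2 ≤ d) (R : Finset (ℤ × ℤ)) :
    ∃ e : ((R → Fin d) → (R → Fin d) → ℝ) → ℝ,
      (∀ x, ∃ C : ℝ, ∀ (L : ℕ) [NeZero L], C ≤ L → ∀ E : ℝ, IsLeast' (ham R (herm x) L) E →
        |E - e x * (L : ℝ) ^ 2| ≤ C * L) ∧
      (∀ᵐ x, ∃ (ρ : Matrix (R → Fin d) (R → Fin d) ℂ) (C : ℝ), ∀ (L : ℕ) [NeZero L], C ≤ L →
        (∀ φ : (Site L → Fin d) → ℂ, normSq φ = 1 → TransInv φ → ∀ η : ℝ, 0 ≤ η →
          (qf (ham R (herm x) L) φ).re ≤ (e x + η) * (L : ℝ) ^ 2 →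
          traceNorm (redState R φ - ρ) ≤ C * Real.sqrt (η + 1 / L)) ∧
        (∀ φ : (Site L → Fin d) → ℂ, TIGround (ham R (herm x) L) φ →
          traceNorm (redState R φ - ρ) ≤ C / Real.sqrt L)) := by
  refine ⟨low (limStates d R), fun x => ?_, ?_⟩
  · obtain ⟨C, _, hC⟩ := energy_rate hd R x
    exact ⟨C, hC⟩
  filter_upwards [generic_QB hd R] with x hx
  obtain ⟨ρ, _, hρ, _, hQ⟩ := hx
  obtain ⟨C₁, hC₁, h1⟩ := energy_rate hd R x
  obtain ⟨C₂, hC₂, h2⟩ := point_rate hd R hρ hQ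
  refine ⟨ρ, C₁ + C₂ * Real.sqrt (C₁ + 1) + C₂, fun L _ hL => ?_⟩
  have hs : 1 ≤ Real.sqrt (C₁ + 1) := by
    rw [Real.one_le_sqrt]; linarith
  have hs2 : C₂ ≤ C₂ * Real.sqrt (C₁ + 1) := le_mul_of_one_le_right hC₂ hs
  have hL0 : (0 : ℝ) < L := by exact_mod_cast Nat.pos_of_ne_zero (NeZero.ne L)
  have hsL : 0 < Real.sqrt L := Real.sqrt_pos.2 hL0
  constructor
  · intro φ h4 h5 η hη hen
    refine (h2 L (by linarith) φ h4 h5 η hη hen).trans ?_
    exact mul_le_mul_of_nonneg_right (by linarith) (Real.sqrt_nonneg _)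
  · intro φ hφ
    obtain ⟨h4, h5, E, h6, h7⟩ := hφ
    have h8 := (abs_le.mp (h1 L (by linarith) E h6)).2
    have h9 : (qf (ham R (herm x) L) φ).re = E := by
      rw [lin_of_qf R x h4 h5, ← least_of_ti R x h4 h5 h7]
    have h10 : (qf (ham R (herm x) L) φ).re ≤
        (low (limStates d R) x + C₁ / L) * (L : ℝ) ^ 2 := by
      rw [h9, add_mul]
      have : C₁ / (L : ℝ) * (L : ℝ) ^ 2 = C₁ * L := by field_simp
      rw [this]; linarith
    refine (h2 L (by linarith) φ h4 h5 (C₁ / L) (by positivity) h10).trans ?_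
    have h11 : C₁ / (L : ℝ) + 1 / L = (C₁ + 1) / L := by ring
    rw [h11, Real.sqrt_div (by linarith), mul_div_assoc']
    apply div_le_div_of_nonneg_right _ hsL.le
    linarith

end Pool.Agent.K3h59.PE
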